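import Pool.Agent.N154.GG.Defs
import Pool.Agent.Y190.OP.Phi

/-!
Holomorphic discs in projective varieties, the Kobayashi pseudodistance, and a distance on
projective space.
-/

set_option autoImplicit false

open Metric LinearAlgebra.Projectivization Pool.Agent.W602.GT

namespace Pool.Agent.N154.GG

variable {n : ℕ}

/-- The map `f` from the open set `U` of the complex plane to projective space is holomorphic: near
every point of `U` it is given by holomorphic homogeneous coordinates. -/
def HolMapOn (U : Set ℂ) (f : ℂ → ℙ ℂ (Fin (n + 1) → ℂ)) : Prop :=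
  ∀ z ∈ U, ∃ (V : Set ℂ) (g : ℂ → Fin (n + 1) → ℂ), IsOpen V ∧ z ∈ V ∧ DifferentiableOn ℂ g V ∧
    ∀ w ∈ V, ∃ h : g w ≠ 0, f w = Projectivization.mk ℂ (g w) h

/-- The Poincaré distance of two points of the unit disc (curvature `-1`). -/
noncomputable def poincareDist (s t : ℂ) : ℝ :=
  Real.log ((1 + ‖s - t‖ / ‖1 - (starRingEnd ℂ) s * t‖) /
    (1 - ‖s - t‖ / ‖1 - (starRingEnd ℂ) s * t‖))

/-- `c` is the total Poincaré length of a chain of holomorphic discs from `p` to `q` in the
projective set with the cone `X`. -/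
def IsChainLength (X : Set (Fin (n + 1) → ℂ)) (p q : ℙ ℂ (Fin (n + 1) → ℂ)) (c : ℝ) : Prop :=
  ∃ (k : ℕ) (r : Fin (k + 1) → ℙ ℂ (Fin (n + 1) → ℂ)) (f : Fin k → ℂ → ℙ ℂ (Fin (n + 1) → ℂ))
    (s t : Fin k → ℂ), r 0 = p ∧ r (Fin.last k) = q ∧
    (∀ i : Fin k, HolMapOn (ball 0 1) (f i) ∧ (∀ z ∈ ball (0 : ℂ) 1, (f i z).rep ∈ X) ∧
      s i ∈ ball (0 : ℂ) 1 ∧ t i ∈ ball (0 : ℂ) 1 ∧
      f i (s i) = r i.castSucc ∧ f i (t i) = r i.succ) ∧
    c = ∑ i : Fin k, poincareDist (s i) (t i)

/-- The Kobayashi pseudodistance of the projective set with the cone `X`: the infimum of the lengths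
of the chains of holomorphic discs in it that join the two points. -/
noncomputable def kobayashi (X : Set (Fin (n + 1) → ℂ)) (p q : ℙ ℂ (Fin (n + 1) → ℂ)) : ENNReal :=
  ⨅ (c : ℝ) (_ : IsChainLength X p q c), ENNReal.ofReal c

/-- A distance on projective space: the maximum of the absolute values of the entries of the
difference of the matrices `u j * conj (u k) / ∑ l, |u l| ^ 2` of the orthogonal projections onto
the two lines. -/
noncomputable def projDist (p q : ℙ ℂ (Fin (n + 1) → ℂ)) : ℝ :=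
  ‖Pool.Agent.Y190.OP.Phi p.rep - Pool.Agent.Y190.OP.Phi q.rep‖

end Pool.Agent.N154.GG
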