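import Pool.Agent.N154.DD.Kob
import Pool.Agent.N154.DD.KDefs
import Pool.Agent.N154.GG.Geo3

/-! The Kobayashi pseudodistance of projective manifolds over elliptic curves. -/

set_option autoImplicit false

open Filter Topology Metric Set LinearAlgebra.Projectivization

namespace Pool.Agent.N154.GG

open FF Pool.Agent.Y190.OP Pool.Agent.W602.GT
open Pool.Agent.N155 (TX isCompact_TX TX_PM exists_shift nz nz_Phi val_eval)

variable {n : ℕ} {ι : Type} {F : ι → MvPolynomial (Fin (n + 1)) ℂ} {d : ℕ} {K : Type} [Field K]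
  [Algebra ℂ K] {y : Fin (n + 1) → K} {L : PeriodPair} {α : (Fin (n + 1) → ℂ) → ℂ ⧸ L.lattice}
  {κ : Type} {η : κ → (Fin (n + 1) → ℂ) → (Fin (n + 1) → ℂ) → (Fin (n + 1) → ℂ) → ℂ}

theorem holP_of_on {U : Set ℂ} {f : ℂ → ℙ ℂ (Fin (n + 1) → ℂ)} (hf : HolMapOn U f) :
    HolP U fun z => Phi (f z).rep := by
  intro z hz
  obtain ⟨V, g, hV, hzV, hg, hfg⟩ := hf z hz
  refine ⟨V, g, hV, hzV, hg, fun w hw => ?_⟩
  obtain ⟨h0, he⟩ := hfg w hw
  refine ⟨h0, ?_⟩
  change Phi (f w).rep = Phi (g w)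
  rw [he, Phi_rep_mk]

lemma cost_eq (s t : ℂ) : Pool.Agent.Helper206.cost s t = poincareDist s t := rfl

/-- chains of discs and truncated distances -/
theorem chain_trunc (hX : SmoothVariety F d y) {M0 : Mat (n + 1)} {A ρ : ℝ} (hA : 0 ≤ A)
    (h : ∀ P : ℂ → Mat (n + 1), HolP (ball 0 1) P → (∀ w ∈ ball (0 : ℂ) 1, P w ∈ TX y) →
      ∀ s ∈ ball (0 : ℂ) 1, ∀ t ∈ ball (0 : ℂ) 1,
        dist (min ‖P t - M0‖ ρ) (min ‖P s - M0‖ ρ) ≤ A * Pool.Agent.Helper206.cost s t)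
    {p q : ℙ ℂ (Fin (n + 1) → ℂ)} {c : ℝ} (hc : IsChainLength (Cone F) p q c) :
    dist (min ‖Phi q.rep - M0‖ ρ) (min ‖Phi p.rep - M0‖ ρ) ≤ A * c := by
  obtain ⟨k, r, f, s, t, h0, hl, hi, rfl⟩ := hc
  have h1 := Pool.Agent.Helper206.chain_bound k (fun j => min ‖Phi (r j).rep - M0‖ ρ)
    (fun i => A * poincareDist (s i) (t i))
    (by
      intro i
      obtain ⟨-, -, hs, ht, -, -⟩ := hi i
      exact mul_nonneg hA ((Pool.Agent.Helper206.phd_nonneg (s i) (t i)).trans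
        (Pool.Agent.Helper206.phd_le_cost hs ht)))
    (by
      intro i
      obtain ⟨hf, hfS, hs, ht, es, et⟩ := hi i
      have := h (fun z => Phi (f i z).rep) (holP_of_on hf) (fun w hw => mem_TX hX (hfS w hw))
        _ hs _ ht
      simp only [es, et, cost_eq] at this
      exact this) (Fin.last k)
  simp only [h0, hl] at h1
  rw [← Finset.mul_sum] at h1
  exact h1

/-- **The Kobayashi pseudodistance of projective manifolds fibred over elliptic curves.** -/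
theorem kob_geo (hX : SmoothVariety F d y) (hd : 2 ≤ d) (hη : PositiveTwoForms (Cone F) d η)
    (hα : HolToTorus (Cone F) L α) (hfib : HyperbolicFibres F α) :
    ∃ S : Set (ℂ → ℙ ℂ (Fin (n + 1) → ℂ)), S.Finite ∧
      (∀ g ∈ S, HolIn F g ∧ ∀ z, α (g z).rep = Submodule.Quotient.mk z) ∧
      (∃ G : MvPolynomial (Fin (n + 1)) ℂ, IsForm G ∧ val y G ≠ 0 ∧
        (∀ g ∈ S, ∀ z, val (g z).rep G = 0) ∧
        ∀ p q : ℙ ℂ (Fin (n + 1) → ℂ), p.rep ∈ Cone F → q.rep ∈ Cone F → p ≠ q →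
          val p.rep G ≠ 0 ∨ val q.rep G ≠ 0 → 0 < kobayashi (Cone F) p q) ∧
      ∀ ε : ℝ, 0 < ε → ∃ c : ℝ, 0 < c ∧ ∀ p q : ℙ ℂ (Fin (n + 1) → ℂ), p.rep ∈ Cone F →
        q.rep ∈ Cone F → ∀ D : ℝ, 0 ≤ D → D ≤ 1 → (∀ g ∈ S, ∀ z, D ≤ projDist p (g z)) →
          ENNReal.ofReal (c * D ^ ε * min D (projDist p q)) ≤ kobayashi (Cone F) p q := by
  classical
  have hT := td_of hX hα
  have hf := fib_of hX hα hfib
  have hG := gd_of hX hα hη
  obtain ⟨S', k, hS'fin, hk, hS', hf', G', hG'⟩ := ggl_geo hX hd hη hα hfib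
  obtain ⟨r, e, hE⟩ := exists_En hT hf hG
  set S : Set (ℂ → ℙ ℂ (Fin (n + 1) → ℂ)) := range fun (j : Fin r) (z : ℂ) => toProj (e j z) with hS
  have hSmem : ∀ g ∈ S, HolIn F g ∧ ∀ z, α (g z).rep = Submodule.Quotient.mk z := by
    rintro _ ⟨j, rfl⟩
    exact S0_iff hX hα (hE.mem j)
  have hXi : ∀ M ∈ Xi e, ∃ g ∈ S, ∃ z, M = Phi (g z).rep := by
    rintro M ⟨j, z, rfl⟩
    exact ⟨_, ⟨j, rfl⟩, z, (Phi_rep_toProj (TX_PM ((hE.mem j).2.1 z))).symm⟩
  -- the lower bound with the point `M0`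
  have hlow : ∀ ε : ℝ, 0 < ε → ∃ c : ℝ, 0 < c ∧ ∀ D : ℝ, 0 < D → D ≤ 1 → ∀ M0 : Mat (n + 1),
      (∀ M ∈ Xi e, D ≤ ‖M0 - M‖) → ∀ p q : ℙ ℂ (Fin (n + 1) → ℂ),
        ENNReal.ofReal (c * D ^ ε * dist (min ‖Phi q.rep - M0‖ (D / 2))
          (min ‖Phi p.rep - M0‖ (D / 2))) ≤ kobayashi (Cone F) p q := by
    intro ε hε
    obtain ⟨C, hC, hdisc⟩ := disc_trunc hT hf hG hE hε
    refine ⟨C⁻¹, inv_pos.2 hC, fun D hD0 hD1 M0 hM0 p q => ?_⟩
    unfold kobayashi
    refine le_iInf₂ fun c hc => ENNReal.ofReal_le_ofReal ?_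
    have hDε : 0 < D ^ ε := Real.rpow_pos_of_pos hD0 _
    have h1 := chain_trunc hX (A := C / D ^ ε) (by positivity)
      (hdisc D hD0 hD1 M0 hM0) hc
    have h2 := mul_le_mul_of_nonneg_left h1 (show 0 ≤ C⁻¹ * D ^ ε by positivity)
    refine h2.trans (le_of_eq ?_)
    field_simp
  refine ⟨S, finite_range _, hSmem, ?_, ?_⟩
  · obtain ⟨hG1, hG2, hG3⟩ := hG'
    have hvan : ∀ g ∈ S, ∀ z, val (g z).rep G' = 0 := by
      intro g hg
      rcases hG3 g (hSmem g hg).1 with h1 | h1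
      · exfalso
        have h2 : ∀ z w : ℂ, (Submodule.Quotient.mk z : ℂ ⧸ L.lattice) =
            Submodule.Quotient.mk w := by
          intro z w
          rw [← (hSmem g hg).2 z, ← (hSmem g hg).2 w, h1 z w]
        have h3 : ∀ z : ℂ, z ∈ L.lattice := fun z => by
          have := (Submodule.Quotient.eq L.lattice).1 (h2 z 0)
          rwa [sub_zero] at this
        exact L.ω₁_div_two_notMem_lattice (h3 _)
      · exact h1
    refine ⟨G', hG1, hG2, hvan, ?_⟩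
    -- the distance to the closed set
    have hpos : ∀ p : ℙ ℂ (Fin (n + 1) → ℂ), val p.rep G' ≠ 0 → ∃ D : ℝ, 0 < D ∧ D ≤ 1 ∧
        ∀ M ∈ Xi e, D ≤ ‖Phi p.rep - M‖ := by
      intro p hp
      have hcl : IsClosed {M : Mat (n + 1) | ¬ nz G' M} :=
        (Pool.Agent.N155.isOpen_nz G').isClosed_compl
      have hpn : Phi p.rep ∉ {M : Mat (n + 1) | ¬ nz G' M} := by
        obtain ⟨m, hm⟩ := hG1
        rw [mem_ofPred_eq, not_not, nz_Phi hm p.rep_nonzero, ← val_eval]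
        exact hp
      obtain ⟨D, hD, hDb⟩ := Metric.isOpen_iff.1 hcl.isOpen_compl _ hpn
      refine ⟨min D 1, lt_min hD one_pos, min_le_right _ _, fun M hM => ?_⟩
      by_contra hlt
      have h1 : M ∈ ball (Phi p.rep) D := by
        rw [mem_ball, dist_comm, dist_eq_norm]
        exact (not_le.1 hlt).trans_le (min_le_left _ _)
      refine hDb h1 ?_
      obtain ⟨g, hg, z, rfl⟩ := hXi M hM
      obtain ⟨m, hm⟩ := hG1
      rw [mem_ofPred_eq, nz_Phi hm (g z).rep_nonzero, not_not, ← val_eval]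
      exact hvan g hg z
    obtain ⟨c, hc, hlow1⟩ := hlow 1 one_pos
    intro p q hp hq hpq hval
    have hne : Phi q.rep - Phi p.rep ≠ 0 := fun h => hpq (proj_ext (sub_eq_zero.1 h)).symm
    have hne' : 0 < ‖Phi q.rep - Phi p.rep‖ := norm_pos_iff.2 hne
    rcases hval with hv | hv
    · obtain ⟨D, hD0, hD1, hD⟩ := hpos p hv
      refine lt_of_lt_of_le (ENNReal.ofReal_pos.2 ?_) (hlow1 D hD0 hD1 _ hD p q)
      have h1 : dist (min ‖Phi q.rep - Phi p.rep‖ (D / 2)) (min ‖Phi p.rep - Phi p.rep‖ (D / 2)) =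
          min ‖Phi q.rep - Phi p.rep‖ (D / 2) := by
        rw [sub_self, norm_zero, min_eq_left (show (0 : ℝ) ≤ D / 2 by positivity), Real.dist_eq,
          sub_zero, abs_of_nonneg (by positivity)]
      rw [h1]
      positivity
    · obtain ⟨D, hD0, hD1, hD⟩ := hpos q hv
      refine lt_of_lt_of_le (ENNReal.ofReal_pos.2 ?_) (hlow1 D hD0 hD1 _ hD p q)
      have h1 : dist (min ‖Phi q.rep - Phi q.rep‖ (D / 2)) (min ‖Phi p.rep - Phi q.rep‖ (D / 2)) =
          min ‖Phi q.rep - Phi p.rep‖ (D / 2) := by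
        rw [sub_self, norm_zero, min_eq_left (show (0 : ℝ) ≤ D / 2 by positivity), Real.dist_eq,
          zero_sub, abs_neg, abs_of_nonneg (by positivity), norm_sub_rev]
      rw [h1]
      positivity
  · intro ε hε
    obtain ⟨c, hc, hlow1⟩ := hlow ε hε
    refine ⟨c / 2, by positivity, fun p q hp hq D hD0 hD1 hDS => ?_⟩
    rcases hD0.eq_or_lt with h0 | h0
    · rw [← h0, Real.zero_rpow hε.ne']
      simp
    · refine le_trans (ENNReal.ofReal_le_ofReal ?_) (hlow1 D h0 hD1 (Phi p.rep) (by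
        intro M hM
        obtain ⟨g, hg, z, rfl⟩ := hXi M hM
        exact hDS g hg z) p q)
      have h1 : dist (min ‖Phi q.rep - Phi p.rep‖ (D / 2)) (min ‖Phi p.rep - Phi p.rep‖ (D / 2)) =
          min ‖Phi q.rep - Phi p.rep‖ (D / 2) := by
        rw [sub_self, norm_zero, min_eq_left (show (0 : ℝ) ≤ D / 2 by positivity), Real.dist_eq,
          sub_zero, abs_of_nonneg (by positivity)]
      rw [h1]
      have h2 : min D (projDist p q) / 2 ≤ min ‖Phi q.rep - Phi p.rep‖ (D / 2) := by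
        have e1 : projDist p q = ‖Phi q.rep - Phi p.rep‖ := norm_sub_rev _ _
        rw [← e1]
        have e2 : 0 ≤ projDist p q := norm_nonneg _
        apply le_min
        · have := min_le_right D (projDist p q)
          have := min_le_left D (projDist p q)
          have : 0 ≤ min D (projDist p q) := le_min hD0 e2
          linarith
        · have := min_le_left D (projDist p q)
          linarith
      have hDε : 0 < D ^ ε := Real.rpow_pos_of_pos h0 _
      calc c / 2 * D ^ ε * min D (projDist p q) = c * D ^ ε * (min D (projDist p q) / 2) := by ring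
        _ ≤ _ := mul_le_mul_of_nonneg_left h2 (by positivity)

end Pool.Agent.N154.GG
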