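import Pool.Agent.N154.DD.KDefs

/-!
Holomorphic maps from the punctured disc to a projective variety, and their extension.
-/

set_option autoImplicit false

open Metric LinearAlgebra.Projectivization Pool.Agent.W602.GT FF

namespace Pool.Agent.N154.GG

variable {n : ℕ} {ι : Type}

/-- The punctured unit disc. -/
def PDisc : Set ℂ := ball 0 1 \ {0}

/-- `f` is a holomorphic map from the punctured unit disc to the projective set `X = {F = 0}`. -/
def PunctIn (F : ι → MvPolynomial (Fin (n + 1)) ℂ) (f : ℂ → ℙ ℂ (Fin (n + 1) → ℂ)) : Prop :=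
  HolMapOn PDisc f ∧ ∀ z ∈ PDisc, (f z).rep ∈ Cone F

/-- The map `f` from the punctured unit disc to the projective set `X = {F = 0}` extends to a
holomorphic map from the unit disc to `X`. -/
def Extends (F : ι → MvPolynomial (Fin (n + 1)) ℂ) (f : ℂ → ℙ ℂ (Fin (n + 1) → ℂ)) : Prop :=
  ∃ f' : ℂ → ℙ ℂ (Fin (n + 1) → ℂ), HolMapOn (ball 0 1) f' ∧
    (∀ z ∈ ball (0 : ℂ) 1, (f' z).rep ∈ Cone F) ∧ ∀ z ∈ PDisc, f' z = f z

end Pool.Agent.N154.GG
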