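import Pool.Agent.N154.DD.Pic
import Pool.Agent.N154.DD.PDefs
import Pool.Agent.N154.DD.KGeo

/-! The big Picard theorem for projective manifolds over elliptic curves. -/

set_option autoImplicit false

open Filter Topology Metric Set LinearAlgebra.Projectivization

namespace Pool.Agent.N154.GG

open FF Pool.Agent.Y190.OP Pool.Agent.W602.GT
open Pool.Agent.N155 (TX isCompact_TX TX_PM exists_shift nz nz_Phi val_eval)

variable {n : ℕ} {ι : Type} {F : ι → MvPolynomial (Fin (n + 1)) ℂ} {d : ℕ} {K : Type} [Field K]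
  [Algebra ℂ K] {y : Fin (n + 1) → K} {L : PeriodPair} {α : (Fin (n + 1) → ℂ) → ℂ ⧸ L.lattice}
  {κ : Type} {η : κ → (Fin (n + 1) → ℂ) → (Fin (n + 1) → ℂ) → (Fin (n + 1) → ℂ) → ℂ}

theorem isOpen_PDisc : IsOpen PDisc := isOpen_ball.sdiff isClosed_singleton

theorem exp_mem_PDisc {z : ℂ} (hz : z ∈ HP) : Complex.exp z ∈ PDisc := by
  refine ⟨?_, Complex.exp_ne_zero z⟩
  rw [mem_ball_zero_iff, Complex.norm_exp, Real.exp_lt_one_iff]
  exact hz

theorem log_mem_HP {z : ℂ} (hz : z ∈ PDisc) : Complex.log z ∈ HP ∧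
    Complex.exp (Complex.log z) = z := by
  have h0 : z ≠ 0 := hz.2
  refine ⟨?_, Complex.exp_log h0⟩
  change (Complex.log z).re < 0
  rw [Complex.log_re]
  exact Real.log_neg (norm_pos_iff.2 h0) (mem_ball_zero_iff.1 hz.1)

theorem toProj_Phi_rep (p : ℙ ℂ (Fin (n + 1) → ℂ)) : toProj (Phi p.rep) = p := by
  rw [toProj_Phi p.rep_nonzero, p.mk_rep]

theorem holMapOn_of {U : Set ℂ} {P : ℂ → Mat (n + 1)} (hP : HolP U P) :
    HolMapOn U fun z => toProj (P z) := by
  intro z hz
  obtain ⟨V, G, hV, hzV, hd, hF⟩ := hP z hz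
  refine ⟨V, G, hV, hzV, hd, fun w hw => ?_⟩
  obtain ⟨h1, h2⟩ := hF w hw
  exact ⟨h1, by
    change toProj (P w) = _
    rw [h2, toProj_Phi h1]⟩

/-- removable singularities -/
theorem holP_remove {N : ℕ} {P : ℂ → Mat N} (hP : HolP PDisc P) {M0 : Mat N} (hM0 : M0 ∈ PM)
    (hlim : ∀ ε : ℝ, 0 < ε → ∃ δ : ℝ, 0 < δ ∧ ∀ z ∈ PDisc, ‖z‖ < δ → ‖P z - M0‖ ≤ ε) :
    HolP (ball 0 1) (fun z => if z = 0 then M0 else P z) := by
  classical
  intro z hz
  by_cases h0 : z = 0
  · subst h0
    obtain ⟨i, hi⟩ := PM.exists_diag hM0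
    have hev : ∀ᶠ M : Mat N in 𝓝 M0, M i i ≠ 0 :=
      (continuous_apply_apply i i).continuousAt.eventually_ne hi
    obtain ⟨δ1, hδ1, hδ1'⟩ := Metric.nhds_basis_closedBall.eventually_iff.1 hev
    obtain ⟨δ2, hδ2, hδ2'⟩ := hlim δ1 hδ1
    set δ : ℝ := min δ2 1 with hδ
    have hδ0 : 0 < δ := lt_min hδ2 one_pos
    have hmem : ∀ w ∈ ball (0 : ℂ) δ, w ≠ 0 → w ∈ PDisc ∧ P w i i ≠ 0 := by
      intro w hw hw0
      rw [mem_ball_zero_iff] at hw
      have h1 : w ∈ PDisc :=
        ⟨mem_ball_zero_iff.2 (hw.trans_le (min_le_right _ _)), hw0⟩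
      exact ⟨h1, hδ1' (by
        rw [mem_closedBall, dist_eq_norm]
        exact hδ2' w h1 (hw.trans_le (min_le_left _ _)))⟩
    set g : ℂ → Fin N → ℂ := fun w => chart i (if w = 0 then M0 else P w) with hg
    have hgd : DifferentiableOn ℂ g (ball 0 δ) := by
      rw [← Complex.differentiableOn_compl_singleton_and_continuousAt_iff (c := 0)
        (ball_mem_nhds 0 hδ0)]
      constructor
      · rintro w ⟨hw, hw0⟩
        have hw0' : w ≠ 0 := hw0
        obtain ⟨h1, h2⟩ := hmem w hw hw0'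
        have h3 : g =ᶠ[𝓝 w] fun w => chart i (P w) := by
          filter_upwards [isOpen_ne.mem_nhds hw0'] with x hx
          rw [hg]
          simp only
          rw [if_neg hx]
        exact ((hP.diff_chart h1 h2).congr_of_eventuallyEq h3).differentiableWithinAt
      · have h1 : ContinuousAt (fun w => if w = 0 then M0 else P w) (0 : ℂ) := by
          rw [Metric.continuousAt_iff]
          intro ε hε
          obtain ⟨δ3, hδ3, hδ3'⟩ := hlim (ε / 2) (by positivity)
          refine ⟨min δ3 1, lt_min hδ3 one_pos, fun {x} hx => ?_⟩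
          rw [dist_zero_right] at hx
          rw [if_pos rfl]
          split_ifs with hx0
          · rw [dist_self]
            exact hε
          · rw [dist_eq_norm]
            have := hδ3' x ⟨mem_ball_zero_iff.2 (hx.trans_le (min_le_right _ _)), hx0⟩
              (hx.trans_le (min_le_left _ _))
            linarith
        have h2 : ContinuousAt (chart i) ((fun w : ℂ => if w = 0 then M0 else P w) 0) := by
          simp only [if_true]
          exact continuousAt_chart hi
        exact ContinuousAt.comp (f := fun w : ℂ => if w = 0 then M0 else P w) h2 h1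
    refine ⟨ball 0 δ, g, isOpen_ball, mem_ball_self hδ0, hgd, fun w hw => ?_⟩
    by_cases hw0 : w = 0
    · rw [hg]
      simp only
      rw [if_pos hw0]
      exact ⟨PM.chart_ne hi, (PM.Phi_chart hM0 hi).symm⟩
    · obtain ⟨h1, h2⟩ := hmem w hw hw0
      rw [hg]
      simp only
      rw [if_neg hw0]
      exact ⟨PM.chart_ne h2, (PM.Phi_chart (hP.mem_PM h1) h2).symm⟩
  · obtain ⟨V, G, hV, hzV, hd, hF⟩ := hP z ⟨hz, h0⟩
    refine ⟨V \ {0}, G, hV.sdiff isClosed_singleton, ⟨hzV, h0⟩, hd.mono sdiff_subset,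
      fun w hw => ?_⟩
    have hw0 : w ≠ 0 := hw.2
    simp only
    rw [if_neg hw0]
    exact hF w hw.1

/-- **The big Picard theorem for projective manifolds fibred over elliptic curves.** -/
theorem picard_geo (hX : SmoothVariety F d y) (hd : 2 ≤ d) (hη : PositiveTwoForms (Cone F) d η)
    (hα : HolToTorus (Cone F) L α) (hfib : HyperbolicFibres F α) :
    ∃ S : Set (ℂ → ℙ ℂ (Fin (n + 1) → ℂ)), S.Finite ∧
      (∀ g ∈ S, HolIn F g ∧ ∀ z, α (g z).rep = Submodule.Quotient.mk z) ∧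
      (∀ f, PunctIn F f → Extends F f ∨ ∃ g ∈ S, ∃ φ : ℂ → ℂ,
        DifferentiableOn ℂ φ {z | z.re < 0} ∧
        ∀ z : ℂ, z.re < 0 → f (Complex.exp z) = g (φ z)) ∧
      ∃ G : MvPolynomial (Fin (n + 1)) ℂ, IsForm G ∧ val y G ≠ 0 ∧
        (∀ g ∈ S, ∀ z, val (g z).rep G = 0) ∧
        ∀ f, PunctIn F f → Extends F f ∨ ∀ z ∈ PDisc, val (f z).rep G = 0 := by
  classical
  have hT := td_of hX hα
  have hf := fib_of hX hα hfib
  have hG := gd_of hX hα hη
  obtain ⟨S', k, hS'fin, hk, hS', hf', G', hG1, hG2, hG3⟩ := ggl_geo hX hd hη hα hfib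
  obtain ⟨r, e, hE⟩ := exists_En hT hf hG
  set S : Set (ℂ → ℙ ℂ (Fin (n + 1) → ℂ)) := range fun (j : Fin r) (z : ℂ) => toProj (e j z) with hS
  have hSmem : ∀ g ∈ S, HolIn F g ∧ ∀ z, α (g z).rep = Submodule.Quotient.mk z := by
    rintro _ ⟨j, rfl⟩
    exact S0_iff hX hα (hE.mem j)
  have hvan : ∀ g ∈ S, ∀ z, val (g z).rep G' = 0 := by
    intro g hg
    rcases hG3 g (hSmem g hg).1 with h1 | h1
    · exfalso
      have h2 : ∀ z w : ℂ, (Submodule.Quotient.mk z : ℂ ⧸ L.lattice) =
          Submodule.Quotient.mk w := by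
        intro z w
        rw [← (hSmem g hg).2 z, ← (hSmem g hg).2 w, h1 z w]
      have h3 : ∀ z : ℂ, z ∈ L.lattice := fun z => by
        have := (Submodule.Quotient.eq L.lattice).1 (h2 z 0)
        rwa [sub_zero] at this
      exact L.ω₁_div_two_notMem_lattice (h3 _)
    · exact h1
  have hmain : ∀ f, PunctIn F f → Extends F f ∨ ∃ g ∈ S, ∃ φ : ℂ → ℂ,
        DifferentiableOn ℂ φ {z | z.re < 0} ∧
        ∀ z : ℂ, z.re < 0 → f (Complex.exp z) = g (φ z) := by
    intro f hf'
    set Q : ℂ → Mat (n + 1) := fun z => Phi (f z).rep with hQ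
    have hQh : HolP PDisc Q := holP_of_on hf'.1
    have hQT : ∀ z ∈ PDisc, Q z ∈ TX y := fun z hz => mem_TX hX (hf'.2 z hz)
    set P : ℂ → Mat (n + 1) := fun z => Q (Complex.exp z) with hPdef
    have hP : HolP HP P := holP_comp_l hQh Complex.differentiable_exp.differentiableOn isOpen_HP
      (fun z hz => exp_mem_PDisc hz)
    have hPT : ∀ z ∈ HP, P z ∈ TX y := fun z hz => hQT _ (exp_mem_PDisc hz)
    have hper : ∀ z ∈ HP, P (z + tpi) = P z := by
      intro z _
      change Q (Complex.exp (z + tpi)) = Q (Complex.exp z)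
      rw [show Complex.exp (z + tpi) = Complex.exp z from Complex.exp_periodic z]
    obtain ⟨φ, hφ⟩ := exists_PD hT hP hPT hper
    rcases hφ.picard hT hf hG hE with ⟨M0, hM0, hlim⟩ | ⟨j, hj⟩
    · left
      have hQext := holP_remove hQh (TX_PM hM0) (by
        intro ε hε
        obtain ⟨A, hA, hA'⟩ := hlim ε hε
        refine ⟨Real.exp (-A), Real.exp_pos _, fun z hz hzA => ?_⟩
        obtain ⟨h1, h2⟩ := log_mem_HP hz
        have h3 := hA' (Complex.log z) (by
          rw [Complex.log_re]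
          rw [← Real.log_exp (-A)]
          exact Real.log_le_log (norm_pos_iff.2 hz.2) hzA.le)
        change ‖Q (Complex.exp (Complex.log z)) - M0‖ ≤ ε at h3
        rwa [h2] at h3)
      refine ⟨_, holMapOn_of hQext, fun z hz => rep_toProj hX ?_, fun z hz => ?_⟩
      · by_cases h0 : z = 0
        · rw [if_pos h0]
          exact hM0
        · rw [if_neg h0]
          exact hQT z ⟨hz, h0⟩
      · have h0 : z ≠ 0 := hz.2
        rw [if_neg h0]
        exact toProj_Phi_rep _
    · right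
      refine ⟨_, ⟨j, rfl⟩, φ, hφ.dif, fun z hz => ?_⟩
      have h1 := hj z hz
      change Q (Complex.exp z) = e j (φ z) at h1
      change f (Complex.exp z) = toProj (e j (φ z))
      rw [← h1]
      exact (toProj_Phi_rep _).symm
  refine ⟨S, finite_range _, hSmem, hmain, G', hG1, hG2, hvan, fun f hf' => ?_⟩
  rcases hmain f hf' with h1 | ⟨g, hg, φ, -, h1⟩
  · exact Or.inl h1
  · right
    intro z hz
    obtain ⟨h2, h3⟩ := log_mem_HP hz
    have h4 := h1 (Complex.log z) h2
    rw [h3] at h4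
    rw [h4]
    exact hvan g hg _

end Pool.Agent.N154.GG
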