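import Pool.Agent.N154.DD.CP
import Pool.Agent.Helper206.Hyp

/-! The infinitesimal estimate, and the Kobayashi pseudodistance. -/

set_option autoImplicit false

open Filter Topology Metric Set

namespace Pool.Agent.N154.GG

open Pool.Agent.Y190.OP Pool.Agent.N155

variable {N : ℕ} {T : Set (Mat N)} {Λ : AddSubgroup ℂ} {a : Mat N → ℂ} {κ : Type}
    {η : κ → (Fin N → ℂ) → (Fin N → ℂ) → (Fin N → ℂ) → ℂ}
    {r : ℕ} {e : Fin r → ℂ → Mat N}

/-- the union of the curves over the identity -/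
def Xi (e : Fin r → ℂ → Mat N) : Set (Mat N) := {M | ∃ j z, M = e j z}

/-- **The infinitesimal estimate** -/
theorem inf_estimate (hT : TD T Λ a) (hf : Fib T Λ a) (hG : GD T Λ a η) (hE : En T Λ a e)
    {ε : ℝ} (hε : 0 < ε) : ∃ C : ℝ, 0 < C ∧ ∀ P : ℂ → Mat N, HolP (ball 0 1) P →
      (∀ w ∈ ball (0 : ℂ) 1, P w ∈ T) → ∀ D : ℝ, 0 ≤ D → D ≤ 1 →
      (∀ M ∈ Xi e, D ≤ ‖P 0 - M‖) → ‖fderiv ℝ P 0‖ * D ^ ε ≤ C := by
  obtain ⟨C1, hC1, hgrad⟩ := gradient_l hT hf
  obtain ⟨k0, hk0⟩ := main_estimate hT hf hG hE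
  set k : ℕ := max k0 ⌈(r : ℝ) / ε⌉₊ with hk
  obtain ⟨C2, hC2, hmain⟩ := hk0 k (le_max_left _ _)
  have hqpos : 0 < (qk k : ℝ) := by
    have : 0 < qk k := by
      unfold qk
      positivity
    exact_mod_cast this
  have hrq : (r : ℝ) * ((qk k : ℕ) : ℝ)⁻¹ ≤ ε := by
    rw [← div_eq_mul_inv, div_le_iff₀ hqpos]
    have h1 : (r : ℝ) / ε ≤ (qk k : ℝ) := by
      have h2 : (r : ℝ) / ε ≤ (k : ℝ) :=
        (Nat.le_ceil _).trans (by exact_mod_cast le_max_right _ _)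
      have h3 : (k : ℝ) ≤ (qk k : ℝ) := by exact_mod_cast qk_ge k
      linarith
    rw [div_le_iff₀ hε] at h1
    linarith
  refine ⟨C1 * (C2 * 2 ^ ε + 1), by positivity, fun P hP hPT D hD0 hD1 hDM => ?_⟩
  obtain ⟨φ, hφ, hov⟩ := hT.exists_lift_ball hP hPT
  have hDsc : Dsc T Λ a 0 1 P φ := ⟨hP, hPT, hφ, hov⟩
  have h1 := hgrad P φ 0 1 one_pos hDsc
  have h2 := hmain P φ 0 1 one_pos hDsc
  rw [div_one] at h1 h2
  set s := sg φ 0 with hs
  have hs0 : 0 ≤ s := sg_nn φ 0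
  set q : ℝ := ((qk k : ℕ) : ℝ)⁻¹ with hq
  have hq0 : 0 < q := inv_pos.2 hqpos
  have h3 : D ^ r ≤ Pr e P φ 0 := by
    unfold Pr
    calc D ^ r = ∏ _j : Fin r, D := by rw [Finset.prod_const, Finset.card_univ, Fintype.card_fin]
      _ ≤ _ := Finset.prod_le_prod (fun _ _ => hD0) fun j _ => hDM _ ⟨j, φ 0, rfl⟩
  have h4 : D ^ ε ≤ 2 ^ ε * (Pr e P φ 0 / 2 ^ r) ^ q := by
    have e1 : D ^ ε ≤ D ^ ((r : ℝ) * q) :=
      Real.rpow_le_rpow_of_exponent_ge_of_imp hD0 hD1 hrq (fun h0 h00 => by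
        exact absurd h00 hε.ne')
    have e2 : D ^ ((r : ℝ) * q) = 2 ^ ((r : ℝ) * q) * (D ^ r / 2 ^ r) ^ q := by
      rw [← div_pow, Real.rpow_mul hD0, Real.rpow_natCast,
        Real.rpow_mul (by norm_num : (0 : ℝ) ≤ 2), Real.rpow_natCast,
        ← Real.mul_rpow (by positivity) (by positivity), div_pow,
        mul_div_cancel₀ _ (by positivity)]
    have e3 : (2 : ℝ) ^ ((r : ℝ) * q) ≤ 2 ^ ε :=
      Real.rpow_le_rpow_of_exponent_le (by norm_num) hrq
    have e4 : (D ^ r / 2 ^ r) ^ q ≤ (Pr e P φ 0 / 2 ^ r) ^ q := by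
      apply Real.rpow_le_rpow (by positivity) _ hq0.le
      exact div_le_div_of_nonneg_right h3 (by positivity)
    rw [e2] at e1
    refine e1.trans ?_
    exact mul_le_mul e3 e4 (by positivity) (by positivity)
  have h5 : D ^ ε ≤ 1 := Real.rpow_le_one hD0 hD1 hε.le
  have hDε : 0 ≤ D ^ ε := Real.rpow_nonneg hD0 _
  have hp : 0 ≤ (Pr e P φ 0 / 2 ^ r) ^ q :=
    Real.rpow_nonneg (div_nonneg (Pr_nonneg e P φ 0) (by positivity)) _
  calc ‖fderiv ℝ P 0‖ * D ^ ε ≤ (C1 * max s 1) * D ^ ε := mul_le_mul_of_nonneg_right h1 hDε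
    _ ≤ (C1 * (s + 1)) * D ^ ε := by
        have : max s 1 ≤ s + 1 := max_le (by linarith) (by linarith)
        gcongr
    _ = C1 * (s * D ^ ε + D ^ ε) := by ring
    _ ≤ C1 * (s * (2 ^ ε * (Pr e P φ 0 / 2 ^ r) ^ q) + 1) := by gcongr
    _ = C1 * ((s * (Pr e P φ 0 / 2 ^ r) ^ q) * 2 ^ ε + 1) := by ring
    _ ≤ C1 * (C2 * 2 ^ ε + 1) := by gcongr

/-- paths and truncated distances -/
theorem path_le {E : Type*} [NormedAddCommGroup E] [NormedSpace ℝ E] {H H' : ℝ → E} {M0 : E}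
    {ρ L : ℝ} (hL : 0 ≤ L) (hH : ∀ u ∈ Icc (0 : ℝ) 1, HasDerivAt H (H' u) u)
    (hb : ∀ u ∈ Icc (0 : ℝ) 1, ‖H u - M0‖ ≤ ρ → ‖H' u‖ ≤ L) :
    min ‖H 1 - M0‖ ρ ≤ min ‖H 0 - M0‖ ρ + L := by
  set g : ℝ → ℝ := fun u => min ‖H u - M0‖ ρ with hg
  have hcH : ∀ u ∈ Icc (0 : ℝ) 1, ContinuousAt H u := fun u hu => (hH u hu).continuousAt
  have hcg : ∀ u ∈ Icc (0 : ℝ) 1, ContinuousAt g u := fun u hu =>
    ((hcH u hu).sub continuousAt_const).norm.min continuousAt_const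
  have hlip : ∀ u v, g v - g u ≤ ‖H v - H u‖ := by
    intro u v
    have h1 : ‖H v - M0‖ ≤ ‖H v - H u‖ + ‖H u - M0‖ := by
      have := norm_add_le (H v - H u) (H u - M0)
      rwa [sub_add_sub_cancel] at this
    rw [hg]
    simp only
    rcases le_total ‖H u - M0‖ ρ with h2 | h2
    · rw [min_eq_left h2]
      have := min_le_left ‖H v - M0‖ ρ
      linarith
    · rw [min_eq_right h2]
      have := min_le_right ‖H v - M0‖ ρ
      have := norm_nonneg (H v - H u)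
      linarith
  have h1 := image_le_of_liminf_slope_right_le_deriv_boundary (f := g) (a := 0) (b := 1)
    (fun u hu => (hcg u hu).continuousWithinAt) (B := fun u => g 0 + L * u) (B' := fun _ => L)
    (by simp) (by fun_prop) (fun u _ => by
      have := ((hasDerivAt_id u).const_mul L).const_add (g 0)
      rw [mul_one] at this
      exact this.hasDerivWithinAt) (fun u hu s hs => by
      apply Eventually.frequently
      have hu' : u ∈ Icc (0 : ℝ) 1 := ⟨hu.1, hu.2.le⟩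
      rcases le_or_gt ‖H u - M0‖ ρ with h2 | h2
      · have h3 := (hH u hu').hasDerivWithinAt (s := Ioi u)
        have h4 := h3.limsup_norm_slope_le ((hb u hu' h2).trans_lt hs)
        filter_upwards [h4, self_mem_nhdsWithin] with v hv hvu
        have hvu' : 0 < v - u := sub_pos.2 hvu
        rw [Real.norm_of_nonneg hvu'.le] at hv
        rw [slope_def_field, div_lt_iff₀ hvu']
        rw [inv_mul_lt_iff₀ hvu'] at hv
        linarith [hlip u v]
      · have h3 : ∀ᶠ v in 𝓝 u, ρ < ‖H v - M0‖ :=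
          ((hcH u hu').sub continuousAt_const).norm.eventually_const_lt h2
        filter_upwards [mem_nhdsWithin_of_mem_nhds h3, self_mem_nhdsWithin] with v hv hvu
        have e1 : g v = ρ := min_eq_right hv.le
        have e2 : g u = ρ := min_eq_right h2.le
        rw [slope_def_field, e1, e2, sub_self, zero_div]
        linarith)
  have h2 := h1 (show (1 : ℝ) ∈ Icc (0 : ℝ) 1 from ⟨zero_le_one, le_rfl⟩)
  simp only [mul_one] at h2
  exact h2

/-- the estimate of the truncated distance along a disc -/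
theorem disc_trunc (hT : TD T Λ a) (hf : Fib T Λ a) (hG : GD T Λ a η) (hE : En T Λ a e)
    {ε : ℝ} (hε : 0 < ε) : ∃ C : ℝ, 0 < C ∧ ∀ (D : ℝ), 0 < D → D ≤ 1 → ∀ M0 : Mat N,
      (∀ M ∈ Xi e, D ≤ ‖M0 - M‖) → ∀ P : ℂ → Mat N, HolP (ball 0 1) P →
      (∀ w ∈ ball (0 : ℂ) 1, P w ∈ T) → ∀ s ∈ ball (0 : ℂ) 1, ∀ t ∈ ball (0 : ℂ) 1,
      dist (min ‖P t - M0‖ (D / 2)) (min ‖P s - M0‖ (D / 2)) ≤
        C / D ^ ε * Pool.Agent.Helper206.cost s t := by
  obtain ⟨C, hC, hinf⟩ := inf_estimate hT hf hG hE hε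
  refine ⟨2 * C * 2 ^ ε + 1, by positivity, fun D hD0 hD1 M0 hM0 P hP hPT s hs t ht => ?_⟩
  obtain ⟨ζ, hζ, hζn, hζt⟩ := Pool.Agent.Helper206.exists_mob_eq hs ht
  have hmap : MapsTo (Pool.Agent.Helper206.mob s) (ball 0 1) (ball 0 1) := fun z hz =>
    Pool.Agent.Helper206.mob_mem hs hz
  set h : ℂ → Mat N := fun z => P (Pool.Agent.Helper206.mob s z) with hh
  have hH : HolP (ball 0 1) h :=
    holP_comp_l hP (Pool.Agent.Helper206.mob_differentiableOn hs) isOpen_ball hmap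
  have hHT : ∀ z ∈ ball (0 : ℂ) 1, h z ∈ T := fun z hz => hPT _ (hmap hz)
  have hdh : ∀ z ∈ ball (0 : ℂ) 1, DifferentiableAt ℝ h z := fun z hz => hH.differentiableAt hz
  have h0 : h 0 = P s := by rw [hh]; simp only [Pool.Agent.Helper206.mob_zero]
  have h1 : h ζ = P t := by rw [hh]; simp only [hζt]
  rw [← h0, ← h1]
  clear_value h
  have hDε : 0 < D ^ ε := Real.rpow_pos_of_pos hD0 _
  have hDε1 : D ^ ε ≤ 1 := Real.rpow_le_one hD0.le hD1 hε.le
  have hcost : ‖ζ‖ ≤ Pool.Agent.Helper206.cost s t := by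
    rw [hζn]; exact Pool.Agent.Helper206.phd_le_cost hs ht
  suffices dist (min ‖h ζ - M0‖ (D / 2)) (min ‖h 0 - M0‖ (D / 2)) ≤
      (2 * C * 2 ^ ε + 1) / D ^ ε * ‖ζ‖ from
    this.trans (mul_le_mul_of_nonneg_left hcost (by positivity))
  have hK1 : 1 ≤ (2 * C * 2 ^ ε + 1) / D ^ ε := by
    rw [le_div_iff₀ hDε]
    have : 0 ≤ 2 * C * 2 ^ ε := by positivity
    linarith
  rcases le_or_gt ‖ζ‖ (1 / 2) with hle | hgt
  · set L : ℝ := 2 * C * 2 ^ ε / D ^ ε * ‖ζ‖ with hL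
    have hL0 : 0 ≤ L := by positivity
    have hder : ∀ z ∈ closedBall (0 : ℂ) (1 / 2), ‖h z - M0‖ ≤ D / 2 →
        ‖fderiv ℝ h z‖ ≤ 2 * C * 2 ^ ε / D ^ ε := by
      intro z hz hzM
      have hz' : ‖z‖ ≤ 1 / 2 := mem_closedBall_zero_iff.1 hz
      have hz1 : z ∈ ball (0 : ℂ) 1 := mem_ball_zero_iff.2 (by linarith)
      have hmaps : MapsTo (fun w : ℂ => z + ((1 / 2 : ℝ) : ℂ) * w) (ball 0 1) (ball 0 1) := by
        intro w hw
        rw [mem_ball_zero_iff] at hw ⊢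
        refine lt_of_le_of_lt (norm_add_le _ _) ?_
        rw [norm_mul, Complex.norm_real, Real.norm_of_nonneg (by norm_num)]
        linarith
      have h2 := hinf (fun w => h (z + ((1 / 2 : ℝ) : ℂ) * w))
        (holP_comp_l hH (by fun_prop) isOpen_ball hmaps) (fun w hw => hHT _ (hmaps hw)) (D / 2)
        (by positivity) (by linarith) (by
          intro M hM
          simp only [mul_zero, add_zero]
          have h3 := hM0 M hM
          have h4 : ‖M0 - M‖ ≤ ‖h z - M0‖ + ‖h z - M‖ := by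
            have := norm_sub_le (h z - M) (h z - M0)
            rw [sub_sub_sub_cancel_left] at this
            linarith
          linarith)
      have h3 : ‖fderiv ℝ (fun w => h (z + ((1 / 2 : ℝ) : ℂ) * w)) 0‖ =
          (1 / 2) * ‖fderiv ℝ h z‖ := by
        have e1 : aff z (1 / 2) 0 = z := by simp [aff]
        have := norm_fderiv_aff (Ψ := h) (a := z) (ρ := 1 / 2) (z := 0) (by norm_num)
          (by rw [e1]; exact hH.differentiableAt hz1)
        rw [e1] at this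
        rw [← this]
        congr 1
      rw [h3] at h2
      have h4 : (D / 2) ^ ε = D ^ ε / 2 ^ ε := Real.div_rpow hD0.le (by norm_num) _
      rw [h4] at h2
      rw [le_div_iff₀ hDε]
      have h5 : 1 / 2 * ‖fderiv ℝ h z‖ * (D ^ ε / 2 ^ ε) * (2 * 2 ^ ε) ≤ C * (2 * 2 ^ ε) :=
        mul_le_mul_of_nonneg_right h2 (by positivity)
      have h6 : 1 / 2 * ‖fderiv ℝ h z‖ * (D ^ ε / 2 ^ ε) * (2 * 2 ^ ε) =
          ‖fderiv ℝ h z‖ * D ^ ε := by
        field_simp
      linarith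
    have hpath : ∀ z ∈ closedBall (0 : ℂ) (1 / 2), ∀ w ∈ closedBall (0 : ℂ) (1 / 2),
        ‖w - z‖ = ‖ζ‖ → min ‖h w - M0‖ (D / 2) ≤ min ‖h z - M0‖ (D / 2) + L := by
      intro z hz w hw hzw
      have hseg : ∀ u ∈ Icc (0 : ℝ) 1, z + (u : ℂ) * (w - z) ∈ closedBall (0 : ℂ) (1 / 2) := by
        intro u hu
        have := (convex_closedBall (0 : ℂ) (1 / 2)).add_smul_sub_mem hz hw hu
        rwa [Complex.real_smul] at this
      have h2 := path_le (H := fun u : ℝ => h (z + (u : ℂ) * (w - z)))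
        (H' := fun u : ℝ => fderiv ℝ h (z + (u : ℂ) * (w - z)) (w - z)) (M0 := M0) (ρ := D / 2)
        hL0 (fun u hu => by
          have e1 : HasDerivAt (fun u : ℝ => z + (u : ℂ) * (w - z)) (w - z) u := by
            have := ((Complex.ofRealCLM.hasDerivAt (x := u)).mul_const (w - z)).const_add z
            simpa using this
          have e2 : HasFDerivAt h (fderiv ℝ h (z + (u : ℂ) * (w - z))) (z + (u : ℂ) * (w - z)) :=
            (hdh _ (closedBall_subset_ball (by norm_num) (hseg u hu))).hasFDerivAt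
          exact HasFDerivAt.comp_hasDerivAt u e2 e1)
        (fun u hu hub => by
          refine (ContinuousLinearMap.le_opNorm _ _).trans ?_
          rw [hzw, hL]
          exact mul_le_mul_of_nonneg_right (hder _ (hseg u hu) hub) (norm_nonneg _))
      simp only [Complex.ofReal_one, one_mul, Complex.ofReal_zero, zero_mul, add_zero,
        add_sub_cancel] at h2
      exact h2
    have hζc : ζ ∈ closedBall (0 : ℂ) (1 / 2) := mem_closedBall_zero_iff.2 hle
    have h0c : (0 : ℂ) ∈ closedBall (0 : ℂ) (1 / 2) := mem_closedBall_self (by norm_num)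
    have e1 := hpath 0 h0c ζ hζc (by rw [sub_zero])
    have e2 := hpath ζ hζc 0 h0c (by rw [zero_sub, norm_neg])
    have e3 : L ≤ (2 * C * 2 ^ ε + 1) / D ^ ε * ‖ζ‖ := by
      rw [hL]
      gcongr
      linarith
    rw [Real.dist_eq, abs_le]
    constructor <;> linarith
  · have h2 : ∀ M : Mat N, 0 ≤ min ‖M - M0‖ (D / 2) := fun M => le_min (norm_nonneg _) (by positivity)
    have h3 : ∀ M : Mat N, min ‖M - M0‖ (D / 2) ≤ 1 / 2 := fun M =>
      (min_le_right _ _).trans (by linarith)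
    have h4 : 1 / 2 ≤ (2 * C * 2 ^ ε + 1) / D ^ ε * ‖ζ‖ := by
      nlinarith
    rw [Real.dist_eq, abs_le]
    constructor
    · linarith [h2 (h ζ), h3 (h 0)]
    · linarith [h2 (h 0), h3 (h ζ)]

end Pool.Agent.N154.GG
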