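import Pool.Agent.N154.DD.Lim

/-! Periodic curves on a half plane, and the lemma of Kwack. -/

set_option autoImplicit false

open Filter Topology Metric Set MeasureTheory

namespace Pool.Agent.N154.GG

open Pool.Agent.Y190.OP Pool.Agent.N155

variable {N : ℕ} {T : Set (Mat N)}

/-- the period -/
noncomputable def tpi : ℂ := 2 * Real.pi * Complex.I

theorem tpi_re : tpi.re = 0 := by simp [tpi]

theorem tpi_im : tpi.im = 2 * Real.pi := by simp [tpi]

/-- the half plane -/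
def HP : Set ℂ := {z | z.re < 0}

theorem isOpen_HP : IsOpen HP := isOpen_lt Complex.continuous_re continuous_const

theorem convex_HP : Convex ℝ HP := convex_halfSpace_re_lt (0 : ℝ)

theorem add_tpi_re (z : ℂ) (n : ℤ) : (z + n * tpi).re = z.re := by
  rw [Complex.add_re, Complex.mul_re, tpi_re, Complex.intCast_im]
  ring

theorem per_int {β : Type*} {F : ℂ → β} (h : ∀ z ∈ HP, F (z + tpi) = F z) {z : ℂ} (hz : z ∈ HP)
    (n : ℤ) : F (z + n * tpi) = F z := by
  have hnat : ∀ (m : ℕ) (z : ℂ), z ∈ HP → F (z + m * tpi) = F z := by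
    intro m
    induction m with
    | zero =>
      intro z _
      simp
    | succ m ih =>
      intro z hz
      have h1 : z + m * tpi ∈ HP := by
        change (z + (m : ℂ) * tpi).re < 0
        have := add_tpi_re z m
        rw [Int.cast_natCast] at this
        rw [this]
        exact hz
      have h2 : z + ((m + 1 : ℕ) : ℂ) * tpi = z + m * tpi + tpi := by
        push_cast
        ring
      rw [h2, h _ h1, ih z hz]
  obtain ⟨m, rfl | rfl⟩ := n.eq_nat_or_neg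
  · have := hnat m z hz
    simpa using this
  · have h1 : z + ((-(m : ℤ) : ℤ) : ℂ) * tpi ∈ HP := by
      change (z + ((-(m : ℤ) : ℤ) : ℂ) * tpi).re < 0
      rw [add_tpi_re]
      exact hz
    have h2 := hnat m _ h1
    rw [← h2]
    congr 1
    push_cast
    ring

theorem exists_rep (z : ℂ) : ∃ y ∈ Icc (0 : ℝ) (2 * Real.pi), ∃ n : ℤ,
    z = ((z.re : ℂ) + y * Complex.I) + n * tpi := by
  have hpi : 0 < 2 * Real.pi := Real.two_pi_pos
  refine ⟨z.im - ⌊z.im / (2 * Real.pi)⌋ * (2 * Real.pi), ⟨?_, ?_⟩, ⌊z.im / (2 * Real.pi)⌋, ?_⟩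
  · have := Int.floor_le (z.im / (2 * Real.pi))
    rw [le_div_iff₀ hpi] at this
    linarith
  · have := (Int.lt_floor_add_one (z.im / (2 * Real.pi))).le
    rw [div_le_iff₀ hpi] at this
    linarith
  · apply Complex.ext
    · simp [tpi]
    · simp [tpi]

/-- the means over vertical periods -/
theorem mean_eq {E : Type*} [NormedAddCommGroup E] [NormedSpace ℂ E] [CompleteSpace E]
    {g : ℂ → E} {x1 x2 : ℝ} (h12 : x1 ≤ x2)
    (hd : ∀ z : ℂ, x1 ≤ z.re → z.re ≤ x2 → DifferentiableAt ℂ g z)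
    (hp : ∀ x : ℝ, x1 ≤ x → x ≤ x2 → g ((x : ℂ) + tpi) = g x) :
    ∫ y in (0 : ℝ)..(2 * Real.pi), g ((x1 : ℂ) + y * Complex.I) =
      ∫ y in (0 : ℝ)..(2 * Real.pi), g ((x2 : ℂ) + y * Complex.I) := by
  have h1 := Complex.integral_boundary_rect_eq_zero_of_differentiableOn g (x1 : ℂ)
    ((x2 : ℂ) + (2 * Real.pi : ℝ) * Complex.I) (fun z hz => by
      rw [Complex.mem_reProdIm] at hz
      have e1 := hz.1
      simp only [Complex.ofReal_re, Complex.add_re, Complex.mul_re, Complex.I_re, mul_zero,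
        Complex.ofReal_im, Complex.I_im, mul_one, sub_zero, add_zero] at e1
      rw [uIcc_of_le h12] at e1
      exact (hd z e1.1 e1.2).differentiableWithinAt)
  simp only [Complex.ofReal_re, Complex.add_re, Complex.mul_re, Complex.I_re, mul_zero,
    Complex.ofReal_im, Complex.I_im, mul_one, sub_zero, add_zero, Complex.add_im, Complex.mul_im,
    zero_add, Complex.ofReal_zero, zero_mul] at h1
  have h2 : ∫ x in x1..x2, g ((x : ℂ) + (2 * Real.pi : ℝ) * Complex.I) = ∫ x in x1..x2, g x := by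
    apply intervalIntegral.integral_congr
    intro x hx
    rw [uIcc_of_le h12] at hx
    have := hp x hx.1 hx.2
    simp only
    rw [← this]
    congr 1
    unfold tpi
    push_cast
    ring
  rw [h2, sub_self, zero_add, ← smul_sub, smul_eq_zero] at h1
  exact (sub_eq_zero.1 (h1.resolve_left Complex.I_ne_zero)).symm

/-- the oscillation on vertical lines -/
theorem osc_small {P : ℂ → Mat N} (hP : HolP HP P)
    (hgr : ∀ ε : ℝ, 0 < ε → ∃ A : ℝ, 0 < A ∧ ∀ z : ℂ, z.re ≤ -A → ‖fderiv ℝ P z‖ ≤ ε) {ε : ℝ}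
    (hε : 0 < ε) : ∃ A : ℝ, 0 < A ∧ ∀ x : ℝ, x ≤ -A → ∀ y ∈ Icc (0 : ℝ) (2 * Real.pi),
      ∀ y' ∈ Icc (0 : ℝ) (2 * Real.pi),
        ‖P ((x : ℂ) + y * Complex.I) - P ((x : ℂ) + y' * Complex.I)‖ ≤ ε := by
  have hpi : 0 < 2 * Real.pi := Real.two_pi_pos
  obtain ⟨A, hA, hA'⟩ := hgr (ε / (2 * Real.pi)) (by positivity)
  refine ⟨A, hA, fun x hx y hy y' hy' => ?_⟩
  have h1 := (convex_halfSpace_re_le (-A)).norm_image_sub_le_of_norm_fderiv_le (𝕜 := ℝ) (f := P)
    (fun z (hz : z.re ≤ -A) => hP.differentiableAt (show z.re < 0 by linarith))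
    (fun z hz => hA' z hz) (x := (x : ℂ) + y' * Complex.I) (y := (x : ℂ) + y * Complex.I)
    (show ((x : ℂ) + y' * Complex.I).re ≤ -A by simpa using hx)
    (show ((x : ℂ) + y * Complex.I).re ≤ -A by simpa using hx)
  refine h1.trans ?_
  have h2 : (x : ℂ) + y * Complex.I - ((x : ℂ) + y' * Complex.I) =
      ((y - y' : ℝ) : ℂ) * Complex.I := by
    push_cast
    ring
  rw [h2, norm_mul, Complex.norm_I, mul_one, Complex.norm_real, Real.norm_eq_abs]
  have h3 : |y - y'| ≤ 2 * Real.pi := by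
    rw [abs_le]
    constructor <;> linarith [hy.1, hy.2, hy'.1, hy'.2]
  calc ε / (2 * Real.pi) * |y - y'| ≤ ε / (2 * Real.pi) * (2 * Real.pi) :=
        mul_le_mul_of_nonneg_left h3 (by positivity)
    _ = ε := by field_simp

/-- **The lemma of Kwack** -/
theorem kwack (hT : IsCompact T) (hTP : T ⊆ PM) {P : ℂ → Mat N} (hP : HolP HP P)
    (hPT : ∀ z ∈ HP, P z ∈ T) (hper : ∀ z ∈ HP, P (z + tpi) = P z)
    (hgr : ∀ ε : ℝ, 0 < ε → ∃ A : ℝ, 0 < A ∧ ∀ z : ℂ, z.re ≤ -A → ‖fderiv ℝ P z‖ ≤ ε) :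
    ∃ M0 ∈ T, ∀ ε : ℝ, 0 < ε → ∃ A : ℝ, 0 < A ∧ ∀ z : ℂ, z.re ≤ -A → ‖P z - M0‖ ≤ ε := by
  have hpi : 0 < 2 * Real.pi := Real.two_pi_pos
  -- a cluster point
  obtain ⟨M0, hM0, hcl⟩ := hT.exists_mapClusterPt (u := fun x : ℝ => P (x : ℂ))
    (hf := show Tendsto (fun x : ℝ => P (x : ℂ)) atBot (𝓟 T) by
      rw [tendsto_principal]
      filter_upwards [Iio_mem_atBot (0 : ℝ)] with x hx
      exact hPT _ (by simpa [HP] using hx))
  have hfreq : ∀ ε : ℝ, 0 < ε → ∀ A : ℝ, ∃ x : ℝ, x ≤ -A ∧ ‖P (x : ℂ) - M0‖ < ε := by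
    intro ε hε A
    have h1 := (mapClusterPt_iff_frequently.1 hcl) _ (ball_mem_nhds M0 hε)
    obtain ⟨x, hx1, hx2⟩ := (h1.and_eventually (Iic_mem_atBot (-A))).exists
    refine ⟨x, hx2, ?_⟩
    rwa [mem_ball, dist_eq_norm] at hx1
  refine ⟨M0, hM0, fun ε hε => ?_⟩
  obtain ⟨i, hi⟩ := PM.exists_diag (hTP hM0)
  -- the ball
  have hev : ∀ᶠ M : Mat N in 𝓝 M0, M i i ≠ 0 :=
    (continuous_apply_apply i i).continuousAt.eventually_ne hi
  obtain ⟨δ1, hδ1, hδ1'⟩ := Metric.nhds_basis_closedBall.eventually_iff.1 hev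
  set δ : ℝ := min δ1 ε with hδ
  have hδ0 : 0 < δ := lt_min hδ1 hε
  have hii : ∀ M ∈ closedBall M0 δ, M i i ≠ 0 := fun M hM =>
    hδ1' (closedBall_subset_closedBall (min_le_left _ _) hM)
  set K : Set (Mat N) := T ∩ closedBall M0 δ with hK
  have hKc : IsCompact K := hT.inter_right isClosed_closedBall
  have hchc : ContinuousOn (chart i) K := fun M hM =>
    (continuousAt_chart (hii M hM.2)).continuousWithinAt
  set K' : Set (Mat N) := K ∩ {M | ‖M - M0‖ = δ} with hK'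
  have hK'c : IsCompact K' := hKc.inter_right (isClosed_eq (by fun_prop) continuous_const)
  have hμ : ∃ μ : ℝ, 0 < μ ∧ ∀ M ∈ K', μ ≤ ‖chart i M - chart i M0‖ := by
    rcases K'.eq_empty_or_nonempty with h0 | h0
    · exact ⟨1, one_pos, fun M hM => by rw [h0] at hM; exact absurd hM (notMem_empty _)⟩
    · obtain ⟨M1, hM1, hM1'⟩ := hK'c.exists_isMinOn h0
        (f := fun M => ‖chart i M - chart i M0‖)
        ((hchc.mono inter_subset_left).sub continuousOn_const).norm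
      refine ⟨_, ?_, fun M hM => hM1' hM⟩
      rw [norm_pos_iff, sub_ne_zero]
      intro heq
      have h1 : M1 = M0 := by
        rw [← PM.Phi_chart (hTP hM1.1.1) (hii M1 hM1.1.2), heq, PM.Phi_chart (hTP hM0) hi]
      have h2 : ‖M1 - M0‖ = δ := hM1.2
      rw [h1, sub_self, norm_zero] at h2
      exact hδ0.ne h2
  obtain ⟨μ, hμ0, hμ'⟩ := hμ
  have huc := hKc.uniformContinuousOn_of_continuous hchc
  obtain ⟨τ1, hτ1, hτ1'⟩ := Metric.uniformContinuousOn_iff.1 huc (μ / 4) (by positivity)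
  set τ : ℝ := min τ1 (δ / 4) with hτ
  have hτ0 : 0 < τ := lt_min hτ1 (by positivity)
  have hch : ∀ M ∈ K, ∀ M' ∈ K, ‖M - M'‖ < τ → ‖chart i M - chart i M'‖ ≤ μ / 4 := by
    intro M hM M' hM' hlt
    have := hτ1' M hM M' hM' (by rw [dist_eq_norm]; exact hlt.trans_le (min_le_left _ _))
    rw [dist_eq_norm] at this
    exact this.le
  obtain ⟨A, hA0, hA⟩ := osc_small hP hgr (ε := τ / 2) (by positivity)
  obtain ⟨x1, hx1A, hx1⟩ := hfreq (τ / 2) (by positivity) A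
  have hx10 : x1 < 0 := by linarith
  have hτδ : τ ≤ δ / 4 := min_le_right _ _
  have h0mem : (0 : ℝ) ∈ Icc (0 : ℝ) (2 * Real.pi) := ⟨le_rfl, hpi.le⟩
  have hline : ∀ y ∈ Icc (0 : ℝ) (2 * Real.pi), ‖P ((x1 : ℂ) + y * Complex.I) - M0‖ < τ := by
    intro y hy
    have h1 := hA x1 hx1A y hy 0 h0mem
    rw [Complex.ofReal_zero, zero_mul, add_zero] at h1
    have h2 := norm_add_le (P ((x1 : ℂ) + y * Complex.I) - P (x1 : ℂ)) (P (x1 : ℂ) - M0)
    rw [sub_add_sub_cancel] at h2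
    linarith
  have hre : ∀ (x y : ℝ), ((x : ℂ) + y * Complex.I).re = x := by
    intro x y
    simp
  have hmemHP : ∀ (x y : ℝ), x < 0 → (x : ℂ) + y * Complex.I ∈ HP := by
    intro x y hx
    change ((x : ℂ) + y * Complex.I).re < 0
    rw [hre]
    exact hx
  have hcont : ∀ (x y : ℝ), x < 0 → ContinuousAt (fun p : ℝ × ℝ => P ((p.1 : ℂ) + p.2 * Complex.I))
      (x, y) := by
    intro x y hx
    have h1 : ContinuousAt P ((x : ℂ) + y * Complex.I) := hP.continuousAt (hmemHP x y hx)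
    have h2 : ContinuousAt (fun p : ℝ × ℝ => (p.1 : ℂ) + p.2 * Complex.I) (x, y) := by fun_prop
    exact ContinuousAt.comp (f := fun p : ℝ × ℝ => (p.1 : ℂ) + p.2 * Complex.I) h1 h2
  have hrep : ∀ z ∈ HP, ∃ y ∈ Icc (0 : ℝ) (2 * Real.pi), P z = P ((z.re : ℂ) + y * Complex.I) := by
    intro z hz
    obtain ⟨y, hy, n, hn⟩ := exists_rep z
    refine ⟨y, hy, ?_⟩
    have h1 := per_int hper (hmemHP z.re y hz) n
    rw [← hn] at h1
    exact h1
  refine ⟨-x1, by linarith, ?_⟩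
  rw [neg_neg]
  by_contra hcon
  push Not at hcon
  obtain ⟨z0, hz0, hz0'⟩ := hcon
  have hz0HP : z0 ∈ HP := lt_of_le_of_lt hz0 hx10
  obtain ⟨y0, hy0, hy0'⟩ := hrep z0 hz0HP
  rw [hy0'] at hz0'
  -- the first exit
  set S : Set (ℝ × ℝ) := (Icc z0.re x1 ×ˢ Icc (0 : ℝ) (2 * Real.pi)) ∩
    {p | δ ≤ ‖P ((p.1 : ℂ) + p.2 * Complex.I) - M0‖} with hS
  have hSc : IsCompact S := by
    have hc0 : IsCompact (Icc z0.re x1 ×ˢ Icc (0 : ℝ) (2 * Real.pi)) :=
      isCompact_Icc.prod isCompact_Icc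
    have h1 : ContinuousOn (fun p : ℝ × ℝ => ‖P ((p.1 : ℂ) + p.2 * Complex.I) - M0‖)
        (Icc z0.re x1 ×ˢ Icc (0 : ℝ) (2 * Real.pi)) := by
      intro p hp
      exact ((hcont p.1 p.2 (lt_of_le_of_lt hp.1.2 hx10)).sub
        continuousAt_const).norm.continuousWithinAt
    exact hc0.of_isClosed_subset (h1.preimage_isClosed_of_isClosed hc0.isClosed isClosed_Ici)
      inter_subset_left
  have hSne : S.Nonempty := by
    refine ⟨(z0.re, y0), ⟨⟨le_rfl, hz0⟩, hy0⟩, ?_⟩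
    exact ((min_le_right _ _).trans_lt hz0').le
  obtain ⟨⟨xs, ys⟩, hps, hmax⟩ := hSc.exists_isMaxOn hSne continuous_fst.continuousOn
  have hxs1 : xs ≤ x1 := hps.1.1.2
  have hxs0 : xs < 0 := lt_of_le_of_lt hxs1 hx10
  have hys : ys ∈ Icc (0 : ℝ) (2 * Real.pi) := hps.1.2
  have hps2 : δ ≤ ‖P ((xs : ℂ) + ys * Complex.I) - M0‖ := hps.2
  have hxslt : xs < x1 := by
    refine lt_of_le_of_ne hxs1 fun h => ?_
    have h1 := hline ys hys
    rw [← h] at h1
    linarith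
  have hin : ∀ x : ℝ, xs < x → x ≤ x1 → ∀ y ∈ Icc (0 : ℝ) (2 * Real.pi),
      ‖P ((x : ℂ) + y * Complex.I) - M0‖ < δ := by
    intro x hx hx' y hy
    by_contra hc
    push Not at hc
    have h1 : (x, y) ∈ S := ⟨⟨⟨(hps.1.1.1).trans hx.le, hx'⟩, hy⟩, hc⟩
    have h2 : x ≤ xs := hmax h1
    linarith
  have hin' : ∀ x : ℝ, xs ≤ x → x ≤ x1 → ∀ y ∈ Icc (0 : ℝ) (2 * Real.pi),
      ‖P ((x : ℂ) + y * Complex.I) - M0‖ ≤ δ := by
    intro x hx hx' y hy
    rcases hx.eq_or_lt with h0 | h0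
    · subst h0
      have h1 : ContinuousAt (fun x : ℝ => ‖P ((x : ℂ) + y * Complex.I) - M0‖) xs := by
        have h2 : ContinuousAt P ((xs : ℂ) + y * Complex.I) := hP.continuousAt (hmemHP xs y hxs0)
        have h3 : ContinuousAt (fun x : ℝ => (x : ℂ) + y * Complex.I) xs := by fun_prop
        exact ((ContinuousAt.comp (f := fun x : ℝ => (x : ℂ) + y * Complex.I) h2 h3).sub
          continuousAt_const).norm
      have h2 : Tendsto (fun x : ℝ => ‖P ((x : ℂ) + y * Complex.I) - M0‖) (𝓝[>] xs)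
          (𝓝 ‖P ((xs : ℂ) + y * Complex.I) - M0‖) := h1.tendsto.mono_left nhdsWithin_le_nhds
      refine le_of_tendsto h2 ?_
      filter_upwards [Ioo_mem_nhdsGT hxslt] with x hx
      exact (hin x hx.1 hx.2.le y hy).le
    · exact (hin x h0 hx' y hy).le
  have hKmem : ∀ z : ℂ, xs ≤ z.re → z.re ≤ x1 → P z ∈ K := by
    intro z hz hz'
    have hzHP : z ∈ HP := lt_of_le_of_lt hz' hx10
    obtain ⟨y, hy, hy'⟩ := hrep z hzHP
    refine ⟨hPT z hzHP, ?_⟩
    rw [mem_closedBall, dist_eq_norm, hy']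
    exact hin' z.re hz hz' y hy
  have hmean := mean_eq (g := fun z => chart i (P z)) hxs1 (fun z hz hz' =>
    hP.diff_chart (lt_of_le_of_lt hz' hx10) (hii _ (hKmem z hz hz').2)) (fun x hx hx' => by
      rw [hper _ (show ((x : ℂ)).re < 0 by rw [Complex.ofReal_re]; linarith)])
  -- the estimates of the means
  have hi2 : 0 ≤ 2 * Real.pi := hpi.le
  have hest : ∀ (x : ℝ) (v : Fin N → ℂ), xs ≤ x → x ≤ x1 →
      (∀ y ∈ Icc (0 : ℝ) (2 * Real.pi), ‖chart i (P ((x : ℂ) + y * Complex.I)) - v‖ ≤ μ / 4) →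
      ‖(∫ y in (0 : ℝ)..(2 * Real.pi), chart i (P ((x : ℂ) + y * Complex.I))) -
        (2 * Real.pi) • v‖ ≤ μ / 4 * (2 * Real.pi) := by
    intro x v hx hx' hv
    have hint : IntervalIntegrable (fun y : ℝ => chart i (P ((x : ℂ) + y * Complex.I))) volume
        0 (2 * Real.pi) := by
      apply ContinuousOn.intervalIntegrable
      intro y _
      have h1 : ContinuousAt (fun z => chart i (P z)) ((x : ℂ) + y * Complex.I) := by
        have h2 := hKmem ((x : ℂ) + y * Complex.I) (by rw [hre]; exact hx) (by rw [hre]; exact hx')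
        exact ContinuousAt.comp (f := P) (continuousAt_chart (hii _ h2.2))
          (hP.continuousAt (hmemHP x y (lt_of_le_of_lt hx' hx10)))
      have h2 : ContinuousAt (fun y : ℝ => (x : ℂ) + y * Complex.I) y := by fun_prop
      exact (ContinuousAt.comp (f := fun y : ℝ => (x : ℂ) + y * Complex.I) h1
        h2).continuousWithinAt
    have h1 : (2 * Real.pi) • v = ∫ _y in (0 : ℝ)..(2 * Real.pi), v := by
      rw [intervalIntegral.integral_const, sub_zero]
    rw [h1, ← intervalIntegral.integral_sub hint (by simp)]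
    have h2 := intervalIntegral.norm_integral_le_of_norm_le_const (a := (0 : ℝ))
      (b := 2 * Real.pi) (f := fun y : ℝ => chart i (P ((x : ℂ) + y * Complex.I)) - v)
      (C := μ / 4) (by
        intro y hy
        rw [uIoc_of_le hi2] at hy
        exact hv y ⟨hy.1.le, hy.2⟩)
    rwa [sub_zero, abs_of_nonneg hi2] at h2
  have hM0K : M0 ∈ K := ⟨hM0, mem_closedBall_self hδ0.le⟩
  have hKline : ∀ x : ℝ, xs ≤ x → x ≤ x1 → ∀ y : ℝ, P ((x : ℂ) + y * Complex.I) ∈ K := by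
    intro x hx hx' y
    exact hKmem _ (by rw [hre]; exact hx) (by rw [hre]; exact hx')
  have h1 := hest x1 (chart i M0) hxs1 le_rfl fun y hy =>
    hch _ (hKline x1 hxs1 le_rfl y) _ hM0K (hline y hy)
  have h2 := hest xs (chart i (P ((xs : ℂ) + ys * Complex.I))) le_rfl hxs1 fun y hy =>
    hch _ (hKline xs le_rfl hxs1 y) _ (hKline xs le_rfl hxs1 ys)
      (lt_of_le_of_lt (hA xs (hxs1.trans hx1A) y hy ys hys) (by linarith))
  rw [hmean] at h2
  have h3 : μ ≤ ‖chart i (P ((xs : ℂ) + ys * Complex.I)) - chart i M0‖ :=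
    hμ' _ ⟨hKline xs le_rfl hxs1 ys, le_antisymm (hin' xs le_rfl hxs1 ys hys) hps2⟩
  have h4 : ‖(2 * Real.pi) • (chart i (P ((xs : ℂ) + ys * Complex.I)) - chart i M0)‖ ≤
      μ / 4 * (2 * Real.pi) + μ / 4 * (2 * Real.pi) := by
    rw [smul_sub]
    refine le_trans ?_ (add_le_add h1 h2)
    refine le_trans (le_of_eq ?_) (norm_sub_le _ _)
    congr 1
    abel
  rw [norm_smul, Real.norm_of_nonneg hi2] at h4
  have h5 : 2 * Real.pi * μ ≤ 2 * Real.pi * ‖chart i (P ((xs : ℂ) + ys * Complex.I)) -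
    chart i M0‖ := mul_le_mul_of_nonneg_left h3 hi2
  nlinarith [mul_pos hpi hμ0]

end Pool.Agent.N154.GG
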