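import Pool.Agent.N154.DD.Sig
import Pool.Agent.N154.GG.Lim

/-! Limits of curves which are defined on larger and larger discs. -/

set_option autoImplicit false

open Filter Topology Metric Set

namespace Pool.Agent.N154.GG

open Pool.Agent.Y190.OP Pool.Agent.N155

variable {N : ℕ} {T : Set (Mat N)} {Λ : AddSubgroup ℂ} {a : Mat N → ℂ}

/-- limits of curves -/
theorem exists_limit_loc_l (hT : IsCompact T) (hTP : T ⊆ PM) {𝓤 : Ultrafilter ℕ}
    {h : ℕ → ℂ → Mat N} (hH : ∀ L : ℝ, ∀ᶠ n in (𝓤 : Filter ℕ), HolP (ball 0 L) (h n))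
    (hm : ∀ L : ℝ, ∀ᶠ n in (𝓤 : Filter ℕ), ∀ z ∈ ball (0 : ℂ) L, h n z ∈ T)
    (hb : ∀ L : ℝ, ∃ K : ℝ, ∀ᶠ n in (𝓤 : Filter ℕ), ∀ z ∈ ball (0 : ℂ) L,
      ‖fderiv ℝ (h n) z‖ ≤ K) :
    ∃ H : ℂ → Mat N, HolP univ H ∧ (∀ z, H z ∈ T) ∧ CConv (𝓤 : Filter ℕ) univ h H ∧
      ∀ z, Tendsto (fun n => fderiv ℝ (h n) z) 𝓤 (𝓝 (fderiv ℝ H z)) := by
  have hlim : ∀ z : ℂ, ∃ y ∈ T, Tendsto (fun n => h n z) 𝓤 (𝓝 y) := by
    intro z
    have h1 : (𝓤.map (fun n => h n z) : Filter (Mat N)) ≤ 𝓟 T := by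
      rw [Ultrafilter.coe_map, le_principal_iff, mem_map]
      filter_upwards [hm (‖z‖ + 1)] with n hn
      exact hn z (mem_ball_zero_iff.2 (by linarith))
    obtain ⟨y, hy, hy'⟩ := hT.ultrafilter_le_nhds (𝓤.map (fun n => h n z)) h1
    exact ⟨y, hy, hy'⟩
  choose H hHmem hHt using hlim
  have hCC : CConv (𝓤 : Filter ℕ) univ h H := by
    intro z _
    obtain ⟨K0, hK0⟩ := hb (‖z‖ + 1)
    set K := max K0 0 with hKdef
    have hK0' : 0 ≤ K := le_max_right _ _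
    have hK : ∀ᶠ n in (𝓤 : Filter ℕ), (∀ x ∈ ball (0 : ℂ) (‖z‖ + 1), ‖fderiv ℝ (h n) x‖ ≤ K) ∧
        HolP (ball 0 (‖z‖ + 1)) (h n) := by
      filter_upwards [hK0, hH (‖z‖ + 1)] with n hn hn'
      exact ⟨fun x hx => (hn x hx).trans (le_max_left _ _), hn'⟩
    rw [Metric.tendsto_nhds]
    intro ε hε
    have h2 := Metric.tendsto_nhds.1 (hHt z) (ε / 2) (by positivity)
    rw [eventually_prod_iff]
    refine ⟨_, h2.and hK, fun w => w ∈ ball z 1 ∧ K * ‖w - z‖ < ε / 2, ?_, ?_⟩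
    · have h5 : Tendsto (fun w => K * ‖w - z‖) (𝓝 z) (𝓝 0) := by
        have : Continuous fun w : ℂ => K * ‖w - z‖ := by fun_prop
        have h6 := this.tendsto z
        simpa using h6
      have h7 : ∀ᶠ w in 𝓝 z, w ∈ ball z 1 := ball_mem_nhds z one_pos
      exact h7.and (h5.eventually_lt_const (by positivity))
    · rintro n ⟨hn1, hn2, hn3⟩ w ⟨hw1, hw2⟩
      have hsub : ball z 1 ⊆ ball (0 : ℂ) (‖z‖ + 1) := by
        intro x hx
        rw [mem_ball, dist_eq_norm] at hx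
        rw [mem_ball_zero_iff]
        have := norm_add_le (x - z) z
        rw [sub_add_cancel] at this
        linarith
      have h6 : ‖h n w - h n z‖ ≤ K * ‖w - z‖ :=
        (convex_ball z 1).norm_image_sub_le_of_norm_fderiv_le
          (fun x hx => hn3.differentiableAt (hsub hx))
          (fun x hx => hn2 x (hsub hx)) (mem_ball_self one_pos) hw1
      calc dist (h n w) (H z) ≤ dist (h n w) (h n z) + dist (h n z) (H z) := dist_triangle _ _ _
        _ < ε / 2 + ε / 2 := by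
            refine add_lt_add ?_ hn1
            rw [dist_eq_norm]
            exact h6.trans_lt hw2
        _ = ε := by ring
  have hl := fun (L : ℝ) => holP_limit (l := (𝓤 : Filter ℕ)) (U := ball 0 L) isOpen_ball
    (fun z _ => hCC z (mem_univ z)) (hH L) (fun z _ => hTP (hHmem z))
  refine ⟨H, fun z _ => (hl (‖z‖ + 1)).1 z (mem_ball_zero_iff.2 (by linarith)), hHmem, hCC,
    fun z => (hl (‖z‖ + 1)).2 z (mem_ball_zero_iff.2 (by linarith))⟩

/-- limits of entire functions -/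
theorem exists_limit_fun_l {𝓤 : Ultrafilter ℕ} {φ : ℕ → ℂ → ℂ}
    (hφ : ∀ L : ℝ, ∀ᶠ n in (𝓤 : Filter ℕ), DifferentiableOn ℂ (φ n) (ball 0 L))
    (h0 : ∃ C : ℝ, ∀ᶠ n in (𝓤 : Filter ℕ), ‖φ n 0‖ ≤ C)
    (hb : ∀ L : ℝ, ∃ K : ℝ, ∀ᶠ n in (𝓤 : Filter ℕ), ∀ z ∈ ball (0 : ℂ) L, ‖deriv (φ n) z‖ ≤ K) :
    ∃ Φ : ℂ → ℂ, Differentiable ℂ Φ ∧ CConv (𝓤 : Filter ℕ) univ φ Φ ∧
      ∀ z, Tendsto (fun n => deriv (φ n) z) 𝓤 (𝓝 (deriv Φ z)) := by
  obtain ⟨C, hC⟩ := h0
  obtain ⟨Φ, hΦ⟩ := ultra_montel (𝓤 := 𝓤) (U := univ) (h := φ) (by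
    intro z _
    obtain ⟨K, hK⟩ := hb (‖z‖ + 1)
    refine ⟨ball 0 (‖z‖ + 1), isOpen_ball.mem_nhds (by rw [mem_ball_zero_iff]; linarith),
      C + |K| * (‖z‖ + 1), ?_⟩
    filter_upwards [hC, hK, hφ (‖z‖ + 1)] with n hn1 hn2 hn3
    refine ⟨hn3, fun w hw => ?_⟩
    have h6 : ‖φ n w - φ n 0‖ ≤ |K| * ‖w - 0‖ :=
      (convex_ball (0 : ℂ) (‖z‖ + 1)).norm_image_sub_le_of_norm_deriv_le
        (fun x hx => hn3.differentiableAt (isOpen_ball.mem_nhds hx))
        (fun x hx => (hn2 x hx).trans (le_abs_self K))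
        (mem_ball_self (by positivity)) hw
    rw [sub_zero] at h6
    have h7 : ‖φ n w‖ ≤ ‖φ n w - φ n 0‖ + ‖φ n 0‖ := by
      have := norm_add_le (φ n w - φ n 0) (φ n 0)
      rwa [sub_add_cancel] at this
    have h8 : |K| * ‖w‖ ≤ |K| * (‖z‖ + 1) :=
      mul_le_mul_of_nonneg_left (mem_ball_zero_iff.1 hw).le (abs_nonneg K)
    linarith)
  have h1 : ∀ z, AnalyticAt ℂ Φ z ∧ Tendsto (fun n => deriv (φ n) z) 𝓤 (𝓝 (deriv Φ z)) :=
    fun z => CConv.an hΦ isOpen_univ (mem_univ z)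
      ⟨ball 0 (‖z‖ + 1), isOpen_ball.mem_nhds (by rw [mem_ball_zero_iff]; linarith),
        hφ (‖z‖ + 1)⟩
  exact ⟨Φ, fun z => (h1 z).1.differentiableAt, hΦ, fun z => (h1 z).2⟩

/-- affine changes of variables -/
theorem holP_comp_l {P : ℂ → Mat N} {U V : Set ℂ} (hP : HolP U P) {f : ℂ → ℂ}
    (hf : DifferentiableOn ℂ f V) (hV : IsOpen V) (hm : MapsTo f V U) :
    HolP V (fun z => P (f z)) := by
  intro z hz
  obtain ⟨W, F, hW, hzW, hd, hF⟩ := hP (f z) (hm hz)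
  exact ⟨V ∩ f ⁻¹' W, fun w => F (f w), hf.continuousOn.isOpen_inter_preimage hV hW, ⟨hz, hzW⟩,
    hd.comp (hf.mono inter_subset_left) (fun w hw => hw.2), fun w hw => hF _ hw.2⟩

/-- the curve `P` lies over the function `φ`, on `U` -/
def OverOn (Λ : AddSubgroup ℂ) (a : Mat N → ℂ) (U : Set ℂ) (P : ℂ → Mat N) (φ : ℂ → ℂ) : Prop :=
  ∀ z ∈ U, φ z - a (P z) ∈ Λ

/-- **Lifting** of curves, on discs -/
theorem TD.exists_lift_ball (h : TD T Λ a) {c : ℂ} {R : ℝ} {P : ℂ → Mat N}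
    (hP : HolP (ball c R) P) (hT : ∀ z ∈ ball c R, P z ∈ T) :
    ∃ φ : ℂ → ℂ, DifferentiableOn ℂ φ (ball c R) ∧ OverOn Λ a (ball c R) P φ := by
  classical
  rcases le_or_gt R 0 with hR | hR
  · rw [ball_eq_empty.2 hR]
    exact ⟨0, differentiableOn_empty, fun z hz => absurd hz (notMem_empty z)⟩
  have hopen : IsOpen (ball c R) := isOpen_ball
  have hcP : ∀ z ∈ ball c R, ContinuousAt P z := fun z hz => hP.continuousAt hz
  choose! O w hO hM hc ha hd using fun z (hz : z ∈ ball c R) => h.loc (P z) (hT z hz)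
  set u : ℂ → ℂ := fun z => deriv (fun t => w z (P t)) z with hu
  have hdiff : ∀ z0 ∈ ball c R, ∀ᶠ z in 𝓝 z0, DifferentiableAt ℂ (fun t => w z0 (P t)) z := by
    intro z0 hz0
    filter_upwards [(hcP z0 hz0).eventually ((hO z0 hz0).mem_nhds (hM z0 hz0)),
      hopen.mem_nhds hz0] with z hz hzB
    exact hd z0 hz0 (ball c R) P z hopen hzB hP hz
  have hloc : ∀ z0 ∈ ball c R, ∀ᶠ z in 𝓝 z0, u z = deriv (fun t => w z0 (P t)) z := by
    intro z0 hz0
    filter_upwards [(hcP z0 hz0).eventually ((hO z0 hz0).mem_nhds (hM z0 hz0)),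
      hopen.mem_nhds hz0] with z hz hzB
    have e1 : DifferentiableAt ℂ (fun t => w z0 (P t)) z :=
      hd z0 hz0 (ball c R) P z hopen hzB hP hz
    have e2 : DifferentiableAt ℂ (fun t => w z (P t)) z :=
      hd z hzB (ball c R) P z hopen hzB hP (hM z hzB)
    have e3 : ∀ᶠ t in 𝓝 z, w z (P t) - w z0 (P t) ∈ Λ := by
      filter_upwards [(hcP z hzB).eventually ((hO z0 hz0).mem_nhds hz),
        (hcP z hzB).eventually ((hO z hzB).mem_nhds (hM z hzB)), hopen.mem_nhds hzB]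
        with t h1 h2 h3
      have := Λ.sub_mem (ha z0 hz0 (P t) ⟨h1, hT t h3⟩) (ha z hzB (P t) ⟨h2, hT t h3⟩)
      have e : w z (P t) - w z0 (P t) = a (P t) - w z0 (P t) - (a (P t) - w z (P t)) := by ring
      rw [e]
      exact this
    have e4 := h.ev_const (e2.continuousAt.sub e1.continuousAt) e3
    have e5 : (fun t => w z (P t)) =ᶠ[𝓝 z]
        fun t => w z0 (P t) + (w z (P z) - w z0 (P z)) := by
      filter_upwards [e4] with t ht
      have ht' : w z (P t) - w z0 (P t) = w z (P z) - w z0 (P z) := ht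
      linear_combination ht'
    change deriv (fun t => w z (P t)) z = _
    rw [e5.deriv_eq, deriv_add_const]
  have hud : DifferentiableOn ℂ u (ball c R) := by
    intro z0 hz0
    have h1 : DifferentiableAt ℂ (deriv (fun t => w z0 (P t))) z0 := by
      have h2 : AnalyticAt ℂ (fun t => w z0 (P t)) z0 := by
        rw [Complex.analyticAt_iff_eventually_differentiableAt]
        exact hdiff z0 hz0
      exact h2.deriv.differentiableAt
    exact (h1.congr_of_eventuallyEq (hloc z0 hz0)).differentiableWithinAt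
  obtain ⟨φ0, hφ0'⟩ := hud.isExactOn_ball
  set D : ℂ → ℂ := fun z => φ0 z - a (P z) with hD
  have key : ∀ z0 ∈ ball c R, ∀ᶠ z in 𝓝 z0, D z - D z0 ∈ Λ := by
    intro z0 hz0
    have h1 : ∀ᶠ z in 𝓝 z0, φ0 z - w z0 (P z) = φ0 z0 - w z0 (P z0) := by
      apply ev_const_of_deriv (f := fun z => φ0 z - w z0 (P z))
      filter_upwards [hdiff z0 hz0, hloc z0 hz0, hopen.mem_nhds hz0] with z h2 h3 h4
      have := (hφ0' z h4).sub h2.hasDerivAt
      rwa [h3, sub_self] at this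
    filter_upwards [h1, (hcP z0 hz0).eventually ((hO z0 hz0).mem_nhds (hM z0 hz0)),
      hopen.mem_nhds hz0] with z h2 h3 h4
    have e1 := Λ.sub_mem (ha z0 hz0 (P z0) ⟨hM z0 hz0, hT z0 hz0⟩)
      (ha z0 hz0 (P z) ⟨h3, hT z h4⟩)
    have e2 : D z - D z0 = a (P z0) - w z0 (P z0) - (a (P z) - w z0 (P z)) := by
      rw [hD]
      linear_combination h2
    rw [e2]
    exact e1
  have hpre : IsPreconnected (ball c R) := (convex_ball c R).isPreconnected
  have hall : ∀ z ∈ ball c R, D z - D c ∈ Λ := by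
    set A : Set ℂ := {z | z ∈ ball c R ∧ D z - D c ∈ Λ} with hA
    set A' : Set ℂ := {z | z ∈ ball c R ∧ D z - D c ∉ Λ} with hA'
    have hAo : IsOpen A := by
      rw [isOpen_iff_mem_nhds]
      intro z0 hz0
      filter_upwards [key z0 hz0.1, hopen.mem_nhds hz0.1] with z hz hzB
      have := Λ.add_mem hz hz0.2
      have e : D z - D c = D z - D z0 + (D z0 - D c) := by ring
      refine ⟨hzB, ?_⟩
      rw [e]
      exact this
    have hAc : IsOpen A' := by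
      rw [isOpen_iff_mem_nhds]
      intro z0 hz0
      filter_upwards [key z0 hz0.1, hopen.mem_nhds hz0.1] with z hz hzB
      refine ⟨hzB, fun hz1 => hz0.2 ?_⟩
      have := Λ.sub_mem hz1 hz
      have e : D z0 - D c = D z - D c - (D z - D z0) := by ring
      rw [e]
      exact this
    intro z hz
    by_contra hcon
    obtain ⟨x, -, hx1, hx2⟩ := hpre A A' hAo hAc (fun x hx => by
      by_cases h1 : D x - D c ∈ Λ
      · exact Or.inl ⟨hx, h1⟩
      · exact Or.inr ⟨hx, h1⟩) ⟨c, mem_ball_self hR, mem_ball_self hR, by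
        rw [sub_self]
        exact Λ.zero_mem⟩ ⟨z, hz, hz, hcon⟩
    exact hx2.2 hx1.2
  refine ⟨fun z => φ0 z - D c, fun z hz =>
    ((hφ0' z hz).differentiableAt.sub_const _).differentiableWithinAt, fun z hz => ?_⟩
  have e : φ0 z - D c - a (P z) = D z - D c := by rw [hD]; ring
  rw [e]
  exact hall z hz

end Pool.Agent.N154.GG
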