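import Pool.Agent.N154.GG.Rig2
import Pool.Agent.N154.DD.Grad

/-! The rigidity theorem for sequences on larger and larger discs. -/

set_option autoImplicit false

open Filter Topology Metric Set

namespace Pool.Agent.N154.GG

open Pool.Agent.Y190.OP Pool.Agent.N155

variable {N : ℕ} {T : Set (Mat N)} {Λ : AddSubgroup ℂ} {a : Mat N → ℂ} {κ : Type}
    {η : κ → (Fin N → ℂ) → (Fin N → ℂ) → (Fin N → ℂ) → ℂ}

/-- the hypotheses of the rigidity theorem -/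
structure RDl (T : Set (Mat N)) (Λ : AddSubgroup ℂ) (a : Mat N → ℂ) (𝓤 : Ultrafilter ℕ)
    (g : ℂ → Mat N) (Φ : ℂ → ℂ) (B B' : ℝ) (P Q : ℕ → ℂ → Mat N) (φ wt : ℕ → ℂ → ℂ) : Prop where
  hg : HolP univ g
  gT : ∀ z, g z ∈ T
  gov : Over Λ a g (fun z => z)
  gB : ∀ z, ‖fderiv ℝ g z‖ ≤ B
  Φd : Differentiable ℂ Φ
  hP : ∀ L : ℝ, ∀ᶠ m in (𝓤 : Filter ℕ), Dsc T Λ a 0 L (P m) (φ m)
  hQ : ∀ L : ℝ, ∀ᶠ m in (𝓤 : Filter ℕ), Dsc T Λ a 0 L (Q m) (φ m)
  wtd : ∀ L : ℝ, ∀ᶠ m in (𝓤 : Filter ℕ), DifferentiableOn ℂ (wt m) (ball 0 L)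
  cP : CConv (𝓤 : Filter ℕ) univ P (fun z => g (Φ z))
  cQ : CConv (𝓤 : Filter ℕ) univ Q (fun z => g (Φ z))
  bd : ∀ L : ℝ, ∀ᶠ m in (𝓤 : Filter ℕ), ∀ z ∈ closedBall (0 : ℂ) L,
    ‖Q m z - P m z‖ * ‖wt m z‖ ≤ B'

variable {𝓤 : Ultrafilter ℕ} {g : ℂ → Mat N} {Φ : ℂ → ℂ} {B B' : ℝ} {P Q : ℕ → ℂ → Mat N}
  {φ wt : ℕ → ℂ → ℂ}

theorem RDl.bdp (h : RDl T Λ a 𝓤 g Φ B B' P Q φ wt) (t : ℂ) :
    ∀ᶠ m in (𝓤 : Filter ℕ), ‖Q m t - P m t‖ * ‖wt m t‖ ≤ B' := by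
  filter_upwards [h.bd ‖t‖] with m hm
  exact hm t (mem_closedBall_zero_iff.2 le_rfl)

theorem RDl.pt (h : RDl T Λ a 𝓤 g Φ B B' P Q φ wt) (t : ℂ) :
    ∀ᶠ m in (𝓤 : Filter ℕ), P m t ∈ T ∧ Q m t ∈ T ∧ φ m t - a (P m t) ∈ Λ ∧
      φ m t - a (Q m t) ∈ Λ := by
  have ht : t ∈ ball (0 : ℂ) (‖t‖ + 1) := mem_ball_zero_iff.2 (by linarith)
  filter_upwards [h.hP (‖t‖ + 1), h.hQ (‖t‖ + 1)] with m h1 h2
  exact ⟨h1.mem t ht, h2.mem t ht, h1.ov t ht, h2.ov t ht⟩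

theorem RDl.B'0 (h : RDl T Λ a 𝓤 g Φ B B' P Q φ wt) : 0 ≤ B' := by
  obtain ⟨m, hm⟩ := (h.bdp 0).exists
  exact le_trans (by positivity) hm

theorem RDl.Vl_lim (h : RDl T Λ a 𝓤 g Φ B B' P Q φ wt) (i : Fin N) {t0 : ℂ}
    (hi : g (Φ t0) i i ≠ 0) : AnalyticAt ℂ (Vl 𝓤 P Q wt i) t0 ∧
      ∀ᶠ t in 𝓝 t0, Tendsto (fun m => wt m t • (chart i (Q m t) - chart i (P m t))) 𝓤
        (𝓝 (Vl 𝓤 P Q wt i t)) := by
  obtain ⟨L, O, hL, hO, hMO, hOi, hlip, -⟩ := lip_chart hi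
  have hOn : O ∈ 𝓝 (g (Φ t0)) := hO.mem_nhds hMO
  have h1 : ∀ᶠ p : ℕ × ℂ in (𝓤 : Filter ℕ) ×ˢ 𝓝 t0, P p.1 p.2 ∈ O ∧ Q p.1 p.2 ∈ O :=
    ((h.cP t0 (mem_univ _)).eventually hOn).and ((h.cQ t0 (mem_univ _)).eventually hOn)
  rw [eventually_prod_iff] at h1
  obtain ⟨pa1, hpa1, pb, hpb, hab1⟩ := h1
  set pa : ℕ → Prop := fun m => pa1 m ∧ Dsc T Λ a 0 (‖t0‖ + 1) (P m) (φ m) ∧
    Dsc T Λ a 0 (‖t0‖ + 1) (Q m) (φ m) ∧ DifferentiableOn ℂ (wt m) (ball 0 (‖t0‖ + 1)) with hpadef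
  have hpa : ∀ᶠ m in (𝓤 : Filter ℕ), pa m := by
    filter_upwards [hpa1, h.hP (‖t0‖ + 1), h.hQ (‖t0‖ + 1), h.wtd (‖t0‖ + 1)] with m h1 h2 h3 h4
    exact ⟨h1, h2, h3, h4⟩
  obtain ⟨V, hVs, hV, htV⟩ := _root_.mem_nhds_iff.1 (hpb.and (ball_mem_nhds t0 one_pos))
  have hVB : ∀ z ∈ V, z ∈ ball (0 : ℂ) (‖t0‖ + 1) := by
    intro z hz
    have e4 : ‖z - t0‖ < 1 := by
      have := (hVs hz).2
      rwa [dist_eq_norm] at this
    rw [mem_ball_zero_iff]
    have := norm_add_le (z - t0) t0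
    rw [sub_add_cancel] at this
    linarith
  have hbdV : ∀ᶠ m in (𝓤 : Filter ℕ), ∀ t ∈ V, ∀ l : Fin N,
      ‖wt m t * (chart i (Q m t) l - chart i (P m t) l)‖ ≤ L * B' := by
    filter_upwards [hpa, h.bd (‖t0‖ + 1)] with m hm1 hm2 t ht l
    obtain ⟨e1, e2⟩ := hab1 hm1.1 (hVs ht).1
    have e3 : t ∈ closedBall (0 : ℂ) (‖t0‖ + 1) := by
      have e4 : ‖t - t0‖ < 1 := by
        have := (hVs ht).2
        rwa [dist_eq_norm] at this
      rw [mem_closedBall_zero_iff]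
      have := norm_add_le (t - t0) t0
      rw [sub_add_cancel] at this
      linarith
    have e4 : ‖chart i (Q m t) l - chart i (P m t) l‖ ≤ L * ‖Q m t - P m t‖ :=
      (norm_le_pi_norm (chart i (Q m t) - chart i (P m t)) l).trans (hlip _ e2 _ e1)
    rw [norm_mul]
    calc ‖wt m t‖ * ‖chart i (Q m t) l - chart i (P m t) l‖ ≤
          ‖wt m t‖ * (L * ‖Q m t - P m t‖) := mul_le_mul_of_nonneg_left e4 (norm_nonneg _)
      _ = L * (‖Q m t - P m t‖ * ‖wt m t‖) := by ring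
      _ ≤ L * B' := mul_le_mul_of_nonneg_left (hm2 t e3) hL
  have hdV : ∀ᶠ m in (𝓤 : Filter ℕ), ∀ l : Fin N,
      DifferentiableOn ℂ (fun t => wt m t * (chart i (Q m t) l - chart i (P m t) l)) V := by
    filter_upwards [hpa] with m hm1 l t ht
    obtain ⟨e1, e2⟩ := hab1 hm1.1 (hVs ht).1
    have e3 := differentiableAt_pi.1 (hm1.2.1.hol.diff_chart (hVB t ht) (hOi _ e1)) l
    have e4 := differentiableAt_pi.1 (hm1.2.2.1.hol.diff_chart (hVB t ht) (hOi _ e2)) l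
    exact ((hm1.2.2.2.differentiableAt (isOpen_ball.mem_nhds (hVB t ht))).mul
      (e4.sub e3)).differentiableWithinAt
  have hmon : ∀ l : Fin N, ∃ H : ℂ → ℂ, CConv (𝓤 : Filter ℕ) V
      (fun m t => wt m t * (chart i (Q m t) l - chart i (P m t) l)) H := by
    intro l
    apply ultra_montel
    intro z hz
    refine ⟨V, hV.mem_nhds hz, L * B', ?_⟩
    filter_upwards [hbdV, hdV] with m e1 e2
    exact ⟨e2 l, fun w hw => e1 w hw l⟩
  choose H hH using hmon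
  have hHan : ∀ l, AnalyticAt ℂ (H l) t0 := fun l =>
    (CConv.an (hH l) hV htV ⟨V, hV.mem_nhds htV, by
      filter_upwards [hdV] with m e1
      exact e1 l⟩).1
  have hten : ∀ t ∈ V, Tendsto (fun m => wt m t • (chart i (Q m t) - chart i (P m t))) 𝓤
      (𝓝 (fun l => H l t)) := by
    intro t ht
    rw [tendsto_pi_nhds]
    intro l
    exact (hH l).pointwise ht
  have hVe : ∀ t ∈ V, Vl 𝓤 P Q wt i t = fun l => H l t := fun t ht => (hten t ht).limUnder_eq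
  constructor
  · have h2 : AnalyticAt ℂ (fun t l => H l t) t0 := by
      rw [analyticAt_pi_iff]
      exact hHan
    refine h2.congr ?_
    filter_upwards [hV.mem_nhds htV] with t ht
    exact (hVe t ht).symm
  · filter_upwards [hV.mem_nhds htV] with t ht
    rw [hVe t ht]
    exact hten t ht

theorem RDl.Vl_ten (h : RDl T Λ a 𝓤 g Φ B B' P Q φ wt) (i : Fin N) {t0 : ℂ}
    (hi : g (Φ t0) i i ≠ 0) :
    Tendsto (fun m => wt m t0 • (chart i (Q m t0) - chart i (P m t0))) 𝓤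
        (𝓝 (Vl 𝓤 P Q wt i t0)) := (h.Vl_lim i hi).2.self_of_nhds

theorem RDl.tau (h : RDl T Λ a 𝓤 g Φ B B' P Q φ wt) (i : Fin N) {s : ℂ} (hi : g s i i ≠ 0) :
    AnalyticAt ℂ (fun s => chart i (g s)) s := by
  rw [Complex.analyticAt_iff_eventually_differentiableAt]
  have h1 : ∀ᶠ s' in 𝓝 s, g s' i i ≠ 0 := by
    have : ContinuousAt (fun s' => g s' i i) s :=
      (continuous_apply_apply i i).continuousAt.comp (h.hg.continuousAt (mem_univ s))
    exact this.eventually_ne hi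
  filter_upwards [h1] with s' hs'
  exact h.hg.diff_chart (mem_univ s') hs'

theorem RDl.tau_le (h : RDl T Λ a 𝓤 g Φ B B' P Q φ wt) (i : Fin N) {s : ℂ} (hi : g s i i ≠ 0)
    {L : ℝ} (hL : ‖fderiv ℝ (chart i) (g s)‖ ≤ L) : ‖deriv (fun s => chart i (g s)) s‖ ≤ L * B := by
  have h1 : HasFDerivAt (fun s => chart i (g s))
      ((fderiv ℂ (fun s => chart i (g s)) s).restrictScalars ℝ) s :=
    (h.hg.diff_chart (mem_univ s) hi).hasFDerivAt.restrictScalars ℝ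
  have h2 : HasFDerivAt (fun s => chart i (g s)) ((fderiv ℝ (chart i) (g s)).comp (fderiv ℝ g s)) s :=
    (((contDiffAt_chart hi).differentiableAt (by norm_num)).hasFDerivAt).comp s
      (h.hg.differentiableAt (mem_univ s)).hasFDerivAt
  have h3 := h1.unique h2
  rw [norm_deriv_eq_norm_fderiv, ← ContinuousLinearMap.norm_restrictScalars (𝕜' := ℝ), h3]
  refine (ContinuousLinearMap.opNorm_comp_le _ _).trans ?_
  exact mul_le_mul hL (h.gB s) (norm_nonneg _) ((norm_nonneg _).trans hL)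

theorem RDl.ev_diag (h : RDl T Λ a 𝓤 g Φ B B' P Q φ wt) (i : Fin N) {t : ℂ}
    (hi : g (Φ t) i i ≠ 0) : (∀ᶠ m in (𝓤 : Filter ℕ), P m t i i ≠ 0 ∧ Q m t i i ≠ 0) ∧
      ∀ᶠ s in 𝓝 (Φ t), g s i i ≠ 0 := by
  have hc := (continuous_apply_apply (ρ := fun (_ : Fin N) (_ : Fin N) => ℂ) i i).continuousAt
    (x := g (Φ t))
  refine ⟨?_, ?_⟩
  · have h1 := (hc.tendsto.comp (h.cP.pointwise (mem_univ t))).eventually_ne hi
    have h2 := (hc.tendsto.comp (h.cQ.pointwise (mem_univ t))).eventually_ne hi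
    exact h1.and h2
  · exact (hc.comp (h.hg.continuousAt (mem_univ (Φ t)))).eventually_ne hi

theorem RDl.Tf_indep (hG : GD T Λ a η) (h : RDl T Λ a 𝓤 g Φ B B' P Q φ wt) (hTP : T ⊆ PM)
    (q : κ) {i i' : Fin N} (l : Fin N) {t : ℂ} (hi : g (Φ t) i i ≠ 0) (hi' : g (Φ t) i' i' ≠ 0) :
    Tf η 𝓤 g Φ P Q wt q i' l t = Tf η 𝓤 g Φ P Q wt q i l t := by
  have hM := hTP (h.gT (Φ t))
  have hx := chart_i'_ne hM hi hi'
  obtain ⟨f', hf', hfv⟩ := tr_strict hx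
  -- the limit vector
  have e1 : Vl 𝓤 P Q wt i' t = f' (Vl 𝓤 P Q wt i t) := by
    apply tendsto_nhds_unique (h.Vl_ten i' hi')
    have hp : Tendsto (fun m => chart i (P m t)) 𝓤 (𝓝 (chart i (g (Φ t)))) :=
      (continuousAt_chart hi).tendsto.comp (h.cP.pointwise (mem_univ t))
    have hq : Tendsto (fun m => chart i (Q m t)) 𝓤 (𝓝 (chart i (g (Φ t)))) :=
      (continuousAt_chart hi).tendsto.comp (h.cQ.pointwise (mem_univ t))
    refine (strict_lim hf' hp hq (h.Vl_ten i hi)).congr' ?_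
    filter_upwards [(h.ev_diag i hi).1, (h.ev_diag i' hi').1, h.pt t] with m hm hm' hpt
    rw [chart_tr (hTP hpt.1) hm.1 hm'.1, chart_tr (hTP hpt.2.1) hm.2 hm'.2]
  have e2 : deriv (fun s => chart i' (g s)) (Φ t) = f' (deriv (fun s => chart i (g s)) (Φ t)) := by
    have h1 := (h.tau i hi).differentiableAt.hasDerivAt
    have h2 := hf'.hasFDerivAt.comp_hasDerivAt (Φ t) h1
    have h3 : (fun s => chart i' (g s)) =ᶠ[𝓝 (Φ t)] tr i' ∘ fun s => chart i (g s) := by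
      filter_upwards [(h.ev_diag i hi).2, (h.ev_diag i' hi').2] with s hs hs'
      exact chart_tr (hTP (h.gT s)) hs hs'
    rw [h3.deriv_eq, h2.deriv]
  unfold Tf
  rw [e1, e2, hfv, hfv, chart_tr hM hi hi']
  unfold tr
  rw [hG.homog _ (h.gT _) i hi q _ _ _ _ _ (inv_ne_zero hx), Pi.smul_apply, smul_eq_mul]
  field_simp

theorem RDl.Vl_le (h : RDl T Λ a 𝓤 g Φ B B' P Q φ wt) (i : Fin N) {t : ℂ}
    (hi : g (Φ t) i i ≠ 0) {L : ℝ} {O : Set (Mat N)} (hL : 0 ≤ L) (hO : IsOpen O)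
    (hMO : g (Φ t) ∈ O) (hlip : ∀ M ∈ O, ∀ M' ∈ O, ‖chart i M - chart i M'‖ ≤ L * ‖M - M'‖) :
    ‖Vl 𝓤 P Q wt i t‖ ≤ L * B' := by
  refine le_of_tendsto (h.Vl_ten i hi).norm ?_
  have hOn : O ∈ 𝓝 (g (Φ t)) := hO.mem_nhds hMO
  filter_upwards [(h.cP.pointwise (mem_univ t)).eventually hOn,
    (h.cQ.pointwise (mem_univ t)).eventually hOn, h.bdp t] with m h1 h2 h3
  rw [norm_smul]
  calc ‖wt m t‖ * ‖chart i (Q m t) - chart i (P m t)‖ ≤ ‖wt m t‖ * (L * ‖Q m t - P m t‖) :=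
        mul_le_mul_of_nonneg_left (hlip _ h2 _ h1) (norm_nonneg _)
    _ = L * (‖Q m t - P m t‖ * ‖wt m t‖) := by ring
    _ ≤ L * B' := mul_le_mul_of_nonneg_left h3 hL

/-- the local form of the basic functions -/
theorem RDl.loc (hT : TD T Λ a) (hG : GD T Λ a η) (h : RDl T Λ a 𝓤 g Φ B B' P Q φ wt)
    {M0 : Mat N} (hM0 : M0 ∈ T) :
    ∃ (O : Set (Mat N)) (i : Fin N), IsOpen O ∧ M0 ∈ O ∧ (∀ M ∈ O, M i i ≠ 0) ∧
      (∀ q, ∃ C : ℝ, ∀ l t, g (Φ t) ∈ O → AnalyticAt ℂ (Tf η 𝓤 g Φ P Q wt q i l) t ∧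
        ‖Tf η 𝓤 g Φ P Q wt q i l t‖ ≤ C) ∧
      ∀ t, g (Φ t) ∈ O → deriv (fun s => chart i (g s)) (Φ t) ≠ 0 ∧
        ((∀ q, Tf η 𝓤 g Φ P Q wt q i i t = 0) → Vl 𝓤 P Q wt i t = 0) := by
  obtain ⟨i, d, J, O, U, Ψ, W, hO, hMO, hU, hΨ, hW, hF, hF0, hloc⟩ := hG.loc M0 hM0
  obtain ⟨hi0, hU0, -⟩ := hloc M0 hMO
  obtain ⟨L, O1, hL, hO1, hMO1, -, hlip, hfd⟩ := lip_chart hi0
  set F : κ → (Fin d → ℂ) × (Fin d → ℂ) × (Fin d → ℂ) → ℂ := fun q p =>
    η q (Ψ p.1) (fderiv ℂ Ψ p.1 p.2.1) (fderiv ℂ Ψ p.1 p.2.2) with hFdef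
  set ξ : Mat N → Fin d → ℂ := fun M k => chart i M (J k) with hξ
  have hcξ : ContinuousAt ξ M0 := by
    rw [continuousAt_pi]
    intro k
    exact (continuous_apply (J k)).continuousAt.comp (continuousAt_chart hi0)
  obtain ⟨ε, hε, hεU⟩ := Metric.isOpen_iff.1 hU _ hU0
  have hev1 : ∀ᶠ M in 𝓝 M0, ξ M ∈ closedBall (ξ M0) (ε / 2) :=
    hcξ.eventually (closedBall_mem_nhds _ (by positivity))
  have hev2 : ∀ᶠ M in 𝓝 M0, ‖chart i M‖ < ‖chart i M0‖ + 1 :=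
    (continuousAt_chart hi0).norm.eventually_lt_const (lt_add_one _)
  obtain ⟨O2, hO2s, hO2, hMO2⟩ := _root_.mem_nhds_iff.1 ((hev1.and hev2).and
    (inter_mem (hO.mem_nhds hMO) (hO1.mem_nhds hMO1)))
  have hOi : ∀ M ∈ O2, M i i ≠ 0 := fun M hM => (hloc M (hO2s hM).2.1).1
  -- the facts
  have facts : ∀ t, g (Φ t) ∈ O2 →
      deriv (fun s => chart i (g s)) (Φ t) = fderiv ℂ Ψ (ξ (g (Φ t)))
        (fun k => deriv (fun s => chart i (g s)) (Φ t) (J k)) ∧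
      Vl 𝓤 P Q wt i t = fderiv ℂ Ψ (ξ (g (Φ t))) (fun k => Vl 𝓤 P Q wt i t (J k)) ∧
      fderiv ℂ W (ξ (g (Φ t))) (fun k => deriv (fun s => chart i (g s)) (Φ t) (J k)) = 1 ∧
      fderiv ℂ W (ξ (g (Φ t))) (fun k => Vl 𝓤 P Q wt i t (J k)) = 0 ∧
      ∀ q, Tf η 𝓤 g Φ P Q wt q i i t = F q (ξ (g (Φ t)),
        (fun k => deriv (fun s => chart i (g s)) (Φ t) (J k)), fun k => Vl 𝓤 P Q wt i t (J k)) := by
    intro t ht
    have hit := hOi _ ht
    have hOt := (hO2s ht).2.1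
    obtain ⟨-, hUt, ht3⟩ := hloc _ hOt
    obtain ⟨hΨt, hWt⟩ := ht3 (h.gT _)
    have hev : ∀ᶠ s in 𝓝 (Φ t), g s ∈ O :=
      (h.hg.continuousAt (mem_univ (Φ t))).eventually (hO.mem_nhds hOt)
    have hd := (h.tau i hit).differentiableAt.hasDerivAt
    have hdl : ∀ l, HasDerivAt (fun s => chart i (g s) l)
        (deriv (fun s => chart i (g s)) (Φ t) l) (Φ t) := fun l => (hasDerivAt_pi.1 hd) l
    have hdξ : HasDerivAt (fun s => ξ (g s))
        (fun k => deriv (fun s => chart i (g s)) (Φ t) (J k)) (Φ t) :=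
      hasDerivAt_pi.2 fun k => hdl (J k)
    have f1 : deriv (fun s => chart i (g s)) (Φ t) = fderiv ℂ Ψ (ξ (g (Φ t)))
        (fun k => deriv (fun s => chart i (g s)) (Φ t) (J k)) := by
      have h1 := (hΨ _ hUt).differentiableAt.hasFDerivAt.comp_hasDerivAt (Φ t) hdξ
      have h2 : (fun s => chart i (g s)) =ᶠ[𝓝 (Φ t)] Ψ ∘ fun s => ξ (g s) := by
        filter_upwards [hev] with s hs
        exact ((hloc _ hs).2.2 (h.gT s)).1
      rw [← h1.deriv, ← h2.deriv_eq]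
    have f3 : fderiv ℂ W (ξ (g (Φ t)))
        (fun k => deriv (fun s => chart i (g s)) (Φ t) (J k)) = 1 := by
      have h1 := (hW _ hUt).differentiableAt.hasFDerivAt.comp_hasDerivAt (Φ t) hdξ
      have h2 : HasDerivAt (fun s => s - W (ξ (g s))) (1 - fderiv ℂ W (ξ (g (Φ t)))
        (fun k => deriv (fun s => chart i (g s)) (Φ t) (J k))) (Φ t) :=
        (hasDerivAt_id (Φ t)).sub h1
      have h3 := hT.ev_const (f := fun s => s - W (ξ (g s))) (z0 := Φ t) h2.continuousAt (by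
        filter_upwards [hev] with s hs
        have e1 := Λ.add_mem (h.gov s) ((hloc _ hs).2.2 (h.gT s)).2
        have e2 : s - W (ξ (g s)) = s - a (g s) + (a (g s) - W (ξ (g s))) := by ring
        rw [e2]
        exact e1)
      have h4 := (hasDerivAt_const (Φ t) (Φ t - W (ξ (g (Φ t))))).congr_of_eventuallyEq h3
      have h5 := h2.unique h4
      exact (sub_eq_zero.1 h5).symm
    have hPl : Tendsto (fun m => P m t) 𝓤 (𝓝 (g (Φ t))) := h.cP.pointwise (mem_univ t)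
    have hQl : Tendsto (fun m => Q m t) 𝓤 (𝓝 (g (Φ t))) := h.cQ.pointwise (mem_univ t)
    have hξc : ContinuousAt ξ (g (Φ t)) := by
      rw [continuousAt_pi]
      intro k
      exact (continuous_apply (J k)).continuousAt.comp (continuousAt_chart hit)
    have hp := hξc.tendsto.comp hPl
    have hq := hξc.tendsto.comp hQl
    have hv : Tendsto (fun m => wt m t • (ξ (Q m t) - ξ (P m t))) 𝓤
        (𝓝 (fun k => Vl 𝓤 P Q wt i t (J k))) := by
      have h1 := tendsto_pi_nhds.1 (h.Vl_ten i hit)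
      exact tendsto_pi_nhds.2 fun k => h1 (J k)
    have hPO := hPl.eventually (hO.mem_nhds hOt)
    have hQO := hQl.eventually (hO.mem_nhds hOt)
    have f2 : Vl 𝓤 P Q wt i t =
        fderiv ℂ Ψ (ξ (g (Φ t))) (fun k => Vl 𝓤 P Q wt i t (J k)) := by
      apply tendsto_nhds_unique (h.Vl_ten i hit)
      refine (strict_lim (hΨ _ hUt).hasStrictFDerivAt hp hq hv).congr' ?_
      filter_upwards [hPO, hQO, h.pt t] with m e1 e2 hpt
      change wt m t • (Ψ (ξ (Q m t)) - Ψ (ξ (P m t))) = _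
      rw [← ((hloc _ e1).2.2 hpt.1).1, ← ((hloc _ e2).2.2 hpt.2.1).1]
    have f4 : fderiv ℂ W (ξ (g (Φ t))) (fun k => Vl 𝓤 P Q wt i t (J k)) = 0 := by
      have h1 := strict_lim (hW _ hUt).hasStrictFDerivAt hp hq hv
      refine tendsto_nhds_unique h1 ?_
      have hWc : Tendsto (fun m => W (ξ (Q m t)) - W (ξ (P m t))) 𝓤 (𝓝 0) := by
        have h2 := ((hW _ hUt).continuousAt.tendsto.comp hq).sub
          ((hW _ hUt).continuousAt.tendsto.comp hp)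
        rw [sub_self] at h2
        exact h2
      have h3 := (hT.mem_lim (l := (𝓤 : Filter ℕ)) (by
        filter_upwards [hPO, hQO, h.pt t] with m e1 e2 hpt
        have e3 := ((hloc _ e1).2.2 hpt.1).2
        have e4 := ((hloc _ e2).2.2 hpt.2.1).2
        have e5 := Λ.sub_mem hpt.2.2.2 hpt.2.2.1
        have e6 := Λ.add_mem (Λ.sub_mem e3 e4) (Λ.neg_mem e5)
        have e7 : W (ξ (Q m t)) - W (ξ (P m t)) =
            (a (P m t) - W (ξ (P m t))) - (a (Q m t) - W (ξ (Q m t))) +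
              -(φ m t - a (Q m t) - (φ m t - a (P m t))) := by ring
        rw [e7]
        exact e6) hWc).1
      have h4 : (fun m => wt m t • ((W ∘ fun m => ξ (Q m t)) m - (W ∘ fun m => ξ (P m t)) m))
          =ᶠ[(𝓤 : Filter ℕ)] fun _ => 0 := by
        filter_upwards [h3] with m e1
        change wt m t • (W (ξ (Q m t)) - W (ξ (P m t))) = 0
        rw [e1, smul_zero]
      exact tendsto_const_nhds.congr' h4.symm
    refine ⟨f1, f2, f3, f4, fun q => ?_⟩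
    unfold Tf
    rw [PM.chart_self hit, mul_one, hFdef]
    simp only
    rw [← hΨt, ← f1, ← f2]
  have hTl : ∀ q l t, Tf η 𝓤 g Φ P Q wt q i l t =
      Tf η 𝓤 g Φ P Q wt q i i t * chart i (g (Φ t)) l ∨ g (Φ t) i i = 0 := by
    intro q l t
    by_cases hit : g (Φ t) i i = 0
    · exact Or.inr hit
    · left
      unfold Tf
      rw [PM.chart_self hit, mul_one]
  refine ⟨O2, i, hO2, hMO2, hOi, fun q => ?_, fun t ht => ?_⟩
  · have hcomp : IsCompact (closedBall (ξ M0) (ε / 2) ×ˢ (closedBall (0 : Fin d → ℂ) (L * B) ×ˢ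
        closedBall (0 : Fin d → ℂ) (L * B'))) :=
      (isCompact_closedBall _ _).prod ((isCompact_closedBall _ _).prod (isCompact_closedBall _ _))
    have hsubU : closedBall (ξ M0) (ε / 2) ⊆ U :=
      (closedBall_subset_ball (by linarith)).trans hεU
    obtain ⟨CF, hCF⟩ := hcomp.exists_bound_of_continuousOn (f := F q) (fun p hp =>
      ((hF q) p ⟨hsubU hp.1, mem_univ _⟩).continuousAt.continuousWithinAt)
    refine ⟨CF * (‖chart i M0‖ + 1), fun l t ht => ?_⟩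
    have hit := hOi _ ht
    obtain ⟨-, hUt, -⟩ := hloc _ (hO2s ht).2.1
    have hgΦ : ContinuousAt (fun t => g (Φ t)) t :=
      ContinuousAt.comp (g := g) (h.hg.continuousAt (mem_univ (Φ t))) h.Φd.continuous.continuousAt
    have hev : ∀ᶠ t' in 𝓝 t, g (Φ t') ∈ O2 := hgΦ.eventually (hO2.mem_nhds ht)
    have hΦa : AnalyticAt ℂ Φ t := h.Φd.analyticAt t
    have hxa : AnalyticAt ℂ (fun t => chart i (g (Φ t))) t := by
      have := h.tau i hit
      exact this.comp hΦa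
    have hxl : ∀ l, AnalyticAt ℂ (fun t => chart i (g (Φ t)) l) t := fun l =>
      (analyticAt_pi_iff.1 hxa) l
    have hτ : AnalyticAt ℂ (fun t => deriv (fun s => chart i (g s)) (Φ t)) t :=
      (h.tau i hit).deriv.comp hΦa
    have hτl : AnalyticAt ℂ (fun t k => deriv (fun s => chart i (g s)) (Φ t) (J k)) t :=
      analyticAt_pi_iff.2 fun k => (analyticAt_pi_iff.1 hτ) (J k)
    have hVa := (h.Vl_lim i hit).1
    have hVl : AnalyticAt ℂ (fun t k => Vl 𝓤 P Q wt i t (J k)) t :=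
      analyticAt_pi_iff.2 fun k => (analyticAt_pi_iff.1 hVa) (J k)
    have hξa : AnalyticAt ℂ (fun t => ξ (g (Φ t))) t := analyticAt_pi_iff.2 fun k => hxl (J k)
    constructor
    · have h1 : AnalyticAt ℂ (fun t => F q (ξ (g (Φ t)),
          (fun k => deriv (fun s => chart i (g s)) (Φ t) (J k)),
            fun k => Vl 𝓤 P Q wt i t (J k))) t :=
        AnalyticAt.fun_comp (g := F q) (hF q _ ⟨hUt, mem_univ _⟩)
          (hξa.prod (hτl.prod hVl))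
      refine (h1.fun_mul (hxl l)).congr ?_
      filter_upwards [hev] with t' ht'
      rw [(hTl q l t').resolve_right (hOi _ ht'), (facts t' ht').2.2.2.2 q]
    · rw [(hTl q l t).resolve_right hit, (facts t ht).2.2.2.2 q, norm_mul]
      have e1 := h.tau_le i hit (hfd _ (hO2s ht).2.2)
      have e2 := h.Vl_le i hit hL hO1 (hO2s ht).2.2 hlip
      have e5 : ‖chart i (g (Φ t)) l‖ ≤ ‖chart i M0‖ + 1 :=
        (norm_le_pi_norm _ l).trans (hO2s ht).1.2.le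
      have hpi : ∀ {v : Fin N → ℂ} {c : ℝ}, ‖v‖ ≤ c →
          (fun k => v (J k)) ∈ closedBall (0 : Fin d → ℂ) c := by
        intro v c hv
        rw [mem_closedBall_zero_iff, pi_norm_le_iff_of_nonneg ((norm_nonneg _).trans hv)]
        intro k
        exact (norm_le_pi_norm v (J k)).trans hv
      have e6 := hCF (ξ (g (Φ t)), (fun k => deriv (fun s => chart i (g s)) (Φ t) (J k)),
        fun k => Vl 𝓤 P Q wt i t (J k)) ⟨(hO2s ht).1.1, hpi e1, hpi e2⟩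
      exact mul_le_mul e6 e5 (norm_nonneg _) ((norm_nonneg _).trans e6)
  · obtain ⟨f1, f2, f3, f4, f5⟩ := facts t ht
    obtain ⟨-, hUt, -⟩ := hloc _ (hO2s ht).2.1
    constructor
    · intro h0
      rw [h0] at f3
      have : (fun k => (0 : Fin N → ℂ) (J k)) = (0 : Fin d → ℂ) := rfl
      rw [this, map_zero] at f3
      exact zero_ne_one f3
    · intro h0
      by_cases hli : LinearIndependent ℂ ![(fun k => deriv (fun s => chart i (g s)) (Φ t) (J k)),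
        fun k => Vl 𝓤 P Q wt i t (J k)]
      · obtain ⟨q, hq⟩ := hF0 _ hUt _ _ hli
        have h1 := h0 q
        rw [f5 q] at h1
        exact absurd h1 hq
      · have h2 := lin2 f3 f4 hli
        rw [f2, h2]
        exact map_zero _

/-- **Rigidity.** -/
theorem rigid_l (hT : TD T Λ a) (hG : GD T Λ a η) (h : RDl T Λ a 𝓤 g Φ B B' P Q φ wt)
    (hn : ∀ᶠ m in (𝓤 : Filter ℕ), 1 ≤ ‖Q m 0 - P m 0‖ * ‖wt m 0‖) : ∀ t, Φ t = Φ 0 := by
  choose idx hidx using fun t => PM.exists_diag (hT.sub (h.gT (Φ t)))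
  set TT : κ → Fin N → ℂ → ℂ := fun q l t => Tf η 𝓤 g Φ P Q wt q (idx t) l t with hTT
  have hTTi : ∀ q i l t, g (Φ t) i i ≠ 0 → TT q l t = Tf η 𝓤 g Φ P Q wt q i l t :=
    fun q i l t hi => h.Tf_indep hG hT.sub q l hi (hidx t)
  have hgΦ : Continuous (fun t => g (Φ t)) := (hp_cont h.hg).comp h.Φd.continuous
  have hana : ∀ q l, Differentiable ℂ (TT q l) := by
    intro q l t
    obtain ⟨O, i, hO, hMO, hOi, h1, -⟩ := h.loc hT hG (h.gT (Φ t))
    obtain ⟨C, h1⟩ := h1 q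
    refine ((h1 l t hMO).1.congr ?_).differentiableAt
    filter_upwards [hgΦ.continuousAt.eventually (hO.mem_nhds hMO)] with t' ht'
    exact (hTTi q i l t' (hOi _ ht')).symm
  have hbd : ∀ q, ∃ C : ℝ, ∀ t l, g (Φ t) ∈ T → ‖TT q l t‖ ≤ C := by
    intro q
    refine hT.comp.induction_on (p := fun s => ∃ C : ℝ, ∀ t l, g (Φ t) ∈ s → ‖TT q l t‖ ≤ C)
      ?_ ?_ ?_ ?_
    · exact ⟨0, fun t l ht => absurd ht (notMem_empty _)⟩
    · rintro s s' hss ⟨C, hC⟩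
      exact ⟨C, fun t l ht => hC t l (hss ht)⟩
    · rintro s s' ⟨C, hC⟩ ⟨C', hC'⟩
      refine ⟨max C C', fun t l ht => ?_⟩
      rcases ht with ht | ht
      · exact (hC t l ht).trans (le_max_left _ _)
      · exact (hC' t l ht).trans (le_max_right _ _)
    · intro M hM
      obtain ⟨O, i, hO, hMO, hOi, h1, -⟩ := h.loc hT hG hM
      obtain ⟨C, h1⟩ := h1 q
      refine ⟨O, mem_nhdsWithin_of_mem_nhds (hO.mem_nhds hMO), C, fun t l ht => ?_⟩
      rw [hTTi q i l t (hOi _ ht)]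
      exact (h1 l t ht).2
  have hconst : ∀ q l t, TT q l t = TT q l 0 := by
    intro q l t
    obtain ⟨C, hC⟩ := hbd q
    apply (hana q l).apply_eq_apply_of_bounded
    rw [isBounded_iff_forall_norm_le]
    refine ⟨C, ?_⟩
    rintro _ ⟨z, rfl⟩
    exact hC z l (h.gT _)
  obtain ⟨O, i, hO, hMO, hOi, -, h2⟩ := h.loc hT hG (h.gT (Φ 0))
  have hi0 := hOi _ hMO
  have hne : ∃ q, TT q i 0 ≠ 0 := by
    by_contra h0
    push Not at h0
    have hV0 := (h2 0 hMO).2 (fun q => by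
      rw [← hTTi q i i 0 hi0]
      exact h0 q)
    obtain ⟨K, s, hs, hK⟩ := (contDiffAt_Phi (PM.chart_ne hi0)).exists_lipschitzOnWith
    have hp : Tendsto (fun m => chart i (P m 0)) 𝓤 (𝓝 (chart i (g (Φ 0)))) :=
      (continuousAt_chart hi0).tendsto.comp (h.cP.pointwise (mem_univ 0))
    have hq : Tendsto (fun m => chart i (Q m 0)) 𝓤 (𝓝 (chart i (g (Φ 0)))) :=
      (continuousAt_chart hi0).tendsto.comp (h.cQ.pointwise (mem_univ 0))
    have h3 := ((h.Vl_ten i hi0).norm).const_mul (K : ℝ)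
    rw [hV0, norm_zero, mul_zero] at h3
    have h4 := h3.eventually_lt_const (u := 1) one_pos
    obtain ⟨m, e1, e2, e3, e4, e5, hpt⟩ := (h4.and (hn.and ((hp.eventually hs).and
      ((hq.eventually hs).and ((h.ev_diag i hi0).1.and (h.pt 0)))))).exists
    have e6 := hK.dist_le_mul _ e4 _ e3
    rw [dist_eq_norm, dist_eq_norm, PM.Phi_chart (hT.sub hpt.1) e5.1,
      PM.Phi_chart (hT.sub hpt.2.1) e5.2] at e6
    rw [norm_smul] at e1
    have e7 : ‖Q m 0 - P m 0‖ * ‖wt m 0‖ ≤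
        (K : ℝ) * ‖chart i (Q m 0) - chart i (P m 0)‖ * ‖wt m 0‖ :=
      mul_le_mul_of_nonneg_right e6 (norm_nonneg _)
    linarith
  obtain ⟨q, hne⟩ := hne
  -- the chart of the curve is locally constant
  have hev : ∀ᶠ t in 𝓝 (0 : ℂ), g (Φ t) ∈ O := hgΦ.continuousAt.eventually (hO.mem_nhds hMO)
  have hx : ∀ᶠ t in 𝓝 (0 : ℂ), chart i (g (Φ t)) = fun l => TT q l 0 / TT q i 0 := by
    filter_upwards [hev] with t ht
    have hit := hOi _ ht
    funext l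
    rw [eq_div_iff hne, ← hconst q l t, ← hconst q i t, hTTi q i l t hit, hTTi q i i t hit]
    unfold Tf
    rw [PM.chart_self hit]
    ring
  have hd : ∀ᶠ t in 𝓝 (0 : ℂ), deriv Φ t = 0 := by
    filter_upwards [hev, hx.eventually_nhds] with t ht hxt
    have hit := hOi _ ht
    have h3 := (h.tau i hit).differentiableAt.hasDerivAt.scomp t (h.Φd t).hasDerivAt
    have h4 : HasDerivAt (fun t => chart i (g (Φ t))) 0 t :=
      (hasDerivAt_const t (fun l => TT q l 0 / TT q i 0)).congr_of_eventuallyEq hxt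
    have h5 : deriv Φ t • deriv (fun s => chart i (g s)) (Φ t) = 0 := h3.unique h4
    exact (smul_eq_zero.1 h5).resolve_right (h2 t ht).1
  have hd' : deriv Φ = fun _ => 0 := by
    have h3 : AnalyticOnNhd ℂ (deriv Φ) univ := fun z _ => (h.Φd.analyticAt z).deriv
    exact h3.eq_of_eventuallyEq (fun z _ => analyticAt_const) hd
  intro t
  exact is_const_of_deriv_eq_zero h.Φd (fun z => by rw [hd']) t 0


end Pool.Agent.N154.GG
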