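import Pool.Agent.N154.DD.Seq
import Pool.Agent.N154.DD.Rig

/-! There are no rescaled sequences of discs. -/

set_option autoImplicit false

open Filter Topology Metric Set

namespace Pool.Agent.N154.GG

open Pool.Agent.Y190.OP Pool.Agent.N155

variable {N : ℕ} {T : Set (Mat N)} {Λ : AddSubgroup ℂ} {a : Mat N → ℂ} {κ : Type}
    {η : κ → (Fin N → ℂ) → (Fin N → ℂ) → (Fin N → ℂ) → ℂ}
    {r : ℕ} {e : Fin r → ℂ → Mat N} {D C : ℝ} {nn : ℕ → ℕ} {b : ℕ → ℂ}
    {h : ℕ → ℂ → Mat N} {φ : ℕ → ℂ → ℂ}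

theorem SQl.bW (hs : SQl T Λ a e D nn b h φ) {k m p : ℕ} (hp : p * (m + 1) = qk (nn k)) {t : ℂ}
    (ht : ‖t‖ ≤ k) : cf (φ k) (m + 1) t ^ p * ((∏ j, ‖h k t - e j (φ k t)‖) *
      ‖Complex.exp (b k * t)‖) ≤ 2 * ∏ j, ‖h k 0 - e j (φ k 0)‖ := by
  refine le_trans ?_ (hs.bd k t ht)
  apply mul_le_mul_of_nonneg_right _ (mul_nonneg (Finset.prod_nonneg fun _ _ => norm_nonneg _)
    (norm_nonneg _))
  rw [← hp, mul_comm p, pow_mul]
  exact pow_le_pow_left₀ (cf_nonneg _ _)
    (cf_le_sg_l ((hs.dsc k).dif.mono ball_sub_l) (by linarith) m) p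

/-- the weight -/
noncomputable def Wl (nn : ℕ → ℕ) (b : ℕ → ℂ) (φ : ℕ → ℂ → ℂ) (m k : ℕ) (t : ℂ) : ℂ :=
  (iteratedDeriv (m + 1) (φ k) t / ((m + 1).factorial : ℂ)) ^ (qk (nn k) / (m + 1)) *
    Complex.exp (b k * t)

theorem norm_Wl (m k : ℕ) (t : ℂ) : ‖Wl nn b φ m k t‖ =
    cf (φ k) (m + 1) t ^ (qk (nn k) / (m + 1)) * ‖Complex.exp (b k * t)‖ := by
  unfold Wl cf
  rw [norm_mul, norm_pow, norm_div, Complex.norm_natCast]

theorem diff_Wl {L : ℝ} {k : ℕ} (hd : DifferentiableOn ℂ (φ k) (ball 0 L)) (m : ℕ) :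
    DifferentiableOn ℂ (Wl nn b φ m k) (ball 0 L) := by
  have h1 := diff_it_l hd (m + 1)
  unfold Wl
  fun_prop

/-- the limit function is affine -/
theorem SQl.aff (hT : TD T Λ a) (hs : SQl T Λ a e D nn b h φ) (he : ∀ j, e j ∈ S0 T Λ a) {m : ℕ}
    (hm : ∀ᶠ k in (UU : Filter ℕ), ∀ p : ℕ, p * (m + 1) = qk (nn k) → 1 / 2 ≤ cf (φ k) (m + 1) 0 ^ p)
    {Φ : ℂ → ℂ} {H : ℂ → Mat N} (hΦ : Differentiable ℂ Φ)
    (hΦc : CConv (UU : Filter ℕ) univ φ Φ) (hHT : ∀ z, H z ∈ T)
    (hHc : CConv (UU : Filter ℕ) univ h H) : ∃ α β : ℂ, α ≠ 0 ∧ ∀ t, Φ t = α * t + β := by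
  have hkm : ∀ᶠ k : ℕ in (UU : Filter ℕ), m ≤ nn k := by
    filter_upwards [uu_ge (m : ℝ)] with k hk
    exact (by exact_mod_cast hk : m ≤ k).trans (hs.nge k)
  set d : ℕ → ℂ → ℝ := fun k t => ∏ j, ‖h k t - e j (φ k t)‖ with hd
  have hdnn : ∀ k t, 0 ≤ d k t := fun k t => Finset.prod_nonneg fun _ _ => norm_nonneg _
  have hd0 : ∀ k, 0 < d k 0 := hs.d0
  set E : ℕ → ℂ → ℝ := fun k t => ‖Complex.exp (b k * t)‖ with hE
  have hEp : ∀ k t, 0 < E k t := fun k t => norm_pos_iff.2 (Complex.exp_ne_zero _)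
  have hE0 : ∀ k, E k 0 = 1 := fun k => by
    rw [hE]
    simp only
    rw [mul_zero, Complex.exp_zero, norm_one]
  set G : ℕ → ℂ → ℂ := fun k t => Wl nn b φ m k t / (d k 0 : ℝ) with hG
  have hGn : ∀ k t, ‖G k t‖ = cf (φ k) (m + 1) t ^ (qk (nn k) / (m + 1)) * E k t / d k 0 := by
    intro k t
    rw [hG]
    simp only
    rw [norm_div, norm_Wl, Complex.norm_real, Real.norm_of_nonneg (hd0 k).le]
  have hbd : ∀ L : ℝ, ∀ᶠ k in (UU : Filter ℕ), ∀ z ∈ closedBall (0 : ℂ) L,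
      (∏ j, ‖h k z - e j (φ k z)‖) * ‖G k z‖ ≤ 2 := by
    intro L
    filter_upwards [hkm, uu_ge L] with k hk hkL z hz
    have h1 := hs.bW (qk_dvd hk) ((mem_closedBall_zero_iff.1 hz).trans hkL)
    rw [hGn, mul_div_assoc', div_le_iff₀ (hd0 k)]
    change d k z * _ ≤ _
    change _ * (d k z * E k z) ≤ 2 * d k 0 at h1
    linarith
  have hN0 : ∀ᶠ k in (UU : Filter ℕ), 1 / 2 ≤ d k 0 * ‖G k 0‖ := by
    filter_upwards [hm, hkm] with k h1 h2
    rw [hGn, hE0, mul_one, mul_div_cancel₀ _ (hd0 k).ne']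
    exact h1 _ (qk_dvd h2)
  have hnz := (nz_dich_l (𝓤 := UU) (P := h) (Q := fun j k t => e j (φ k t)) (Pi := H)
    (Qi := fun j t => e j (Φ t)) (G := G) (fun L => (hs.dscL L).mono fun _ h => h.hol)
    (fun j L => (hs.dscL L).mono fun _ h => (h.curve (he j)).hol)
    (fun z => hT.sub (hHT z)) (fun j z => hT.sub ((he j).2.1 _)) hHc (e_conv he hΦc)
    (fun L => by
      filter_upwards [hs.dscL L] with k hk
      have := diff_Wl (nn := nn) (b := b) hk.dif m
      rw [hG]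
      exact this.div_const _) hbd).resolve_left (by
    intro h0
    have h1 := (h0 0).eventually_lt_const (u := 1 / 2) (by norm_num)
    obtain ⟨k, e1, e2⟩ := (h1.and hN0).exists
    change d k 0 * ‖G k 0‖ < 1 / 2 at e1
    linarith)
  have hkey : ∀ᶠ t in codiscrete ℂ, ∀ᶠ k in (UU : Filter ℕ),
      sg (φ k) t ^ (m + 1) ≤ 2 * cf (φ k) (m + 1) t := by
    filter_upwards [hnz] with t ht
    obtain ⟨ε, hε, hεt⟩ : ∃ ε > 0, ∀ᶠ k in (UU : Filter ℕ), ε ≤ d k t * ‖G k t‖ := by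
      by_contra hcon
      push Not at hcon
      apply ht
      rw [Metric.tendsto_nhds]
      intro ε hε
      filter_upwards [hcon ε hε] with k hk
      rw [dist_zero_right, Real.norm_of_nonneg (mul_nonneg (hdnn k t) (norm_nonneg _))]
      exact hk
    filter_upwards [hεt, hkm, uu_ge ‖t‖, uu_ge (2 / ε * (m + 1))] with k e1 e2 e3 e4
    set p := qk (nn k) / (m + 1) with hp
    have hpm : p * (m + 1) = qk (nn k) := qk_dvd e2
    rw [hGn, ← hp, mul_div_assoc', le_div_iff₀ (hd0 k)] at e1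
    have e5 := hs.bd k t e3
    change sg (φ k) t ^ qk (nn k) * (d k t * E k t) ≤ 2 * d k 0 at e5
    have hdt : 0 < d k t := by
      rcases (hdnn k t).eq_or_lt with h0 | h0
      · rw [← h0, zero_mul] at e1
        exact absurd e1 (not_le.2 (mul_pos hε (hd0 k)))
      · exact h0
    have e6 : ε * (sg (φ k) t ^ qk (nn k)) ≤ 2 * cf (φ k) (m + 1) t ^ p := by
      have h1 : ε * (sg (φ k) t ^ qk (nn k)) * (d k t * E k t) ≤
          2 * cf (φ k) (m + 1) t ^ p * (d k t * E k t) := by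
        calc ε * (sg (φ k) t ^ qk (nn k)) * (d k t * E k t) =
              ε * (sg (φ k) t ^ qk (nn k) * (d k t * E k t)) := by ring
          _ ≤ ε * (2 * d k 0) := mul_le_mul_of_nonneg_left e5 hε.le
          _ = 2 * (ε * d k 0) := by ring
          _ ≤ 2 * (d k t * (cf (φ k) (m + 1) t ^ p * E k t)) := by linarith
          _ = _ := by ring
      exact le_of_mul_le_mul_right h1 (mul_pos hdt (hEp k t))
    have e7 : 2 / ε ≤ 2 ^ p := by
      have h1 : (k : ℝ) ≤ (p : ℝ) * ((m : ℝ) + 1) := by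
        have : k ≤ p * (m + 1) := by
          rw [hpm]
          exact (hs.nge k).trans (qk_ge (nn k))
        exact_mod_cast this
      have h2 : (2 / ε) ≤ (p : ℝ) := by
        have h3 : (0 : ℝ) < (m : ℝ) + 1 := by positivity
        exact le_of_mul_le_mul_right (e4.trans h1) h3
      have h4 : (p : ℝ) ≤ 2 ^ p := by
        have := (Nat.lt_two_pow_self (n := p)).le
        exact_mod_cast this
      exact h2.trans h4
    have e8 : (sg (φ k) t ^ (m + 1)) ^ p ≤ (2 * cf (φ k) (m + 1) t) ^ p := by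
      rw [← pow_mul, mul_comm (m + 1), hpm, mul_pow]
      have h1 : sg (φ k) t ^ qk (nn k) ≤ 2 / ε * cf (φ k) (m + 1) t ^ p := by
        rw [div_mul_eq_mul_div, le_div_iff₀ hε]
        linarith
      exact h1.trans (mul_le_mul_of_nonneg_right e7 (pow_nonneg (cf_nonneg _ _) _))
    have hp0 : p ≠ 0 := by
      intro h0
      rw [h0, zero_mul] at hpm
      unfold qk at hpm
      have := Nat.factorial_pos (nn k + 1)
      omega
    exact le_of_pow_le_pow_left₀ hp0 (mul_nonneg (by norm_num) (cf_nonneg _ _)) e8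
  have hlimcf : ∀ t, Tendsto (fun k => 2 * cf (φ k) (m + 1) t) UU (𝓝 (2 * cf Φ (m + 1) t)) :=
    fun t => ((it_lim_l (fun L => (hs.dscL L).mono fun _ h => h.dif) hΦc (m + 1) t).norm.div_const
      _).const_mul 2
  have hlimd : ∀ t, Tendsto (fun k => ‖deriv (φ k) t‖ ^ (m + 1)) UU (𝓝 (‖deriv Φ t‖ ^ (m + 1))) := by
    intro t
    have := it_lim_l (fun L => (hs.dscL L).mono fun _ h => h.dif) hΦc 1 t
    simp only [iteratedDeriv_one] at this
    exact this.norm.pow _
  have hlow : ∀ t, ∀ᶠ k in (UU : Filter ℕ), (1 / (4 * (1 + ‖t‖))) ≤ sg (φ k) t := by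
    intro t
    filter_upwards [uu_ge (‖t‖ + 4 * (‖t‖ + 1))] with k hk
    rw [add_comm 1 ‖t‖]
    exact sg_low (hs.dsc k).dif (hs.s0 k) (norm_nonneg t) (by linarith) le_rfl
  have hgen : ∀ᶠ t in codiscrete ℂ, ‖deriv Φ t‖ ^ (m + 1) ≤ 2 * cf Φ (m + 1) t ∧
      (1 / (4 * (1 + ‖t‖))) ^ (m + 1) ≤ 2 * cf Φ (m + 1) t := by
    filter_upwards [hkey] with t ht
    constructor
    · refine le_of_tendsto_of_tendsto (hlimd t) (hlimcf t) ?_
      filter_upwards [ht, hs.dscL (‖t‖ + 1)] with k hk hd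
      exact (pow_le_pow_left₀ (norm_nonneg _) (deriv_le_sg_l (hd.dif.mono ball_sub_l)
        (by linarith)) _).trans hk
    · refine ge_of_tendsto (hlimcf t) ?_
      filter_upwards [ht, hlow t] with k hk hl
      exact (pow_le_pow_left₀ (by positivity) hl _).trans hk
  have hccf : Continuous fun t => 2 * cf Φ (m + 1) t :=
    (((diff_it hΦ (m + 1)).continuous.norm).div_const _).const_mul 2
  have hcd : Continuous fun t => ‖deriv Φ t‖ ^ (m + 1) := by
    have : Differentiable ℂ (deriv Φ) := fun z => (hΦ.analyticAt z).deriv.differentiableAt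
    exact this.continuous.norm.pow _
  have hcl : Continuous fun t : ℂ => (1 / (4 * (1 + ‖t‖))) ^ (m + 1) := by
    apply Continuous.pow
    apply Continuous.div (by fun_prop) (by fun_prop)
    intro t
    positivity
  apply affine_of hΦ (m := m)
  · intro t
    refine le_of_tendsto_of_tendsto (hcd.continuousAt.mono_left nhdsWithin_le_nhds)
      (hccf.continuousAt.mono_left nhdsWithin_le_nhds) (f := fun t => ‖deriv Φ t‖ ^ (m + 1))
      (g := fun t => 2 * cf Φ (m + 1) t) (b := 𝓝[≠] t) ?_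
    filter_upwards [codis_ev hgen t] with z hz
    exact hz.1
  · intro t
    refine le_of_tendsto_of_tendsto (hcl.continuousAt.mono_left nhdsWithin_le_nhds)
      (hccf.continuousAt.mono_left nhdsWithin_le_nhds)
      (f := fun t : ℂ => (1 / (4 * (1 + ‖t‖))) ^ (m + 1))
      (g := fun t => 2 * cf Φ (m + 1) t) (b := 𝓝[≠] t) ?_
    filter_upwards [codis_ev hgen t] with z hz
    exact hz.2


theorem Ek_le_l (hT : TD T Λ a) (hs : SQl T Λ a e D nn b h φ) (he : ∀ j, e j ∈ S0 T Λ a)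
    (i : Fin r) (k : ℕ) : Ek e h φ i k 0 ≤ 2 ^ r := by
  have h0B : (0 : ℂ) ∈ ball (0 : ℂ) ((k : ℝ) + 1) := mem_ball_self (by positivity)
  set t : ℂ := 0
  unfold Ek
  calc ∏ j ∈ Finset.univ.erase i, ‖h k t - e j (φ k t)‖ ≤
        ∏ _j ∈ Finset.univ.erase i, (2 : ℝ) := by
        refine Finset.prod_le_prod (fun _ _ => norm_nonneg _) fun j _ => ?_
        have := (norm_sub_le (h k t) (e j (φ k t))).trans (add_le_add
          (norm_phi_le (hT.sub ((hs.dsc k).mem t h0B))) (norm_phi_le (hT.sub ((he j).2.1 (φ k t)))))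
        linarith
    _ = 2 ^ (Finset.univ.erase i).card := by rw [Finset.prod_const]
    _ ≤ 2 ^ r := by
        apply pow_le_pow_right₀ (by norm_num)
        refine (Finset.card_le_univ _).trans ?_
        rw [Fintype.card_fin]

/-- **No rescaled sequences** -/
theorem SQl.false (hT : TD T Λ a) (hG : GD T Λ a η) (hs : SQl T Λ a e D nn b h φ)
    (he : ∀ j, e j ∈ S0 T Λ a) (hinj : Function.Injective e)
    (hsurj : ∀ g ∈ S0 T Λ a, ∃ j, e j = g) {κ0 : ℕ} (hκ : 0 < κ0)
    (hper : ∀ j, ∀ l ∈ Λ, ∀ z, e j (z + κ0 * l) = e j z) (hC0 : 0 < C) (hCe : GE T Λ a C)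
    (hC : GEl T Λ a C) : False := by
  obtain ⟨m, hm⟩ := hs.coef he hC0 hC
  obtain ⟨Φ, H, hΦ, hΦc, hH, hHT, hHc, hHo⟩ := hs.lim hT he hC0 hC
  obtain ⟨α, β, hα, hΦa⟩ := hs.aff hT he hm hΦ hΦc hHT hHc
  -- the limit is one of the curves
  have hPS : (fun s => H ((s - β) / α)) ∈ S0 T Λ a := by
    refine ⟨holP_comp hH (by fun_prop), fun z => hHT _, fun z => ?_⟩
    have h1 := hHo ((z - β) / α)
    rw [hΦa, mul_div_cancel₀ _ hα, sub_add_cancel] at h1
    exact h1
  obtain ⟨i, hi⟩ := hsurj _ hPS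
  have hHe : ∀ t, H t = e i (Φ t) := by
    intro t
    rw [hi]
    simp only
    rw [hΦa, add_sub_cancel_right, mul_div_cancel_left₀ _ hα]
  set ρ0 : ℝ := 1 / (8 * (N + 1) * (C + 1)) with hρ0
  have hρ0pos : 0 < ρ0 := by positivity
  set η0 : ℝ := 1 / (8 * (N + 1)) with hη0
  have hη0pos : 0 < η0 := by positivity
  obtain ⟨ε, hε, hcirc⟩ := circles hT (fun j => (he j).1) hinj hκ hper i hρ0pos
  have hkm : ∀ᶠ k : ℕ in (UU : Filter ℕ), m ≤ nn k := by
    filter_upwards [uu_ge (m : ℝ)] with k hk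
    exact (by exact_mod_cast hk : m ≤ k).trans (hs.nge k)
  have hprod : ∀ k t, ∏ j, ‖h k t - e j (φ k t)‖ = ‖h k t - e i (φ k t)‖ * Ek e h φ i k t := by
    intro k t
    exact (Finset.mul_prod_erase Finset.univ (fun j => ‖h k t - e j (φ k t)‖)
      (Finset.mem_univ i)).symm
  have hx0 : ∀ k, 0 < ‖h k 0 - e i (φ k 0)‖ := by
    intro k
    have h1 := hs.d0 k
    rw [hprod] at h1
    rcases (norm_nonneg (h k 0 - e i (φ k 0))).eq_or_lt with h2 | h2
    · rw [← h2, zero_mul] at h1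
      exact absurd h1 (lt_irrefl _)
    · exact h2
  set wt : ℕ → ℂ → ℂ := fun k t => 2 * Wl nn b φ m k t / (‖h k 0 - e i (φ k 0)‖ : ℝ) with hwt
  have hwtn : ∀ k t, ‖wt k t‖ = 2 * ‖Wl nn b φ m k t‖ / ‖h k 0 - e i (φ k 0)‖ := by
    intro k t
    rw [hwt]
    simp only
    rw [norm_div, norm_mul, Complex.norm_real, norm_norm]
    norm_num
  have hwtd : ∀ L : ℝ, ∀ᶠ k in (UU : Filter ℕ), DifferentiableOn ℂ (wt k) (ball 0 L) := by
    intro L
    filter_upwards [hs.dscL L] with k hk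
    have := diff_Wl (nn := nn) (b := b) hk.dif m
    rw [hwt]
    exact (this.const_mul 2).div_const _
  have hosc : 2 * N * (C * ρ0 + 2 * η0) ≤ 1 := by
    rw [hρ0, hη0]
    have h1 : C * (1 / (8 * (N + 1) * (C + 1))) ≤ 1 / (8 * ((N : ℝ) + 1)) := by
      rw [mul_one_div, div_le_div_iff₀ (by positivity) (by positivity)]
      have : (0 : ℝ) ≤ N := Nat.cast_nonneg N
      nlinarith
    have h2 : 2 * (N : ℝ) * (1 / (8 * ((N : ℝ) + 1)) + 2 * (1 / (8 * ((N : ℝ) + 1)))) ≤ 1 := by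
      have : 2 * (N : ℝ) * (1 / (8 * ((N : ℝ) + 1)) + 2 * (1 / (8 * ((N : ℝ) + 1)))) =
          6 * N / (8 * (N + 1)) := by
        field_simp
        ring
      rw [this, div_le_one (by positivity)]
      have : (0 : ℝ) ≤ N := Nat.cast_nonneg N
      linarith
    refine le_trans ?_ h2
    gcongr
  -- the uniform bound
  have hbound : ∀ L : ℝ, ∀ᶠ k in (UU : Filter ℕ), ∀ z ∈ closedBall (0 : ℂ) L,
      ‖h k z - e i (φ k z)‖ * ‖wt k z‖ ≤ KN N ^ 1 * (KN N ^ 1 * (8 * 2 ^ r / ε)) := by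
    intro L
    set L' : ℝ := |L| + ρ0 / ‖α‖ with hL'
    have hαn : 0 < ‖α‖ := norm_pos_iff.2 hα
    filter_upwards [hkm, uu_ge L', hs.dscL (L' + 1),
      CConv.unif (Ek_conv he hΦc hHc hHe) (isCompact_closedBall (0 : ℂ) L') (half_pos hε),
      CConv.unif hHc (isCompact_closedBall (0 : ℂ) L') hη0pos,
      CConv.unif (e_conv he hΦc i) (isCompact_closedBall (0 : ℂ) L') hη0pos]
      with k hk hkL hdk hEk hHk hek z hz
    obtain ⟨ρ, hρ, hρρ, hcir⟩ := hcirc (Φ z)
    have hz' : ‖z‖ ≤ |L| := (mem_closedBall_zero_iff.1 hz).trans (le_abs_self L)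
    have hρ' : 0 < ρ / ‖α‖ := by positivity
    have hsub : ∀ t ∈ closedBall z (ρ / ‖α‖), t ∈ closedBall (0 : ℂ) L' := by
      intro t ht
      rw [mem_closedBall, dist_eq_norm] at ht
      rw [mem_closedBall_zero_iff, hL']
      have h1 := norm_add_le (t - z) z
      rw [sub_add_cancel] at h1
      have h2 : ρ / ‖α‖ ≤ ρ0 / ‖α‖ := by gcongr
      linarith
    have hz'' : z ∈ closedBall (0 : ℂ) L' := hsub z (mem_closedBall_self hρ'.le)
    have hΦd : ∀ t, ‖Φ t - Φ z‖ = ‖α‖ * ‖t - z‖ := by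
      intro t
      rw [hΦa t, hΦa z, ← norm_mul]
      congr 1
      ring
    have hlip : ∀ t ∈ closedBall z (ρ / ‖α‖), ‖e i (Φ t) - e i (Φ z)‖ ≤ C * ρ0 := by
      intro t ht
      rw [mem_closedBall, dist_eq_norm] at ht
      refine (S0_lip hC0 hCe (he i) _ _).trans (mul_le_mul_of_nonneg_left ?_ hC0.le)
      rw [hΦd]
      rw [le_div_iff₀ hαn] at ht
      linarith
    have hoscX : ∀ {X : ℂ → Mat N}, (∀ t ∈ closedBall (0 : ℂ) L', ‖X t - e i (Φ t)‖ < η0) →
        ∀ t ∈ closedBall z (ρ / ‖α‖), 2 * N * ‖X t - X z‖ ≤ 1 := by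
      intro X hX t ht
      have h1 := hX t (hsub t ht)
      have h2 := hX z hz''
      have h3 := hlip t ht
      have h4 : ‖X t - X z‖ ≤ C * ρ0 + 2 * η0 := by
        have e1 : X t - X z = (X t - e i (Φ t)) + (e i (Φ t) - e i (Φ z)) - (X z - e i (Φ z)) := by
          abel
        rw [e1]
        refine (norm_sub_le _ _).trans ?_
        have := norm_add_le (X t - e i (Φ t)) (e i (Φ t) - e i (Φ z))
        linarith
      exact (mul_le_mul_of_nonneg_left h4 (by positivity)).trans hosc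
    have h1 := locmax_l (r := 1) (P := h k) (Q := fun _ t => e i (φ k t)) hdk.hol
      (fun _ => (hdk.curve (he i)).hol) hρ' (fun t ht => by
        have := mem_closedBall_zero_iff.1 (hsub t ht)
        exact mem_ball_zero_iff.2 (by linarith)) (hoscX (X := h k) (fun t ht => by
        rw [← hHe]
        exact hHk t ht)) (fun _ => hoscX (X := fun t => e i (φ k t)) hek) (G := wt k)
      (fun t ht => by
        have h3 := mem_closedBall_zero_iff.1 (hsub t ht)
        have h4 : DifferentiableOn ℂ (wt k) (ball 0 (L' + 1)) := by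
          have := diff_Wl (nn := nn) (b := b) hdk.dif m
          rw [hwt]
          exact (this.const_mul 2).div_const _
        exact h4.differentiableAt (isOpen_ball.mem_nhds (mem_ball_zero_iff.2 (by linarith))))
      (B := 8 * 2 ^ r / ε) (by
        intro t ht
        have ht' := hsub t (sphere_subset_closedBall ht)
        have hEt : ε / 2 ≤ Ek e h φ i k t := by
          have h2 := hEk t ht'
          have h3 := hcir (Φ t) (by
            rw [mem_sphere, dist_eq_norm, hΦd]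
            rw [mem_sphere, dist_eq_norm] at ht
            rw [ht]
            field_simp)
          rw [Real.norm_eq_abs, abs_lt] at h2
          linarith [h2.1]
        have hb := hs.bW (qk_dvd hk) ((mem_closedBall_zero_iff.1 ht').trans hkL)
        have hb' : ‖Wl nn b φ m k t‖ * (∏ j, ‖h k t - e j (φ k t)‖) ≤
            2 * ∏ j, ‖h k 0 - e j (φ k 0)‖ := by
          rw [norm_Wl]
          refine le_trans (le_of_eq ?_) hb
          ring
        rw [hprod, hprod] at hb'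
        have hb := hb'
        have hE0 := Ek_le_l hT hs he i k
        simp only [Finset.univ_unique, Finset.prod_singleton]
        rw [hwtn, ← mul_div_assoc, div_le_div_iff₀ (hx0 k) hε]
        set x := ‖h k t - e i (φ k t)‖ with hx
        set x0 := ‖h k 0 - e i (φ k 0)‖ with hx0def
        have hxn : 0 ≤ x := norm_nonneg _
        have hWn : 0 ≤ ‖Wl nn b φ m k t‖ := norm_nonneg _
        have h2 : ‖Wl nn b φ m k t‖ * (x * (ε / 2)) ≤ 2 * (x0 * 2 ^ r) := by
          calc ‖Wl nn b φ m k t‖ * (x * (ε / 2)) ≤ ‖Wl nn b φ m k t‖ * (x * Ek e h φ i k t) := by gcongr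
            _ ≤ 2 * (x0 * Ek e h φ i k 0) := hb
            _ ≤ 2 * (x0 * 2 ^ r) := by
              have := (hx0 k).le
              gcongr
        linarith)
    simp only [Finset.univ_unique, Finset.prod_singleton] at h1
    exact h1
  have hRD : RDl T Λ a UU (e i) Φ C (KN N ^ 1 * (KN N ^ 1 * (8 * 2 ^ r / ε)))
      (fun k t => e i (φ k t)) h φ wt :=
    { hg := (he i).1
      gT := (he i).2.1
      gov := (he i).2.2
      gB := S0_grad hC0 hCe (he i)
      Φd := hΦ
      hP := fun L => (hs.dscL L).mono fun _ h => h.curve (he i)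
      hQ := hs.dscL
      wtd := hwtd
      cP := e_conv he hΦc i
      cQ := by
        have : (fun z => e i (Φ z)) = H := funext fun z => (hHe z).symm
        rw [this]
        exact hHc
      bd := hbound }
  have h1 := rigid_l hT hG hRD (by
    filter_upwards [hm, hkm] with k h1 h2
    have h3 := h1 _ (qk_dvd h2)
    rw [hwtn, mul_div_cancel₀ _ (hx0 k).ne', norm_Wl, mul_zero, Complex.exp_zero, norm_one,
      mul_one]
    linarith) 1
  rw [hΦa, hΦa, mul_one, mul_zero, zero_add, add_eq_right] at h1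
  exact hα h1


end Pool.Agent.N154.GG
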