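import Mathlib

/-! Iteration of the contraction with exponential weights. -/

set_option autoImplicit false

open Filter Topology Metric Set

namespace Pool.Agent.N154.GG

theorem weight_zero {u : ℂ → ℝ} {A R M : ℝ} (hR : 0 < R)
    (h0 : ∀ z : ℂ, z.re ≤ -A + R → 0 ≤ u z) (hM : ∀ z : ℂ, z.re ≤ -A + R → u z ≤ M)
    (hstep : ∀ b : ℝ, 0 ≤ b → ∀ z : ℂ, z.re ≤ -A → ∃ w : ℂ, ‖w - z‖ ≤ R ∧
      2 * u z ≤ u w * Real.exp (-b * (w.re - z.re))) :
    ∀ z : ℂ, z.re < -A → u z = 0 := by
  set κ : ℝ := 1 / (2 * R) with hκ
  have hκ0 : 0 < κ := by positivity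
  have hκR : κ * R = 1 / 2 := by
    rw [hκ]
    field_simp
  have hM0 : 0 ≤ M := (h0 (-A : ℝ) (by simp only [Complex.ofReal_re]; linarith)).trans
    (hM (-A : ℝ) (by simp only [Complex.ofReal_re]; linarith))
  set θ : ℝ := Real.exp (1 / 2) / 2 with hθ
  have hθ0 : 0 < θ := by positivity
  have hθ1 : θ < 1 := by
    have h1 : Real.exp (1 / 2) < 2 := by
      have h2 : Real.exp (1 / 2) ^ 2 = Real.exp 1 := by
        rw [← Real.exp_nat_mul]
        norm_num
      have h3 := Real.exp_one_lt_d9
      nlinarith [Real.exp_pos (1 / 2)]
    rw [hθ]
    linarith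
  have key : ∀ m : ℕ, ∀ z : ℂ, z.re ≤ -A → u z ≤ M * Real.exp (m * κ * (A + z.re)) := by
    intro m
    induction m with
    | zero =>
      intro z hz
      rw [Nat.cast_zero, zero_mul, zero_mul, Real.exp_zero, mul_one]
      exact hM z (by linarith)
    | succ m ih =>
      have hstep' := hstep ((m + 1) * κ) (by positivity)
      have hn : ∀ n : ℕ, ∀ z : ℂ, z.re ≤ -A →
          u z * Real.exp (-((m + 1) * κ * (A + z.re))) ≤
            M * (1 + θ ^ n * Real.exp (-(κ * (A + z.re)))) := by
        intro n
        induction n with
        | zero =>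
          intro z hz
          have h1 := mul_le_mul_of_nonneg_right (ih z hz)
            (Real.exp_pos (-((m + 1) * κ * (A + z.re)))).le
          rw [mul_assoc M, ← Real.exp_add] at h1
          have h2 : (m : ℝ) * κ * (A + z.re) + -((m + 1) * κ * (A + z.re)) =
              -(κ * (A + z.re)) := by ring
          rw [h2] at h1
          rw [pow_zero, one_mul]
          refine h1.trans (mul_le_mul_of_nonneg_left (by linarith) hM0)
        | succ n ihn =>
          intro z hz
          obtain ⟨w, hw1, hw2⟩ := hstep' z hz
          have hre : |w.re - z.re| ≤ R := by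
            rw [← Complex.sub_re]
            exact (Complex.abs_re_le_norm _).trans hw1
          rw [abs_le] at hre
          have e1 : u z * Real.exp (-((m + 1) * κ * (A + z.re))) ≤
              (u w * Real.exp (-((m + 1) * κ * (A + w.re)))) / 2 := by
            have h1 := mul_le_mul_of_nonneg_right hw2
              (Real.exp_pos (-((m + 1) * κ * (A + z.re)))).le
            rw [mul_assoc (u w), ← Real.exp_add] at h1
            have h2 : -(((m : ℝ) + 1) * κ) * (w.re - z.re) + -((m + 1) * κ * (A + z.re)) =
                -((m + 1) * κ * (A + w.re)) := by ring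
            rw [h2] at h1
            linarith
          refine e1.trans ?_
          rcases le_or_gt w.re (-A) with hwA | hwA
          · have h1 := ihn w hwA
            have h2 : Real.exp (-(κ * (A + w.re))) ≤
                Real.exp (1 / 2) * Real.exp (-(κ * (A + z.re))) := by
              rw [← Real.exp_add]
              apply Real.exp_le_exp.2
              rw [← hκR]
              nlinarith
            have h3 : θ ^ n * Real.exp (-(κ * (A + w.re))) ≤
                θ ^ n * (Real.exp (1 / 2) * Real.exp (-(κ * (A + z.re)))) :=
              mul_le_mul_of_nonneg_left h2 (by positivity)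
            have h4 : θ ^ (n + 1) * Real.exp (-(κ * (A + z.re))) =
                θ ^ n * (Real.exp (1 / 2) * Real.exp (-(κ * (A + z.re)))) / 2 := by
              rw [pow_succ, hθ]
              ring
            rw [h4]
            have h5 : M * (1 + θ ^ n * Real.exp (-(κ * (A + w.re)))) ≤
                M * (1 + θ ^ n * (Real.exp (1 / 2) * Real.exp (-(κ * (A + z.re))))) :=
              mul_le_mul_of_nonneg_left (by linarith) hM0
            have h6 : u w * Real.exp (-((m + 1) * κ * (A + w.re))) / 2 ≤
                M * (1 + θ ^ n * (Real.exp (1 / 2) * Real.exp (-(κ * (A + z.re))))) / 2 := by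
              linarith
            refine h6.trans ?_
            nlinarith
          · have h1 : u w * Real.exp (-((m + 1) * κ * (A + w.re))) ≤ M := by
              have h2 := hM w (by linarith)
              have h3 := h0 w (by linarith)
              have h4 : Real.exp (-((m + 1) * κ * (A + w.re))) ≤ 1 := by
                rw [Real.exp_le_one_iff]
                have : 0 ≤ ((m : ℝ) + 1) * κ * (A + w.re) := by
                  apply mul_nonneg (by positivity)
                  linarith
                linarith
              calc _ ≤ u w * 1 := mul_le_mul_of_nonneg_left h4 h3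
                _ ≤ M := by linarith
            have h5 : 0 ≤ θ ^ (n + 1) * Real.exp (-(κ * (A + z.re))) := by positivity
            nlinarith
      intro z hz
      have hlim : Tendsto (fun n : ℕ => M * (1 + θ ^ n * Real.exp (-(κ * (A + z.re))))) atTop
          (𝓝 (M * (1 + 0 * Real.exp (-(κ * (A + z.re)))))) :=
        (((tendsto_pow_atTop_nhds_zero_of_lt_one hθ0.le hθ1).mul_const _).const_add _).const_mul _
      have h1 := ge_of_tendsto' hlim fun n => hn n z hz
      rw [zero_mul, add_zero, mul_one] at h1
      have h2 := mul_le_mul_of_nonneg_right h1 (Real.exp_pos ((m + 1) * κ * (A + z.re))).le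
      rw [mul_assoc (u z), ← Real.exp_add, neg_add_cancel, Real.exp_zero, mul_one] at h2
      push_cast
      exact h2
  intro z hz
  have hlim : Tendsto (fun m : ℕ => M * Real.exp (κ * (A + z.re)) ^ m) atTop (𝓝 (M * 0)) := by
    apply Tendsto.const_mul
    apply tendsto_pow_atTop_nhds_zero_of_lt_one (Real.exp_pos _).le
    rw [Real.exp_lt_one_iff]
    exact mul_neg_of_pos_of_neg hκ0 (by linarith)
  have h1 := ge_of_tendsto' hlim fun m => by
    have := key m z hz.le
    rwa [mul_assoc, Real.exp_nat_mul] at this
  rw [mul_zero] at h1
  exact le_antisymm h1 (h0 z (by linarith))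

end Pool.Agent.N154.GG
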