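import Pool.Agent.N154.DD.Per

/-! The big Picard theorem, for curves in compact sets of projection matrices. -/

set_option autoImplicit false

open Filter Topology Metric Set

namespace Pool.Agent.N154.GG

open Pool.Agent.Y190.OP Pool.Agent.N155

variable {N : ℕ} {T : Set (Mat N)} {Λ : AddSubgroup ℂ} {a : Mat N → ℂ} {κ : Type}
    {η : κ → (Fin N → ℂ) → (Fin N → ℂ) → (Fin N → ℂ) → ℂ}
    {r : ℕ} {e : Fin r → ℂ → Mat N}

/-- a local dichotomy is a global dichotomy -/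
theorem dich_on {U : Set ℂ} (hU : IsOpen U) (hc : IsPreconnected U) {p : ℂ → Prop}
    (h : ∀ z ∈ U, (∀ᶠ w in 𝓝 z, p w) ∨ (∀ᶠ w in 𝓝[≠] z, ¬ p w)) :
    (∀ z ∈ U, p z) ∨ ∀ z ∈ U, ∀ᶠ w in 𝓝[≠] z, ¬ p w := by
  by_contra hcon
  push Not at hcon
  obtain ⟨⟨z1, hz1, hz1'⟩, ⟨z2, hz2, hz2'⟩⟩ := hcon
  set A : Set ℂ := {z | ∀ᶠ w in 𝓝 z, p w} with hA
  have hAo : IsOpen A := isOpen_setOfPred_eventually_nhds
  set B : Set ℂ := {z | ∀ᶠ w in 𝓝[≠] z, ¬ p w} ∩ U with hB
  have hBo : IsOpen B := by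
    rw [isOpen_iff_mem_nhds]
    rintro z ⟨hz, hzU⟩
    have h1 : ∀ᶠ w in 𝓝[≠] z, ¬ p w := hz
    have h2 : ∀ᶠ w in 𝓝[≠] z, w ∈ {z | ∀ᶠ w in 𝓝[≠] z, ¬ p w} := by
      rw [← eventually_eventually_nhdsWithin] at h1
      filter_upwards [h1, self_mem_nhdsWithin] with w hw hwz
      have h3 : ∀ᶠ v in 𝓝 w, ¬ p v := by
        rwa [IsOpen.nhdsWithin_eq isOpen_compl_singleton hwz] at hw
      exact h3.filter_mono nhdsWithin_le_nhds
    rw [eventually_nhdsWithin_iff] at h2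
    filter_upwards [h2, hU.mem_nhds hzU] with w hw hwU
    by_cases hwz : w = z
    · rw [hwz]
      exact ⟨hz, hzU⟩
    · exact ⟨hw hwz, hwU⟩
  obtain ⟨x, hxU, hxA, hxB⟩ := hc A B hAo hBo (fun x hx => by
    rcases h x hx with h1 | h1
    · exact Or.inl h1
    · exact Or.inr ⟨h1, hx⟩) ⟨z2, hz2, (h z2 hz2).resolve_right (by
      intro h1
      exact hz2' h1)⟩ ⟨z1, hz1, (h z1 hz1).resolve_left (fun h1 => hz1' h1.self_of_nhds), hz1⟩
  have h1 : ∀ᶠ w in 𝓝 x, p w := hxA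
  have h2 : ∀ᶠ w in 𝓝[≠] x, ¬ p w := hxB.1
  obtain ⟨w, hw1, hw2⟩ := (h2.and (h1.filter_mono nhdsWithin_le_nhds)).exists
  exact hw1 hw2

/-- the identity theorem -/
theorem holP_dich_on {U : Set ℂ} (hU : IsOpen U) (hc : IsPreconnected U) {φ ψ : ℂ → Mat N}
    (hφ : HolP U φ) (hψ : HolP U ψ) :
    (∀ z ∈ U, φ z = ψ z) ∨ ∀ z ∈ U, ∀ᶠ w in 𝓝[≠] z, ¬ φ w = ψ w := by
  apply dich_on hU hc
  intro z hzU
  obtain ⟨V, f, hV, hzV, hd, hf⟩ := hφ z hzU
  obtain ⟨V', g, hV', hzV', hd', hg⟩ := hψ z hzU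
  have hiff : ∀ᶠ w in 𝓝 z, (φ w = ψ w ↔ ∀ j k, f w j * g w k = f w k * g w j) := by
    filter_upwards [hV.mem_nhds hzV, hV'.mem_nhds hzV'] with w hw hw'
    rw [(hf w hw).2, (hg w hw').2]
    exact Phi_eq_iff (hf w hw).1 (hg w hw').1
  have han : ∀ j k, AnalyticAt ℂ (fun w => f w j * g w k - f w k * g w j) z := by
    intro j k
    have h1 : ∀ j, AnalyticAt ℂ (fun w => f w j) z := fun j =>
      ((differentiableOn_pi.1 hd) j).analyticAt (hV.mem_nhds hzV)
    have h2 : ∀ j, AnalyticAt ℂ (fun w => g w j) z := fun j =>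
      ((differentiableOn_pi.1 hd') j).analyticAt (hV'.mem_nhds hzV')
    exact ((h1 j).mul (h2 k)).sub ((h1 k).mul (h2 j))
  by_cases hall : ∀ j k, ∀ᶠ w in 𝓝 z, f w j * g w k - f w k * g w j = 0
  · left
    have h1 : ∀ᶠ w in 𝓝 z, ∀ j k, f w j * g w k - f w k * g w j = 0 := by
      rw [eventually_all]
      intro j
      rw [eventually_all]
      exact hall j
    filter_upwards [hiff, h1] with w hw1 hw2
    exact hw1.2 fun j k => sub_eq_zero.1 (hw2 j k)
  · right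
    push Not at hall
    obtain ⟨j, k, hjk⟩ := hall
    have h1 := ((han j k).eventually_eq_zero_or_eventually_ne_zero).resolve_left (by
      intro h
      exact (Filter.not_eventually.2 (by simpa using hjk)) h)
    filter_upwards [h1, hiff.filter_mono nhdsWithin_le_nhds] with w hw1 hw2 hw3
    exact hw1 (sub_eq_zero.2 (hw2.1 hw3 j k))

variable {P : ℂ → Mat N} {φ : ℂ → ℂ}

/-- if the scale does not tend to zero then the curve is contained in the exceptional set -/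
theorem PD.factor (hT : TD T Λ a) (hf : Fib T Λ a) (hG : GD T Λ a η) (hE : En T Λ a e)
    (h : PD T Λ a P φ) {c A : ℝ} (hc : 0 < c) (hA : 0 < A)
    (hcA : ∀ z : ℂ, z.re ≤ -A → c ≤ sg φ z) : ∃ j, ∀ z ∈ HP, P z = e j (φ z) := by
  classical
  obtain ⟨k1, hk1⟩ := contraction hT hf hG hE
  obtain ⟨k2, hk2⟩ := main_estimate hT hf hG hE
  set k : ℕ := max (max k1 k2) 1 with hk
  have hkk1 : k1 ≤ k := (le_max_left _ _).trans (le_max_left _ _)
  have hkk2 : k2 ≤ k := (le_max_right _ _).trans (le_max_left _ _)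
  have hk11 : 1 ≤ k := le_max_right _ _
  have hk0 : (0 : ℝ) < k := by exact_mod_cast hk11
  have hcon := hk1 k hkk1
  obtain ⟨C, hC, hmain⟩ := hk2 k hkk2
  have h2r : (0 : ℝ) < 2 ^ r := by positivity
  have hqpos : qk k ≠ 0 := by
    unfold qk
    positivity
  have hq0 : 0 < ((qk k : ℕ) : ℝ)⁻¹ := by
    have := Nat.pos_of_ne_zero hqpos
    positivity
  set R : ℝ := k / c with hR
  have hR0 : 0 < R := by positivity
  set B : ℝ := A + (k + 1) / c + R + 1 with hB
  have hB0 : 0 < B := by positivity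
  set u : ℂ → ℝ := fun z => sg φ z ^ qk k * Pr e P φ z with hu
  have hu0 : ∀ z, 0 ≤ u z := fun z => mul_nonneg (pow_nonneg (sg_nn φ z) _) (Pr_nonneg e P φ z)
  have hx0 : ∀ z, 0 ≤ Pr e P φ z / 2 ^ r := fun z => div_nonneg (Pr_nonneg e P φ z) h2r.le
  have huM : ∀ z : ℂ, z.re ≤ -B + R → u z ≤ C ^ qk k * 2 ^ r := by
    intro z hz
    have hz1 : 1 ≤ -z.re := by
      have : 0 < (k + 1 : ℝ) / c := by positivity
      linarith
    have h1 := hmain P φ z (-z.re) (by linarith) (h.dsc z)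
    have h2 : C / -z.re ≤ C := div_le_self hC.le hz1
    have h3 := pow_le_pow_left₀ (mul_nonneg (sg_nn φ z) (Real.rpow_nonneg (hx0 z) _))
      (h1.trans h2) (qk k)
    rw [mul_pow, Real.rpow_inv_natCast_pow (hx0 z) hqpos, ← mul_div_assoc, div_le_iff₀ h2r] at h3
    exact h3
  have hzero := weight_zero (u := u) (A := B) (R := R) (M := C ^ qk k * 2 ^ r) hR0
    (fun z _ => hu0 z) huM (by
      intro b hb z hz
      have hzA : z.re ≤ -A := by
        have : 0 < (k + 1 : ℝ) / c := by positivity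
        linarith
      have hs := hcA z hzA
      have hs0 : 0 < sg φ z := hc.trans_le hs
      obtain ⟨w, hw1, hw2⟩ := hcon P φ z (-z.re) ((-b : ℝ) : ℂ) (h.dsc z) (by
        have h1 : ((k : ℝ) + 1) / c ≤ -z.re := by linarith
        calc (k : ℝ) + 1 = ((k : ℝ) + 1) / c * c := by field_simp
          _ ≤ -z.re * sg φ z := by
              have : 0 ≤ ((k : ℝ) + 1) / c := by positivity
              have h3 : 0 ≤ -z.re := by linarith
              gcongr)
      refine ⟨w, ?_, ?_⟩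
      · rw [hR, le_div_iff₀ hc]
        calc ‖w - z‖ * c ≤ ‖w - z‖ * sg φ z := by gcongr
          _ ≤ k := hw1
      · have h1 : ‖Complex.exp (((-b : ℝ) : ℂ) * (w - z))‖ = Real.exp (-b * (w.re - z.re)) := by
          rw [Complex.norm_exp, Complex.re_ofReal_mul, Complex.sub_re]
        rw [h1] at hw2
        exact hw2)
  -- every point is in the exceptional set
  have hex : ∀ z : ℂ, z.re < -B → ∃ j, P z = e j (φ z) := by
    intro z hz
    have h1 := hzero z hz
    have hs0 : 0 < sg φ z := hc.trans_le (hcA z (by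
      have : 0 < (k + 1 : ℝ) / c := by positivity
      linarith))
    have h2 : Pr e P φ z = 0 := by
      rcases mul_eq_zero.1 h1 with h2 | h2
      · exact absurd h2 (pow_pos hs0 _).ne'
      · exact h2
    obtain ⟨j, -, hj⟩ := Finset.prod_eq_zero_iff.1 h2
    exact ⟨j, sub_eq_zero.1 (norm_eq_zero.1 hj)⟩
  -- the identity theorem
  by_contra hno
  push Not at hno
  have hej : ∀ j, HolP HP (fun z => e j (φ z)) := fun j =>
    holP_comp_l (hE.mem j).1 h.dif isOpen_HP (mapsTo_univ _ _)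
  have hall : ∀ j, ∀ z ∈ HP, ∀ᶠ w in 𝓝[≠] z, ¬ P w = e j (φ w) := by
    intro j
    refine (holP_dich_on isOpen_HP convex_HP.isPreconnected h.hol (hej j)).resolve_left ?_
    intro h1
    obtain ⟨z, hz, hz'⟩ := hno j
    exact hz' (h1 z hz)
  set z1 : ℂ := ((-B - 1 : ℝ) : ℂ) with hz1
  have hz1re : z1.re = -B - 1 := by rw [hz1, Complex.ofReal_re]
  have hz1HP : z1 ∈ HP := by
    change z1.re < 0
    rw [hz1re]
    linarith
  have h1 : ∀ᶠ w in 𝓝[≠] z1, ∀ j, ¬ P w = e j (φ w) := eventually_all.2 fun j => hall j z1 hz1HP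
  have h2 : ∀ᶠ w in 𝓝[≠] z1, w.re < -B := by
    apply Eventually.filter_mono nhdsWithin_le_nhds
    exact Complex.continuous_re.continuousAt.eventually_lt_const (by rw [hz1re]; linarith)
  obtain ⟨w, hw1, hw2⟩ := (h1.and h2).exists
  obtain ⟨j, hj⟩ := hex w hw2
  exact hw1 j hj

/-- **The big Picard theorem** -/
theorem PD.picard (hT : TD T Λ a) (hf : Fib T Λ a) (hG : GD T Λ a η) (hE : En T Λ a e)
    (h : PD T Λ a P φ) :
    (∃ M0 ∈ T, ∀ ε : ℝ, 0 < ε → ∃ A : ℝ, 0 < A ∧ ∀ z : ℂ, z.re ≤ -A → ‖P z - M0‖ ≤ ε) ∨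
      ∃ j, ∀ z ∈ HP, P z = e j (φ z) := by
  rcases h.dich hT with ⟨c, hc, A, hA, h1⟩ | h1
  · exact Or.inr (h.factor hT hf hG hE hc hA h1)
  · left
    obtain ⟨C, hC, hgrad⟩ := gradient_l hT hf
    refine kwack hT.comp hT.sub h.hol h.mem h.per fun ε hε => ?_
    obtain ⟨A, hA, hA'⟩ := h1 (ε / C) (by positivity)
    refine ⟨max A (C / ε), lt_max_of_lt_left hA, fun z hz => ?_⟩
    have hzA : z.re ≤ -A := by
      have := le_max_left A (C / ε)
      linarith
    have hzC : C / ε ≤ -z.re := by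
      have := le_max_right A (C / ε)
      linarith
    have hz0 : 0 < -z.re := by
      have : 0 < C / ε := by positivity
      linarith
    have h2 := hgrad P φ z (-z.re) hz0 (h.dsc z)
    refine h2.trans ?_
    have h3 : max (sg φ z) (1 / -z.re) ≤ ε / C := by
      apply max_le (hA' z hzA)
      rw [div_le_iff₀ hz0]
      rw [div_le_iff₀ hε] at hzC
      rw [div_mul_eq_mul_div, le_div_iff₀ hC]
      linarith
    calc C * max (sg φ z) (1 / -z.re) ≤ C * (ε / C) := mul_le_mul_of_nonneg_left h3 hC.le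
      _ = ε := by field_simp

end Pool.Agent.N154.GG
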