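import Pool.Agent.N154.DD.LB
import Pool.Agent.N154.DD.NZ
import Pool.Agent.N154.DD.Grad
import Pool.Agent.N154.GG.Main2

/-! Rescaled sequences of discs. -/

set_option autoImplicit false

open Filter Topology Metric Set

namespace Pool.Agent.N154.GG

open Pool.Agent.Y190.OP Pool.Agent.N155

variable {N : ℕ} {T : Set (Mat N)} {Λ : AddSubgroup ℂ} {a : Mat N → ℂ}

/-- a rescaled sequence of discs, with weights -/
structure SQl (T : Set (Mat N)) (Λ : AddSubgroup ℂ) (a : Mat N → ℂ) {r : ℕ}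
    (e : Fin r → ℂ → Mat N) (D : ℝ) (nn : ℕ → ℕ) (b : ℕ → ℂ) (h : ℕ → ℂ → Mat N)
    (φ : ℕ → ℂ → ℂ) : Prop where
  nge : ∀ k, k ≤ nn k
  dsc : ∀ k : ℕ, Dsc T Λ a 0 ((k : ℝ) + 1) (h k) (φ k)
  b0 : ∀ k, ‖φ k 0‖ ≤ D
  s0 : ∀ k, sg (φ k) 0 = 1
  d0 : ∀ k, 0 < ∏ j, ‖h k 0 - e j (φ k 0)‖
  bd : ∀ (k : ℕ) (t : ℂ), ‖t‖ ≤ k → sg (φ k) t ^ (qk (nn k)) *
    ((∏ j, ‖h k t - e j (φ k t)‖) * ‖Complex.exp (b k * t)‖) ≤
    2 * ∏ j, ‖h k 0 - e j (φ k 0)‖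

/-- the gradient estimate -/
def GEl (T : Set (Mat N)) (Λ : AddSubgroup ℂ) (a : Mat N → ℂ) (C : ℝ) : Prop :=
  ∀ (P : ℂ → Mat N) (φ : ℂ → ℂ) (z : ℂ) (R : ℝ), 0 < R → Dsc T Λ a z R P φ →
    ‖fderiv ℝ P z‖ ≤ C * max (sg φ z) (1 / R)

variable {r : ℕ} {e : Fin r → ℂ → Mat N} {D C : ℝ} {nn : ℕ → ℕ} {b : ℕ → ℂ}
  {h : ℕ → ℂ → Mat N} {φ : ℕ → ℂ → ℂ}

/-- the curves over the same function -/
theorem Dsc.curve {z : ℂ} {R : ℝ} {P : ℂ → Mat N} {ψ : ℂ → ℂ} (hD : Dsc T Λ a z R P ψ)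
    {g : ℂ → Mat N} (hg : g ∈ S0 T Λ a) : Dsc T Λ a z R (fun t => g (ψ t)) ψ where
  hol := holP_comp_l hg.1 hD.dif isOpen_ball (mapsTo_univ _ _)
  mem := fun _ _ => hg.2.1 _
  dif := hD.dif
  ov := fun w _ => hg.2.2 (ψ w)

/-- the lower bound of the scale -/
theorem sg_low {ψ : ℂ → ℂ} {ρ R : ℝ} (hd : DifferentiableOn ℂ ψ (ball 0 ρ)) (h0 : sg ψ 0 = 1)
    (hR : 0 ≤ R) (hρ : R + 4 * (R + 1) < ρ) {z : ℂ} (hz : ‖z‖ ≤ R) :
    1 / (4 * (R + 1)) ≤ sg ψ z := by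
  set Rz : ℝ := ρ - ‖z‖ with hRz
  have hRz0 : 4 * (R + 1) < Rz := by linarith
  have hRzp : 0 < Rz := by linarith
  set s : ℝ := max (sg ψ z) (1 / Rz) with hs
  have hsp : 0 < s := lt_of_lt_of_le (by positivity) (le_max_right _ _)
  have hRs : 1 ≤ Rz * s := by
    have h1 : 1 / Rz ≤ s := le_max_right _ _
    have h2 := mul_le_mul_of_nonneg_left h1 hRzp.le
    rwa [mul_one_div, div_self hRzp.ne'] at h2
  have hlow : 1 / (4 * (R + 1)) ≤ s := by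
    rcases lt_or_ge 1 (4 * ‖(0 : ℂ) - z‖ * s) with h1 | h1
    · rw [zero_sub, norm_neg] at h1
      rw [div_le_iff₀ (by positivity)]
      nlinarith
    · have h2 := sg_harnack_l (hd.mono ball_sub_l) hsp (le_max_left _ _) hRs h1
      rw [h0] at h2
      rw [div_le_iff₀ (by positivity)]
      nlinarith
  rcases le_total (sg ψ z) (1 / Rz) with h1 | h1
  · exfalso
    have h2 : s = 1 / Rz := max_eq_right h1
    rw [h2] at hlow
    have h3 := one_div_lt_one_div_of_lt (by positivity : (0 : ℝ) < 4 * (R + 1)) hRz0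
    linarith
  · have h2 : s = sg ψ z := max_eq_left h1
    rwa [h2] at hlow

/-- the gradient estimate in the middle of a large disc -/
theorem GEl.mid (hC0 : 0 < C) (hC : GEl T Λ a C) {P : ℂ → Mat N} {ψ : ℂ → ℂ} {ρ R : ℝ}
    (hd : Dsc T Λ a 0 ρ P ψ) (h0 : sg ψ 0 = 1)
    (hR : 0 ≤ R) (hρ : R + 4 * (R + 1) < ρ) {z : ℂ} (hz : ‖z‖ ≤ R) :
    ‖fderiv ℝ P z‖ ≤ C * sg ψ z := by
  have hRz0 : 4 * (R + 1) < ρ - ‖z‖ := by linarith
  have h1 := hC P ψ z (ρ - ‖z‖) (by linarith) (hd.mono ball_sub_l)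
  have h2 := sg_low hd.dif h0 hR hρ hz
  have h3 : 1 / (ρ - ‖z‖) ≤ sg ψ z :=
    (one_div_le_one_div_of_le (by positivity) hRz0.le).trans h2
  rwa [max_eq_left h3] at h1

/-- the Harnack inequality in the middle of a large disc -/
theorem harnack_mid {ψ : ℂ → ℂ} {ρ R : ℝ} (hd : DifferentiableOn ℂ ψ (ball 0 ρ))
    (h0 : sg ψ 0 = 1) (hR : 0 ≤ R) (hρ : R + 4 * (R + 1) < ρ) {z w : ℂ} (hz : ‖z‖ ≤ R)
    (h : 4 * ‖w - z‖ * sg ψ z ≤ 1) : sg ψ w ≤ 4 * sg ψ z := by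
  have hRz0 : 4 * (R + 1) < ρ - ‖z‖ := by linarith
  have h2 := sg_low hd h0 hR hρ hz
  have h2p : 0 < 1 / (4 * (R + 1)) := by positivity
  refine sg_harnack_l (hd.mono ball_sub_l) (h2p.trans_le h2) le_rfl ?_ h
  have h3 : 1 / (4 * (R + 1)) * (4 * (R + 1)) = 1 := by
    field_simp
  nlinarith

theorem SQl.dscL (hs : SQl T Λ a e D nn b h φ) (L : ℝ) :
    ∀ᶠ k in (UU : Filter ℕ), Dsc T Λ a 0 L (h k) (φ k) := by
  filter_upwards [uu_ge L] with k hk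
  exact (hs.dsc k).mono (ball_subset_ball (by linarith))

theorem SQl.LB (hs : SQl T Λ a e D nn b h φ) (he : ∀ j, e j ∈ S0 T Λ a) (hC0 : 0 < C)
    (hC : GEl T Λ a C) (r0 : ℝ) :
    ∃ K : ℝ, ∀ᶠ k in (UU : Filter ℕ), ∀ t : ℂ, ‖t‖ ≤ r0 → sg (φ k) t ≤ K := by
  by_contra hcon
  push Not at hcon
  obtain ⟨S, R, n0, hS, hR, hmR, hmain⟩ := LB_core_l (N := N) (r := r) (m0 := max r0 0 + 3) hC0
    (by linarith [le_max_right r0 0])
  have h1 := hcon S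
  obtain ⟨k, ⟨t, ht, hst⟩, hkR, hkn⟩ := (h1.and ((uu_ge (R + 4 * (R + 1))).and
    (uu_ge (n0 : ℝ)))).exists
  have hm0 : 0 ≤ max r0 0 := le_max_right _ _
  have hmr : r0 ≤ max r0 0 := le_max_left _ _
  have hk1 : R + 4 * (R + 1) < (k : ℝ) + 1 := by linarith
  obtain ⟨t1, ht1, hs1⟩ := sg_max_l (hs.dsc k).dif hS.le hst
    (show ‖t‖ < max r0 0 + 3 - 2 by linarith) (by linarith)
  obtain ⟨t2, ht2, hs2⟩ := sg_max_l (hs.dsc k).dif hS.le hst
    (show ‖t‖ < max r0 0 + 3 by linarith) (by linarith)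
  have hd0 := hs.d0 k
  refine hmain (nn k + 1).factorial ?_ (b k) (h k) (fun j t => e j (φ k t)) (sg (φ k)) t1 t2
    ((hs.dsc k).mono (ball_subset_ball (by linarith))).hol
    (fun j => (((hs.dsc k).curve (he j)).mono (ball_subset_ball (by linarith))).hol) (sg_nn (φ k))
    (fun z w hz hw hh => harnack_mid (hs.dsc k).dif (hs.s0 k) hR.le hk1 hz hh)
    (fun z hz => hC.mid hC0 (hs.dsc k) (hs.s0 k) hR.le hk1 hz)
    (fun j z hz => hC.mid hC0 ((hs.dsc k).curve (he j)) (hs.s0 k) hR.le hk1 hz)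
    (hs.s0 k) (hs.d0 k) ?_ ht1 ht2 hs1 hs2
  · have h2 : n0 ≤ k := by exact_mod_cast hkn
    exact (h2.trans (hs.nge k)).trans ((Nat.le_succ _).trans (Nat.self_le_factorial _))
  · intro t ht
    have h3 := hs.bd k t (by linarith)
    rw [mul_zero, Complex.exp_zero, norm_one, mul_one]
    exact h3

theorem SQl.lim (hT : TD T Λ a) (hs : SQl T Λ a e D nn b h φ) (he : ∀ j, e j ∈ S0 T Λ a)
    (hC0 : 0 < C) (hC : GEl T Λ a C) :
    ∃ (Φ : ℂ → ℂ) (H : ℂ → Mat N), Differentiable ℂ Φ ∧ CConv (UU : Filter ℕ) univ φ Φ ∧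
      HolP univ H ∧ (∀ z, H z ∈ T) ∧ CConv (UU : Filter ℕ) univ h H ∧ Over Λ a H Φ := by
  obtain ⟨Φ, hΦ, hΦc, -⟩ := exists_limit_fun_l (𝓤 := UU) (φ := φ)
    (fun L => (hs.dscL L).mono fun _ h => h.dif)
    ⟨D, Eventually.of_forall hs.b0⟩ (by
      intro L
      obtain ⟨K, hK⟩ := hs.LB he hC0 hC L
      refine ⟨K, ?_⟩
      filter_upwards [hK, hs.dscL L] with k hk hd z hz
      exact (deriv_le_sg_l (hd.dif.mono ball_sub_l) (by
        have := mem_ball_zero_iff.1 hz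
        linarith)).trans (hk z (mem_ball_zero_iff.1 hz).le))
  obtain ⟨H, hH, hHT, hHc, -⟩ := exists_limit_loc_l hT.comp hT.sub (𝓤 := UU) (h := h)
    (fun L => (hs.dscL L).mono fun _ h => h.hol) (fun L => (hs.dscL L).mono fun _ h => h.mem) (by
      intro L
      obtain ⟨K, hK⟩ := hs.LB he hC0 hC (max L 0)
      refine ⟨C * K, ?_⟩
      filter_upwards [hK, uu_ge (max L 0 + 4 * (max L 0 + 1))] with k hk hkL z hz
      have hz' : ‖z‖ ≤ max L 0 := (mem_ball_zero_iff.1 hz).le.trans (le_max_left _ _)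
      exact (hC.mid hC0 (hs.dsc k) (hs.s0 k) (le_max_right L 0) (by linarith) hz').trans
        (mul_le_mul_of_nonneg_left (hk z hz') hC0.le))
  refine ⟨Φ, H, hΦ, hΦc, hH, hHT, hHc, fun z => ?_⟩
  have hz : ∀ᶠ n in (UU : Filter ℕ), h n z ∈ T ∧ φ n z - a (h n z) ∈ Λ := by
    filter_upwards [hs.dscL (‖z‖ + 1)] with n hn
    have hzb : z ∈ ball (0 : ℂ) (‖z‖ + 1) := mem_ball_zero_iff.2 (by linarith)
    exact ⟨hn.mem z hzb, hn.ov z hzb⟩
  exact hT.lim (l := (UU : Filter ℕ)) (hz.mono fun _ h => h.1)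
    (hHc.pointwise (mem_univ z)) (hHT z) (hz.mono fun _ h => h.2)
    (hΦc.pointwise (mem_univ z))

/-- the limits of the derivatives -/
theorem it_lim_l {Φ : ℂ → ℂ}
    (hd : ∀ L : ℝ, ∀ᶠ k in (UU : Filter ℕ), DifferentiableOn ℂ (φ k) (ball 0 L))
    (hc : CConv (UU : Filter ℕ) univ φ Φ) (m : ℕ) (z : ℂ) :
    Tendsto (fun k => iteratedDeriv m (φ k) z) UU (𝓝 (iteratedDeriv m Φ z)) := by
  have h0 : TendstoLocallyUniformlyOn φ Φ (UU : Filter ℕ) (ball 0 (‖z‖ + 1)) :=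
    (hc.locUnif isOpen_univ).mono (subset_univ _)
  have h1 : ∀ m, TendstoLocallyUniformlyOn (fun k => iteratedDeriv m (φ k)) (iteratedDeriv m Φ)
      (UU : Filter ℕ) (ball 0 (‖z‖ + 1)) := by
    intro m
    induction m with
    | zero =>
      simp only [iteratedDeriv_zero]
      exact h0
    | succ m ih =>
      simp only [iteratedDeriv_succ]
      exact ih.deriv ((hd (‖z‖ + 1)).mono fun k hk => diff_it_l hk m) isOpen_ball
  exact (h1 m).tendsto_at (mem_ball_zero_iff.2 (by linarith))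

/-- the order of the dominating coefficient -/
theorem SQl.coef (hs : SQl T Λ a e D nn b h φ) (he : ∀ j, e j ∈ S0 T Λ a) (hC0 : 0 < C)
    (hC : GEl T Λ a C) :
    ∃ m : ℕ, ∀ᶠ k in (UU : Filter ℕ), ∀ p : ℕ, p * (m + 1) = qk (nn k) →
      1 / 2 ≤ cf (φ k) (m + 1) 0 ^ p := by
  set s : ℕ → ℝ := fun k => (1 / 2 : ℝ) ^ (((qk (nn k) : ℕ) : ℝ)⁻¹) with hsdef
  have hqpos : ∀ k, qk (nn k) ≠ 0 := fun k => by
    unfold qk
    positivity
  have hq1 : ∀ k, (1 : ℝ) ≤ (qk (nn k) : ℝ) := fun k => by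
    exact_mod_cast Nat.one_le_iff_ne_zero.2 (hqpos k)
  have hs0 : ∀ k, 0 ≤ s k := fun k => by positivity
  have hspow : ∀ k, s k ^ (qk (nn k)) = 1 / 2 := fun k =>
    Real.rpow_inv_natCast_pow (by norm_num) (hqpos k)
  have hs1 : ∀ k, s k < 1 := fun k =>
    Real.rpow_lt_one (by norm_num) (by norm_num) (inv_pos.2 (by linarith [hq1 k]))
  have hs2 : ∀ k, 1 / 2 ≤ s k := by
    intro k
    have h1 := Real.rpow_le_rpow_of_exponent_ge (x := 1 / 2) (y := 1)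
      (z := ((qk (nn k) : ℕ) : ℝ)⁻¹) (by norm_num) (by norm_num) (inv_le_one_of_one_le₀ (hq1 k))
    rwa [Real.rpow_one] at h1
  choose m hm using fun k => exists_cf_l (φ := φ k) (z := 0) (hs0 k) (show s k < sg (φ k) 0 by
    rw [hs.s0 k]
    exact hs1 k)
  obtain ⟨K, hK⟩ := hs.LB he hC0 hC 4
  have hbound : ∀ᶠ k in (UU : Filter ℕ), ∃ m' < ⌈4 * K⌉₊, m k = m' := by
    filter_upwards [hK, hs.dscL 5] with k hk hd
    refine ⟨m k, ?_, rfl⟩
    have hK0 : 0 ≤ K := (sg_nn (φ k) 0).trans (hk 0 (by simp))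
    have h1 : ∀ w ∈ sphere (0 : ℂ) 4, ‖φ k w - φ k 0‖ ≤ 4 * K := by
      intro w hw
      rw [mem_sphere_zero_iff_norm] at hw
      have h6 : ‖φ k w - φ k 0‖ ≤ K * ‖w - 0‖ :=
        (convex_closedBall (0 : ℂ) 4).norm_image_sub_le_of_norm_deriv_le
          (fun x hx => hd.dif.differentiableAt (isOpen_ball.mem_nhds
            (closedBall_subset_ball (by norm_num) hx)))
          (fun x hx => (deriv_le_sg_l (hd.dif.mono ball_sub_l) (by
            have := mem_closedBall_zero_iff.1 hx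
            linarith)).trans (hk x (mem_closedBall_zero_iff.1 hx)))
          (mem_closedBall_self (by norm_num)) (mem_closedBall_zero_iff.2 hw.le)
      rw [sub_zero, hw] at h6
      linarith
    have h2 := cf_le_l hd.dif (by norm_num) (by norm_num) h1 (m k)
    have h3 : (1 / 2 : ℝ) ^ (m k + 1) ≤ s k ^ (m k + 1) :=
      pow_le_pow_left₀ (by norm_num) (hs2 k) _
    have h4 : (1 / 2 : ℝ) ^ (m k + 1) < 4 * K / 4 ^ (m k + 1) := (h3.trans_lt (hm k)).trans_le h2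
    rw [lt_div_iff₀ (by positivity), ← mul_pow] at h4
    norm_num at h4
    have h5 : ((m k : ℝ) + 1) < 2 ^ (m k + 1) := by
      have := Nat.lt_two_pow_self (n := m k + 1)
      exact_mod_cast this
    have h6 : (m k : ℝ) < 4 * K := by linarith
    have h7 := h6.trans_le (Nat.le_ceil (4 * K))
    exact_mod_cast h7
  obtain ⟨m', hm'⟩ := pigeon hbound
  refine ⟨m', ?_⟩
  filter_upwards [hm'] with k hk p hp
  have h1 := hm k
  rw [hk] at h1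
  calc (1 / 2 : ℝ) = s k ^ (qk (nn k)) := (hspow k).symm
    _ = (s k ^ (m' + 1)) ^ p := by rw [← pow_mul, ← hp, mul_comm]
    _ ≤ cf (φ k) (m' + 1) 0 ^ p := pow_le_pow_left₀ (pow_nonneg (hs0 k) _) h1.le p

end Pool.Agent.N154.GG
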